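import Mathlib

set_option autoImplicit false

namespace Pool.Agent.Helper477
open Finset

/-- `Rep M b Φ`: the function `Φ` is given (at nonvanishing arguments) by a Laurent
polynomial with at most `M` terms and exponents bounded by `b`. -/
def Rep {ι : Type} [Fintype ι] (M b : ℕ) (Φ : (ι → ℂ) → ℂ) : Prop :=
  ∃ κ : Type, ∃ _ : Fintype κ, Fintype.card κ ≤ M ∧ ∃ (c : κ → ℂ) (k : κ → ι → ℤ),
    (∀ a i, |k a i| ≤ (b : ℤ)) ∧
      ∀ T : ι → ℂ, (∀ i, T i ≠ 0) → Φ T = ∑ a, c a * ∏ i, T i ^ (k a i)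

variable {ι : Type} [Fintype ι]

theorem Rep.mono {M b M' b' : ℕ} {Φ : (ι → ℂ) → ℂ} (h : Rep M b Φ) (hM : M ≤ M')
    (hb : b ≤ b') : Rep M' b' Φ := by
  obtain ⟨κ, hκ, hc, c, k, h1, h2⟩ := h
  exact ⟨κ, hκ, hc.trans hM, c, k, fun a i => (h1 a i).trans (by exact_mod_cast hb), h2⟩

theorem Rep.add {M b M' : ℕ} {Φ Φ' : (ι → ℂ) → ℂ} (h : Rep M b Φ) (h' : Rep M' b Φ') :
    Rep (M + M') b (fun T => Φ T + Φ' T) := by
  obtain ⟨κ, hκ, hc, c, k, h1, h2⟩ := h
  obtain ⟨κ', hκ', hc', c', k', h1', h2'⟩ := h'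
  refine ⟨κ ⊕ κ', inferInstance, ?_, Sum.elim c c', Sum.elim k k', ?_, ?_⟩
  · simp only [Fintype.card_sum]; omega
  · rintro (a | a) i
    · exact h1 a i
    · exact h1' a i
  · intro T hT
    simp only [Fintype.sum_sum_type, Sum.elim_inl, Sum.elim_inr]
    rw [h2 T hT, h2' T hT]

theorem Rep.const_mul {M b : ℕ} {Φ : (ι → ℂ) → ℂ} (z : ℂ) (h : Rep M b Φ) :
    Rep M b (fun T => z * Φ T) := by
  obtain ⟨κ, hκ, hc, c, k, h1, h2⟩ := h
  refine ⟨κ, hκ, hc, fun a => z * c a, k, h1, ?_⟩
  intro T hT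
  simp only [h2 T hT, Finset.mul_sum, mul_assoc]

theorem Rep.sub {M b M' : ℕ} {Φ Φ' : (ι → ℂ) → ℂ} (h : Rep M b Φ) (h' : Rep M' b Φ') :
    Rep (M + M') b (fun T => Φ T - Φ' T) := by
  have := h.add (h'.const_mul (-1))
  simpa [sub_eq_add_neg] using this

theorem Rep.mul {M b M' b' : ℕ} {Φ Φ' : (ι → ℂ) → ℂ} (h : Rep M b Φ) (h' : Rep M' b' Φ') :
    Rep (M * M') (b + b') (fun T => Φ T * Φ' T) := by
  obtain ⟨κ, hκ, hc, c, k, h1, h2⟩ := h
  obtain ⟨κ', hκ', hc', c', k', h1', h2'⟩ := h'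
  refine ⟨κ × κ', inferInstance, ?_, fun x => c x.1 * c' x.2, fun x => k x.1 + k' x.2, ?_, ?_⟩
  · simp only [Fintype.card_prod]; exact Nat.mul_le_mul hc hc'
  · rintro ⟨a, a'⟩ i
    have e1 := h1 a i
    have e2 := h1' a' i
    simp only [Pi.add_apply]
    push_cast
    exact (abs_add_le _ _).trans (add_le_add e1 e2)
  · intro T hT
    simp only [h2 T hT, h2' T hT]
    rw [Finset.sum_mul_sum, Fintype.sum_prod_type]
    refine Finset.sum_congr rfl fun a _ => Finset.sum_congr rfl fun a' _ => ?_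
    simp only [Pi.add_apply]
    rw [Finset.prod_congr rfl (fun i _ => zpow_add₀ (hT i) (k a i) (k' a' i)),
      Finset.prod_mul_distrib]
    ring

theorem Rep.one : Rep 1 0 (fun _ : ι → ℂ => (1 : ℂ)) := by
  refine ⟨Unit, inferInstance, by simp, fun _ => 1, fun _ _ => 0, by simp, by simp⟩

theorem Rep.zero : Rep 0 0 (fun _ : ι → ℂ => (0 : ℂ)) := by
  refine ⟨Empty, inferInstance, by simp, fun _ => 1, fun _ _ => 0, by simp, by simp⟩

theorem Rep.monomial [DecidableEq ι] (z : ℂ) (i : ι) (e : ℤ) (he : |e| ≤ 1) :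
    Rep 1 1 (fun T : ι → ℂ => z * T i ^ e) := by
  refine ⟨Unit, inferInstance, by simp, fun _ => z, fun _ => Pi.single i e, ?_, ?_⟩
  · intro _ j
    by_cases h : j = i
    · subst h; simpa using he
    · simp [Pi.single_eq_of_ne h]
  · intro T _
    simp only [Finset.univ_unique, Finset.sum_const, Finset.card_singleton, one_smul]
    congr 1
    rw [Finset.prod_eq_single i]
    · simp
    · intro j _ hj
      simp [Pi.single_eq_of_ne hj]
    · intro h; exact absurd (Finset.mem_univ _) h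

theorem Rep.prod {X : Type} (s : Finset X) {M b : ℕ} {Φ : X → (ι → ℂ) → ℂ}
    (h : ∀ x ∈ s, Rep M b (Φ x)) :
    Rep (M ^ s.card) (b * s.card) (fun T => ∏ x ∈ s, Φ x T) := by
  classical
  induction s using Finset.induction_on with
  | empty => simpa using Rep.one
  | insert a s ha ih =>
    have h1 := h a (Finset.mem_insert_self a s)
    have h2 := ih (fun x hx => h x (Finset.mem_insert_of_mem hx))
    have h3 := h1.mul h2
    rw [Finset.card_insert_of_notMem ha]
    simp only [Finset.prod_insert ha]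
    refine h3.mono (by rw [pow_succ, mul_comm]) (by ring_nf; omega)

theorem Rep.sum {X : Type} (s : Finset X) {M b : ℕ} {Φ : X → (ι → ℂ) → ℂ}
    (h : ∀ x ∈ s, Rep M b (Φ x)) :
    Rep (s.card * M) b (fun T => ∑ x ∈ s, Φ x T) := by
  classical
  induction s using Finset.induction_on with
  | empty => simpa using Rep.zero.mono (le_refl 0) (Nat.zero_le b)
  | insert a s ha ih =>
    have h1 := h a (Finset.mem_insert_self a s)
    have h2 := ih (fun x hx => h x (Finset.mem_insert_of_mem hx))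
    have h3 := h1.add h2
    rw [Finset.card_insert_of_notMem ha]
    simp only [Finset.sum_insert ha]
    refine h3.mono (by ring_nf; omega) le_rfl

/-- A sum with fewer than `p` terms which vanishes at all nontrivial characters vanishes
in the group ring. -/
theorem fiber_sum_zero {p : ℕ} [Fact p.Prime] {κ : Type} [Fintype κ]
    (hκ : Fintype.card κ < p) (c : κ → ℂ) (r : κ → ZMod p) (ψ : AddChar (ZMod p) ℂ)
    (hψ : ψ.IsPrimitive) (h : ∀ y : ZMod p, y ≠ 0 → ∑ a, c a * ψ (y * r a) = 0) (x : ZMod p) :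
    ∑ a, (if r a = x then c a else 0) = 0 := by
  classical
  -- `p * b x = T`
  have key : ∀ x : ZMod p, (p : ℂ) * ∑ a, (if r a = x then c a else 0) = ∑ a, c a := by
    intro x
    have e1 : ∑ y : ZMod p, ψ (-(y * x)) * ∑ a, c a * ψ (y * r a) = ∑ a, c a := by
      rw [Finset.sum_eq_single 0]
      · simp
      · intro y _ hy
        rw [h y hy, mul_zero]
      · intro h0; exact absurd (Finset.mem_univ _) h0
    rw [← e1]
    simp only [Finset.mul_sum]
    rw [Finset.sum_comm]
    refine Finset.sum_congr rfl fun a _ => ?_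
    have e2 : ∀ y : ZMod p, ψ (-(y * x)) * (c a * ψ (y * r a)) = c a * ψ (y * (r a - x)) := by
      intro y
      have : y * (r a - x) = -(y * x) + y * r a := by ring
      rw [this, AddChar.map_add_eq_mul]
      ring
    simp only [e2]
    rw [← Finset.mul_sum, AddChar.sum_mulShift _ hψ]
    by_cases hx : r a = x
    · subst hx; simp [ZMod.card]; ring
    · have hne : r a - x ≠ 0 := sub_ne_zero.mpr hx
      simp [hx, hne]
  have hp : (p : ℂ) ≠ 0 := by
    exact_mod_cast (Fact.out : p.Prime).ne_zero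
  -- some residue is missed
  obtain ⟨x0, hx0⟩ : ∃ x0 : ZMod p, ∀ a, r a ≠ x0 := by
    by_contra hcon
    push Not at hcon
    have hs : Function.Surjective r := fun x => hcon x
    have := Fintype.card_le_of_surjective r hs
    rw [ZMod.card] at this
    omega
  have hT : ∑ a, c a = 0 := by
    rw [← key x0]
    simp [hx0]
  have := key x
  rw [hT] at this
  exact (mul_eq_zero.mp this).resolve_left hp

theorem addChar_sum {A : Type*} [AddCommGroup A] (ψ : AddChar A ℂ) {X : Type*}
    (s : Finset X) (f : X → A) : ψ (∑ x ∈ s, f x) = ∏ x ∈ s, ψ (f x) := by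
  classical
  induction s using Finset.induction_on with
  | empty => simp
  | insert a s ha ih => rw [Finset.sum_insert ha, Finset.prod_insert ha,
      AddChar.map_add_eq_mul, ih]

theorem prod_zpow_addChar {p : ℕ} (ψ : AddChar (ZMod p) ℂ) (y : ZMod p) (v : ι → ZMod p)
    (k : ι → ℤ) : ∏ i, ψ (y * v i) ^ (k i) = ψ (y * ∑ i, (k i : ZMod p) * v i) := by
  have h : y * ∑ i, (k i : ZMod p) * v i = ∑ i, (k i) • (y * v i) := by
    rw [Finset.mul_sum]
    refine Finset.sum_congr rfl fun i _ => ?_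
    rw [zsmul_eq_mul]; ring
  rw [h, addChar_sum]
  refine Finset.prod_congr rfl fun i _ => ?_
  rw [AddChar.map_zsmul_eq_zpow]

/-- Transfer: a Laurent polynomial with few terms vanishing at all the points
`(ψ (y * v i))_i`, `y ≠ 0`, vanishes at every point `T` satisfying all short relations of `v`. -/
theorem Rep.transfer {p : ℕ} [Fact p.Prime] {M b : ℕ} {Φ : (ι → ℂ) → ℂ} (h : Rep M b Φ)
    (hM : M < p) (ψ : AddChar (ZMod p) ℂ) (hψ : ψ.IsPrimitive) (v : ι → ZMod p)
    (hv : ∀ y : ZMod p, y ≠ 0 → Φ (fun i => ψ (y * v i)) = 0)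
    (T : ι → ℂ) (hT : ∀ i, T i ≠ 0)
    (hT' : ∀ k : ι → ℤ, (∀ i, |k i| ≤ (2 * b : ℕ)) → ∑ i, (k i : ZMod p) * v i = 0 →
      ∏ i, T i ^ (k i) = 1) : Φ T = 0 := by
  classical
  obtain ⟨κ, hκ, hc, c, k, h1, h2⟩ := h
  set r : κ → ZMod p := fun a => ∑ i, (k a i : ZMod p) * v i with hr
  have hfib := fiber_sum_zero (lt_of_le_of_lt hc hM) c r ψ hψ (by
    intro y hy
    have := hv y hy
    rw [h2 _ (fun i => (AddChar.val_isUnit ψ _).ne_zero)] at this
    simpa [prod_zpow_addChar] using this)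
  rw [h2 T hT]
  set g : κ → ℂ := fun a => ∏ i, T i ^ (k a i) with hg
  have hgr : ∀ a a', r a = r a' → g a = g a' := by
    intro a a' haa
    have hk := hT' (k a - k a') (by
      intro i
      have e1 := h1 a i
      have e2 := h1 a' i
      simp only [Pi.sub_apply]
      push_cast
      have := abs_sub (k a i) (k a' i)
      linarith) (by
      simp only [Pi.sub_apply, Int.cast_sub, sub_mul, Finset.sum_sub_distrib]
      simp only [hr] at haa
      rw [haa, sub_self])
    simp only [Pi.sub_apply] at hk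
    rw [Finset.prod_congr rfl (fun i _ => zpow_sub₀ (hT i) (k a i) (k a' i)),
      Finset.prod_div_distrib] at hk
    have hne : ∏ i, T i ^ (k a' i) ≠ 0 :=
      Finset.prod_ne_zero_iff.mpr fun i _ => zpow_ne_zero _ (hT i)
    rw [div_eq_one_iff_eq hne] at hk
    exact hk
  -- regroup
  have : ∑ a, c a * g a = ∑ x : ZMod p, ∑ a, (if r a = x then c a * g a else 0) := by
    rw [Finset.sum_comm]
    refine Finset.sum_congr rfl fun a _ => ?_
    simp
  rw [this]
  refine Finset.sum_eq_zero fun x _ => ?_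
  by_cases hx : ∃ a0, r a0 = x
  · obtain ⟨a0, ha0⟩ := hx
    have e : ∀ a, (if r a = x then c a * g a else 0) = (if r a = x then c a else 0) * g a0 := by
      intro a
      by_cases hax : r a = x
      · simp only [hax, if_true]
        rw [hgr a a0 (hax.trans ha0.symm)]
      · simp [hax]
    simp only [e]
    rw [← Finset.sum_mul, hfib x, zero_mul]
  · push Not at hx
    refine Finset.sum_eq_zero fun a _ => ?_
    simp [hx a]

end Pool.Agent.Helper477
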