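import Mathlib
import Pool.Agent.Helper477.Rep

set_option autoImplicit false

namespace Pool.Agent.Helper477
open Finset

/-- off-diagonal pairs -/
abbrev OD (n : ℕ) : Type := {x : Fin n × Fin n // x.1 ≠ x.2}

theorem prod_filter_snd {n : ℕ} (f : Fin n → Fin n → ℂ) (j : Fin n) :
    ∏ x ∈ (Finset.univ : Finset (OD n)).filter (fun x => x.1.2 = j), f x.1.1 x.1.2 =
      ∏ i ∈ Finset.univ.erase j, f i j := by
  refine Finset.prod_bij (fun x _ => x.1.1) ?_ ?_ ?_ ?_
  · intro x hx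
    rw [Finset.mem_filter] at hx
    rw [Finset.mem_erase]
    exact ⟨by rw [← hx.2]; exact x.2, Finset.mem_univ _⟩
  · intro x hx y hy h
    rw [Finset.mem_filter] at hx hy
    apply Subtype.ext
    exact Prod.ext h (by rw [hx.2, hy.2])
  · intro i hi
    rw [Finset.mem_erase] at hi
    exact ⟨⟨(i, j), hi.1⟩, by simp, rfl⟩
  · intro x hx
    rw [Finset.mem_filter] at hx
    rw [hx.2]

theorem prod_filter_fst {n : ℕ} (f : Fin n → Fin n → ℂ) (j : Fin n) :
    ∏ x ∈ (Finset.univ : Finset (OD n)).filter (fun x => x.1.1 = j), f x.1.1 x.1.2 =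
      ∏ i ∈ Finset.univ.erase j, f j i := by
  refine Finset.prod_bij (fun x _ => x.1.2) ?_ ?_ ?_ ?_
  · intro x hx
    rw [Finset.mem_filter] at hx
    rw [Finset.mem_erase]
    exact ⟨by rw [← hx.2]; exact x.2.symm, Finset.mem_univ _⟩
  · intro x hx y hy h
    rw [Finset.mem_filter] at hx hy
    apply Subtype.ext
    exact Prod.ext (by rw [hx.2, hy.2]) h
  · intro i hi
    rw [Finset.mem_erase] at hi
    exact ⟨⟨(j, i), Ne.symm hi.1⟩, by simp, rfl⟩
  · intro x hx
    rw [Finset.mem_filter] at hx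
    rw [hx.2]

theorem cleared {n : ℕ} (f : Fin n → Fin n → ℂ) (hf : ∀ i j, i ≠ j → f i j ≠ 0) :
    (∏ x : OD n, f x.1.1 x.1.2) * ∑ j, ∏ i ∈ Finset.univ.erase j, (f i j)⁻¹ =
      ∑ j, ∏ x ∈ (Finset.univ : Finset (OD n)).filter (fun x => x.1.2 ≠ j), f x.1.1 x.1.2 := by
  rw [Finset.mul_sum]
  refine Finset.sum_congr rfl fun j _ => ?_
  rw [← Finset.prod_filter_mul_prod_filter_not Finset.univ (fun x : OD n => x.1.2 = j),
    prod_filter_snd, Finset.prod_inv_distrib]
  have : ∏ i ∈ Finset.univ.erase j, f i j ≠ 0 :=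
    Finset.prod_ne_zero_iff.mpr fun i hi => hf i j (Finset.ne_of_mem_erase hi)
  field_simp

theorem cleared' {n : ℕ} (f : Fin n → Fin n → ℂ) (hf : ∀ i j, i ≠ j → f i j ≠ 0) :
    (∏ x : OD n, f x.1.1 x.1.2) * ∑ j, ∏ i ∈ Finset.univ.erase j, (f j i)⁻¹ =
      ∑ j, ∏ x ∈ (Finset.univ : Finset (OD n)).filter (fun x => x.1.1 ≠ j), f x.1.1 x.1.2 := by
  rw [Finset.mul_sum]
  refine Finset.sum_congr rfl fun j _ => ?_
  rw [← Finset.prod_filter_mul_prod_filter_not Finset.univ (fun x : OD n => x.1.1 = j),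
    prod_filter_fst, Finset.prod_inv_distrib]
  have : ∏ i ∈ Finset.univ.erase j, f j i ≠ 0 :=
    Finset.prod_ne_zero_iff.mpr fun i hi => hf j i (Ne.symm (Finset.ne_of_mem_erase hi))
  field_simp

variable {ι : Type} [Fintype ι] [DecidableEq ι]

/-- the elementary factor `a T_i + a' T_i⁻¹ - b T_j - b' T_j⁻¹` -/
noncomputable def Fac (a a' b b' : ℂ) (i j : ι) (T : ι → ℂ) : ℂ :=
  (a * T i ^ (1 : ℤ) + a' * T i ^ (-1 : ℤ)) - (b * T j ^ (1 : ℤ) + b' * T j ^ (-1 : ℤ))

theorem Rep_Fac (a a' b b' : ℂ) (i j : ι) : Rep 4 1 (Fac a a' b b' i j) := by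
  have h1 := (Rep.monomial a i 1 (by norm_num)).add (Rep.monomial a' i (-1) (by norm_num))
  have h2 := (Rep.monomial b j 1 (by norm_num)).add (Rep.monomial b' j (-1) (by norm_num))
  exact h1.sub h2

theorem Rep_sum_prod {n : ℕ} {X : Type} [Fintype X] (F : X → (ι → ℂ) → ℂ)
    (hF : ∀ x, Rep 4 1 (F x)) (P : Fin n → X → Prop) [∀ j, DecidablePred (P j)] :
    Rep (n * 4 ^ Fintype.card X) (Fintype.card X)
      (fun T => ∑ j : Fin n, ∏ x ∈ Finset.univ.filter (P j), F x T) := by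
  have h := Rep.sum (Finset.univ : Finset (Fin n)) (M := 4 ^ Fintype.card X)
    (b := Fintype.card X) (Φ := fun j T => ∏ x ∈ Finset.univ.filter (P j), F x T) (by
      intro j _
      have h1 := Rep.prod (Finset.univ.filter (P j)) (M := 4) (b := 1) (Φ := F)
        (fun x _ => hF x)
      have hc : (Finset.univ.filter (P j)).card ≤ Fintype.card X := Finset.card_le_univ _
      exact h1.mono (Nat.pow_le_pow_right (by norm_num) hc) (by omega))
  simpa using h

theorem Rep_prod_all {X : Type} [Fintype X] (F : X → (ι → ℂ) → ℂ)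
    (hF : ∀ x, Rep 4 1 (F x)) :
    Rep (4 ^ Fintype.card X) (Fintype.card X) (fun T => ∏ x, F x T) := by
  have h1 := Rep.prod (Finset.univ : Finset X) (M := 4) (b := 1) (Φ := F) (fun x _ => hF x)
  simpa using h1

end Pool.Agent.Helper477
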