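import Mathlib

set_option autoImplicit false

namespace Pool.Agent.Helper477
open Finset Filter Topology

section series
open PowerSeries

/-- the generating function `∑_a w^a X^|a|` -/
noncomputable def gser (w : ℂ) : PowerSeries ℂ :=
  PowerSeries.mk (fun m => if m = 0 then 1 else w ^ m + (w⁻¹) ^ m)

theorem geom_ser (w : ℂ) : (PowerSeries.mk (fun m => w ^ m)) * (1 - C w * X) = 1 := by
  rw [mul_sub, mul_one, ← mul_assoc]
  ext m
  rcases m with _ | m
  · simp
  · rw [map_sub, coeff_succ_mul_X, coeff_mul_C, coeff_mk, coeff_mk, pow_succ, sub_self]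
    simp [coeff_one]

theorem gser_mul (w : ℂ) (hw : w ≠ 0) :
    gser w * ((1 - C w * X) * (1 - C w⁻¹ * X)) = 1 - X ^ 2 := by
  have h : gser w = PowerSeries.mk (fun m => w ^ m) + PowerSeries.mk (fun m => w⁻¹ ^ m) - 1 := by
    ext m
    simp only [gser, coeff_mk, map_add, map_sub, coeff_one]
    by_cases hm : m = 0
    · subst hm; simp
    · simp [hm]
  have h1 := geom_ser w
  have h2 := geom_ser w⁻¹
  have h3 : (C w * C w⁻¹ : PowerSeries ℂ) = 1 := by
    rw [← map_mul, mul_inv_cancel₀ hw, map_one]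
  rw [h]
  linear_combination (1 - C w⁻¹ * X) * h1 + (1 - C w * X) * h2 - X ^ 2 * h3

theorem coeff_gser (w : ℂ) (k m : ℕ) (hm : m ≤ k) :
    coeff m (gser w) = ∑ a ∈ (Finset.Icc (-(k : ℤ)) k).filter (fun a => a.natAbs = m), w ^ a := by
  have hset : (Finset.Icc (-(k : ℤ)) k).filter (fun a => a.natAbs = m) = {(m : ℤ), -(m : ℤ)} := by
    ext a
    simp only [Finset.mem_filter, Finset.mem_Icc, Finset.mem_insert, Finset.mem_singleton]
    omega
  rw [hset, gser, coeff_mk]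
  by_cases h0 : m = 0
  · subst h0; simp
  · rw [Finset.sum_pair (by omega)]
    simp [h0]

theorem coeff_prod_gser {n : ℕ} (w : Fin n → ℂ) (k : ℕ) :
    coeff k (∏ j, gser (w j)) =
      ∑ a ∈ (Fintype.piFinset (fun _ : Fin n => Finset.Icc (-(k : ℤ)) (k : ℤ))).filter
        (fun a => ∑ j, |a j| = (k : ℤ)), ∏ j, w j ^ (a j) := by
  classical
  rw [coeff_prod]
  rw [← Finset.sum_fiberwise_of_maps_to
    (g := fun a : Fin n → ℤ => Finsupp.equivFunOnFinite.symm (fun j => (a j).natAbs))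
    (t := Finset.finsuppAntidiag Finset.univ k)]
  · refine Finset.sum_congr rfl fun l hl => ?_
    rw [Finset.mem_finsuppAntidiag] at hl
    have hl1 : ∀ j, l j ≤ k := by
      intro j
      rw [← hl.1]
      exact Finset.single_le_sum (f := fun j => l j) (fun _ _ => Nat.zero_le _) (Finset.mem_univ j)
    have e1 : ∏ j, coeff (l j) (gser (w j)) = ∏ j, ∑ a ∈ (Finset.Icc (-(k : ℤ)) k).filter
        (fun a => a.natAbs = l j), w j ^ a :=
      Finset.prod_congr rfl fun j _ => coeff_gser (w j) k (l j) (hl1 j)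
    rw [e1, Finset.prod_univ_sum]
    refine Finset.sum_congr ?_ fun _ _ => rfl
    ext a
    simp only [Fintype.mem_piFinset, Finset.mem_filter]
    constructor
    · intro h
      refine ⟨⟨fun j => (h j).1, ?_⟩, ?_⟩
      · have : ∑ j, ((l j : ℕ) : ℤ) = k := by exact_mod_cast hl.1
        rw [← this]
        refine Finset.sum_congr rfl fun j _ => ?_
        rw [Int.abs_eq_natAbs, (h j).2]
      · ext j
        simp [(h j).2]
    · rintro ⟨⟨h1, h2⟩, h3⟩ j
      refine ⟨h1 j, ?_⟩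
      rw [← h3]
      simp
  · intro a ha
    simp only [Finset.mem_filter] at ha
    rw [Finset.mem_finsuppAntidiag]
    refine ⟨?_, Finset.subset_univ _⟩
    have h2 := ha.2
    simp only [Finsupp.coe_equivFunOnFinite_symm]
    have : ((∑ j, (a j).natAbs : ℕ) : ℤ) = k := by
      push_cast
      rw [← h2]
    exact_mod_cast this

end series

/-- the number of lattice points of `1`-norm `k` in the congruence lattice -/
noncomputable def cnt {n : ℕ} (q : ℕ) (s : Fin n → ℕ) (k : ℕ) : ℕ :=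
  ((Fintype.piFinset (fun _ : Fin n => Finset.Icc (-(k : ℤ)) (k : ℤ))).filter
            (fun a => ∑ j, |a j| = (k : ℤ) ∧
              (∑ j, a j * (s j : ℤ)) ≡ 0 [ZMOD (q : ℤ)])).card

/-- faithful additive characters -/
def Faithful {q : ℕ} (ψ : AddChar (ZMod q) ℂ) : Prop := ∀ x, ψ x = 1 → x = 0

theorem Faithful.isPrimitive {q : ℕ} {ψ : AddChar (ZMod q) ℂ} (h : Faithful ψ) :
    ψ.IsPrimitive := by
  intro a ha hcon
  apply ha
  apply h
  have := DFunLike.congr_fun hcon 1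
  simpa [AddChar.mulShift_apply] using this

theorem addChar_sum' {A : Type*} [AddCommGroup A] (ψ : AddChar A ℂ) {X : Type*}
    (s : Finset X) (f : X → A) : ψ (∑ x ∈ s, f x) = ∏ x ∈ s, ψ (f x) := by
  classical
  induction s using Finset.induction_on with
  | empty => simp
  | insert a s ha ih => rw [Finset.sum_insert ha, Finset.prod_insert ha,
      AddChar.map_add_eq_mul, ih]

theorem sum_coeff {n q : ℕ} [NeZero q] (s : Fin n → ℕ) (ψ : AddChar (ZMod q) ℂ)
    (hψ : Faithful ψ) (k : ℕ) :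
    ∑ h : ZMod q, PowerSeries.coeff k (∏ j, gser (ψ (h * (s j : ZMod q)))) = q * cnt q s k := by
  classical
  have e1 : ∀ h : ZMod q, PowerSeries.coeff k (∏ j, gser (ψ (h * (s j : ZMod q)))) =
      ∑ a ∈ (Fintype.piFinset (fun _ : Fin n => Finset.Icc (-(k : ℤ)) (k : ℤ))).filter
        (fun a => ∑ j, |a j| = (k : ℤ)), ψ (h * ((∑ j, a j * (s j : ℤ) : ℤ) : ZMod q)) := by
    intro h
    rw [coeff_prod_gser]
    refine Finset.sum_congr rfl fun a _ => ?_
    have : h * ((∑ j, a j * (s j : ℤ) : ℤ) : ZMod q) = ∑ j, (a j) • (h * (s j : ZMod q)) := by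
      push_cast
      rw [Finset.mul_sum]
      refine Finset.sum_congr rfl fun j _ => ?_
      rw [zsmul_eq_mul]; ring
    rw [this, addChar_sum']
    refine Finset.prod_congr rfl fun j _ => ?_
    rw [AddChar.map_zsmul_eq_zpow]
  simp only [e1]
  rw [Finset.sum_comm]
  simp only [AddChar.sum_mulShift _ hψ.isPrimitive, ZMod.card]
  rw [Finset.sum_congr rfl (g := fun a => (q : ℂ) *
    (if (∑ j, a j * (s j : ℤ)) ≡ 0 [ZMOD (q : ℤ)] then 1 else 0))]
  · rw [← Finset.mul_sum, ← Finset.sum_filter, Finset.filter_filter, cnt]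
    simp
  · intro a _
    have : ((∑ j, a j * (s j : ℤ) : ℤ) : ZMod q) = 0 ↔ (∑ j, a j * (s j : ℤ)) ≡ 0 [ZMOD (q : ℤ)] := by
      rw [ZMod.intCast_zmod_eq_zero_iff_dvd, Int.modEq_zero_iff_dvd]
    by_cases h : (∑ j, a j * (s j : ℤ)) ≡ 0 [ZMOD (q : ℤ)]
    · rw [if_pos h, if_pos (this.mpr h)]; simp
    · rw [if_neg h, if_neg (fun h' => h (this.mp h'))]; simp

theorem series_eq {n q : ℕ} [NeZero q] (s s' : Fin n → ℕ) (ψ : AddChar (ZMod q) ℂ)
    (hψ : Faithful ψ) (hspec : ∀ k, cnt q s k = cnt q s' k) :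
    ∑ h : ZMod q, (∏ j, gser (ψ (h * (s j : ZMod q)))) =
    ∑ h : ZMod q, (∏ j, gser (ψ (h * (s' j : ZMod q)))) := by
  ext k
  rw [map_sum, map_sum, sum_coeff s ψ hψ, sum_coeff s' ψ hψ, hspec k]

open Polynomial in
theorem eval_identity {H : Type} [Fintype H] [DecidableEq H] (D D' : H → ℂ[X]) (U : ℂ[X])
    (G G' : H → PowerSeries ℂ) (hG : ∀ h, G h * (D h : PowerSeries ℂ) = (U : PowerSeries ℂ))
    (hG' : ∀ h, G' h * (D' h : PowerSeries ℂ) = (U : PowerSeries ℂ))
    (hsum : ∑ h, G h = ∑ h, G' h) (z : ℂ) (hz : ∀ h, (D h).eval z ≠ 0)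
    (hz' : ∀ h, (D' h).eval z ≠ 0) :
    ∑ h, U.eval z / (D h).eval z = ∑ h, U.eval z / (D' h).eval z := by
  have key : ∀ (D D' : H → ℂ[X]) (G : H → PowerSeries ℂ)
      (_ : ∀ h, G h * (D h : PowerSeries ℂ) = (U : PowerSeries ℂ)),
      ((∑ h, U * ∏ k ∈ Finset.univ.erase h, D k) * ∏ k, D' k : ℂ[X]) =
      (∑ h, G h) * ((∏ k, D k : ℂ[X]) : PowerSeries ℂ) * ((∏ k, D' k : ℂ[X]) : PowerSeries ℂ) := by
    intro D D' G hG
    rw [Polynomial.coe_mul]
    congr 1
    rw [Finset.sum_mul]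
    have : ((∑ h, U * ∏ k ∈ Finset.univ.erase h, D k : ℂ[X]) : PowerSeries ℂ) =
        ∑ h, ((U * ∏ k ∈ Finset.univ.erase h, D k : ℂ[X]) : PowerSeries ℂ) := by
      exact map_sum (Polynomial.coeToPowerSeries.ringHom (R := ℂ))
        (fun h => U * ∏ k ∈ Finset.univ.erase h, D k) Finset.univ
    rw [this]
    refine Finset.sum_congr rfl fun h _ => ?_
    rw [← Finset.mul_prod_erase Finset.univ D (Finset.mem_univ h), Polynomial.coe_mul,
      Polynomial.coe_mul, ← hG h]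
    ring
  have e1 := key D D' G hG
  have e2 := key D' D G' hG'
  have e3 : ((∑ h, U * ∏ k ∈ Finset.univ.erase h, D k) * ∏ k, D' k : ℂ[X]) =
      ((∑ h, U * ∏ k ∈ Finset.univ.erase h, D' k) * ∏ k, D k : ℂ[X]) := by
    apply Polynomial.coe_injective ℂ
    rw [e1, e2, hsum]
    ring
  have e4 := congrArg (Polynomial.eval z) e3
  simp only [Polynomial.eval_mul, Polynomial.eval_finsetSum, Polynomial.eval_prod] at e4
  have hP : ∏ k, (D k).eval z ≠ 0 := Finset.prod_ne_zero_iff.mpr fun k _ => hz k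
  have hP' : ∏ k, (D' k).eval z ≠ 0 := Finset.prod_ne_zero_iff.mpr fun k _ => hz' k
  have conv : ∀ (D : H → ℂ[X]) (_ : ∀ h, (D h).eval z ≠ 0),
      ∑ h, U.eval z / (D h).eval z =
      (∑ h, U.eval z * ∏ k ∈ Finset.univ.erase h, (D k).eval z) / ∏ k, (D k).eval z := by
    intro D hD
    rw [Finset.sum_div]
    refine Finset.sum_congr rfl fun h _ => ?_
    rw [← Finset.mul_prod_erase Finset.univ _ (Finset.mem_univ h)]
    have h1 := hD h
    have h2 : ∏ k ∈ Finset.univ.erase h, (D k).eval z ≠ 0 :=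
      Finset.prod_ne_zero_iff.mpr fun k _ => hD k
    field_simp
  rw [conv D hz, conv D' hz', div_eq_div_iff hP hP']
  exact e4

/-- the ratios `u i / u j` -/
noncomputable def vv {q n : ℕ} (u : Fin n → (ZMod q)ˣ) (i j : Fin n) : ZMod q :=
  ((u i * (u j)⁻¹ : (ZMod q)ˣ) : ZMod q)

/-- the pole coefficient -/
noncomputable def Asum {q n : ℕ} (ψ : AddChar (ZMod q) ℂ) (u : Fin n → (ZMod q)ˣ) : ℂ :=
  ∑ j, ∏ i ∈ Finset.univ.erase j, (ψ 1 + ψ (-1) - ψ (vv u i j) - ψ (-(vv u i j)))⁻¹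

/-- evaluated denominators -/
noncomputable def Dev {q n : ℕ} (ψ : AddChar (ZMod q) ℂ) (u : Fin n → (ZMod q)ˣ) (h : ZMod q)
    (z : ℂ) : ℂ :=
  ∏ j, ((1 - ψ (h * (u j : ZMod q)) * z) * (1 - (ψ (h * (u j : ZMod q)))⁻¹ * z))

theorem Dev_ne {q n : ℕ} [NeZero q] (ψ : AddChar (ZMod q) ℂ) (u : Fin n → (ZMod q)ˣ)
    (h : ZMod q) (z : ℂ) (hz : ‖z‖ < 1) : Dev ψ u h z ≠ 0 := by
  have key : ∀ w : ℂ, ‖w‖ = 1 → 1 - w * z ≠ 0 := by
    intro w hw h0
    have h1 : (1 : ℂ) = w * z := by linear_combination h0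
    have h2 : ‖(1 : ℂ)‖ = ‖w * z‖ := by rw [← h1]
    rw [norm_mul, hw, one_mul, norm_one] at h2
    linarith
  rw [Dev, Finset.prod_ne_zero_iff]
  intro j _
  have h1 : ‖ψ (h * (u j : ZMod q))‖ = 1 := AddChar.norm_apply ψ _
  exact mul_ne_zero (key _ h1) (key _ (by rw [norm_inv, h1, inv_one]))

/-- regular part at the pole -/
noncomputable def Reg {q n : ℕ} (ψ : AddChar (ZMod q) ℂ) (u : Fin n → (ZMod q)ˣ) (j : Fin n)
    (z : ℂ) : ℂ :=
  (1 - ψ 1 * z) * ∏ i ∈ Finset.univ.erase j, ((1 - ψ (vv u i j) * z) * (1 - ψ (-(vv u i j)) * z))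

/-- location of the poles -/
noncomputable def ee {q n : ℕ} (u : Fin n → (ZMod q)ˣ) (j : Fin n) (b : Bool) : ZMod q :=
  if b then (((u j)⁻¹ : (ZMod q)ˣ) : ZMod q) else -(((u j)⁻¹ : (ZMod q)ˣ) : ZMod q)

theorem ee_mul {q n : ℕ} (u : Fin n → (ZMod q)ˣ) (i j : Fin n) (b : Bool) :
    ee u j b * (u i : ZMod q) = if b then vv u i j else -(vv u i j) := by
  cases b
  · simp [ee, vv, mul_comm]
  · simp [ee, vv, mul_comm]

theorem vv_self {q n : ℕ} (u : Fin n → (ZMod q)ˣ) (j : Fin n) : vv u j j = 1 := by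
  simp [vv]

theorem Dev_ee {q n : ℕ} (ψ : AddChar (ZMod q) ℂ) (u : Fin n → (ZMod q)ˣ) (j : Fin n)
    (b : Bool) (z : ℂ) : Dev ψ u (ee u j b) z = (1 - ψ (-1) * z) * Reg ψ u j z := by
  have key : ∀ i, ((1 - ψ (ee u j b * (u i : ZMod q)) * z) *
      (1 - (ψ (ee u j b * (u i : ZMod q)))⁻¹ * z)) =
      ((1 - ψ (vv u i j) * z) * (1 - ψ (-(vv u i j)) * z)) := by
    intro i
    rw [ee_mul, ← AddChar.map_neg_eq_inv]
    cases b
    · simp [mul_comm]
    · simp
  rw [Dev, Finset.prod_congr rfl (fun i _ => key i),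
    ← Finset.mul_prod_erase Finset.univ _ (Finset.mem_univ j), vv_self, Reg]
  ring

theorem ee_inj {q n : ℕ} (u : Fin n → (ZMod q)ˣ) (h2 : (2 : ZMod q) ≠ 0)
    (hne : ∀ i j, i ≠ j → vv u i j ≠ 1 ∧ vv u i j ≠ -1) (i j : Fin n) (b c : Bool)
    (h : ee u i b = ee u j c) : i = j ∧ b = c := by
  have h1 : ee u i b * (u j : ZMod q) = ee u j c * (u j : ZMod q) := by rw [h]
  have h1' : ee u i b * (u i : ZMod q) = ee u j c * (u i : ZMod q) := by rw [h]
  rw [ee_mul, ee_mul, vv_self] at h1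
  rw [ee_mul, ee_mul, vv_self] at h1'
  have hij : i = j := by
    by_contra hij
    have hA := hne i j hij
    cases b <;> cases c
    · simp only [if_false, Bool.false_eq_true] at h1'
      exact hA.1 (neg_injective h1'.symm)
    · simp only [if_false, Bool.false_eq_true, if_true] at h1'
      exact hA.2 h1'.symm
    · simp only [if_false, Bool.false_eq_true, if_true] at h1'
      exact hA.2 (by rw [h1', neg_neg])
    · simp only [if_true] at h1'
      exact hA.1 h1'.symm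
  subst hij
  refine ⟨rfl, ?_⟩
  rw [vv_self] at h1
  have hkey : (1 : ZMod q) ≠ -1 := by
    intro h
    apply h2
    linear_combination h
  cases b <;> cases c <;> simp_all

theorem tendsto_term {q n : ℕ} [NeZero q] (ψ : AddChar (ZMod q) ℂ) (hψ : Faithful ψ)
    (u : Fin n → (ZMod q)ˣ) (h2 : (2 : ZMod q) ≠ 0)
    (hne : ∀ i j, i ≠ j → vv u i j ≠ 1 ∧ vv u i j ≠ -1) (h : ZMod q) :
    Tendsto (fun r : ℝ => (1 - (r : ℂ)) / Dev ψ u h (r * ψ 1)) (𝓝[<] 1)
      (𝓝 (∑ j, ∑ b : Bool, if h = ee u j b then (Reg ψ u j (ψ 1))⁻¹ else 0)) := by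
  classical
  have hcont1 : Continuous (fun r : ℝ => (r : ℂ) * ψ 1) := by fun_prop
  by_cases hex : ∃ j b, h = ee u j b
  · obtain ⟨j, b, rfl⟩ := hex
    have hL : (∑ j', ∑ b' : Bool, if ee u j b = ee u j' b' then (Reg ψ u j' (ψ 1))⁻¹ else 0) =
        (Reg ψ u j (ψ 1))⁻¹ := by
      rw [Finset.sum_eq_single j, Finset.sum_eq_single b]
      · simp
      · intro c _ hc
        rw [if_neg]
        intro hh
        exact hc (ee_inj u h2 hne _ _ _ _ hh).2.symm
      · intro hh; exact absurd (Finset.mem_univ _) hh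
      · intro i _ hi
        refine Finset.sum_eq_zero fun c _ => ?_
        rw [if_neg]
        intro hh
        exact hi (ee_inj u h2 hne _ _ _ _ hh).1.symm
      · intro hh; exact absurd (Finset.mem_univ _) hh
    rw [hL]
    have hRcont : Continuous (fun r : ℝ => Reg ψ u j ((r : ℂ) * ψ 1)) := by
      unfold Reg
      fun_prop
    have hR1 : Reg ψ u j (ψ 1) ≠ 0 := by
      have hfac : ∀ x : ZMod q, x ≠ -1 → 1 - ψ x * ψ 1 ≠ 0 := by
        intro x hx h0
        apply hx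
        have h3 : ψ (x + 1) = 1 := by
          rw [AddChar.map_add_eq_mul]
          linear_combination -h0
        have := hψ _ h3
        linear_combination this
      rw [Reg]
      refine mul_ne_zero (hfac 1 ?_) (Finset.prod_ne_zero_iff.mpr fun i hi => mul_ne_zero
        (hfac _ ?_) (hfac _ ?_))
      · intro h; apply h2; linear_combination h
      · exact (hne i j (Finset.ne_of_mem_erase hi)).2
      · intro h
        exact (hne i j (Finset.ne_of_mem_erase hi)).1 (neg_injective h)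
    have hlim : Tendsto (fun r : ℝ => (Reg ψ u j ((r : ℂ) * ψ 1))⁻¹) (𝓝[<] 1)
        (𝓝 (Reg ψ u j (ψ 1))⁻¹) := by
      have h3 : Tendsto (fun r : ℝ => Reg ψ u j ((r : ℂ) * ψ 1)) (𝓝[<] 1)
          (𝓝 (Reg ψ u j (ψ 1))) := by
        have := (hRcont.tendsto 1).mono_left (nhdsWithin_le_nhds (s := Set.Iio 1))
        simpa using this
      exact h3.inv₀ hR1
    refine hlim.congr' ?_
    filter_upwards [self_mem_nhdsWithin] with r hr
    rw [Dev_ee]
    have h4 : ψ (-1) * ((r : ℂ) * ψ 1) = r := by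
      have : ψ (-1) * ψ 1 = 1 := by rw [← AddChar.map_add_eq_mul]; simp
      linear_combination (r : ℂ) * this
    rw [h4]
    have h5 : (1 - (r : ℂ)) ≠ 0 := by
      intro h6
      have : (r : ℂ) = 1 := by linear_combination -h6
      have h7 : r = 1 := by exact_mod_cast this
      simp only [Set.mem_Iio] at hr
      linarith
    rw [← div_div, div_self h5, one_div]
  · push Not at hex
    have hL : (∑ j', ∑ b' : Bool, if h = ee u j' b' then (Reg ψ u j' (ψ 1))⁻¹ else 0) = 0 := by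
      refine Finset.sum_eq_zero fun j _ => Finset.sum_eq_zero fun b _ => ?_
      rw [if_neg (hex j b)]
    rw [hL]
    have hDcont : Continuous (fun r : ℝ => Dev ψ u h ((r : ℂ) * ψ 1)) := by
      unfold Dev
      fun_prop
    have hD1 : Dev ψ u h (ψ 1) ≠ 0 := by
      rw [Dev, Finset.prod_ne_zero_iff]
      intro j _
      refine mul_ne_zero ?_ ?_
      · intro h0
        have h3 : ψ (h * (u j : ZMod q) + 1) = 1 := by
          rw [AddChar.map_add_eq_mul]
          linear_combination -h0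
        have h4 := hψ _ h3
        apply hex j false
        have h5 : h * (u j : ZMod q) = -1 := by linear_combination h4
        have h6 : h = h * (u j : ZMod q) * (((u j)⁻¹ : (ZMod q)ˣ) : ZMod q) := by
          rw [mul_assoc, Units.mul_inv, mul_one]
        rw [h6, h5]
        simp [ee]
      · intro h0
        have h3 : ψ (1 - h * (u j : ZMod q)) = 1 := by
          rw [sub_eq_add_neg, AddChar.map_add_eq_mul, AddChar.map_neg_eq_inv]
          linear_combination -h0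
        have h4 := hψ _ h3
        apply hex j true
        have h5 : h * (u j : ZMod q) = 1 := by linear_combination -h4
        have h6 : h = h * (u j : ZMod q) * (((u j)⁻¹ : (ZMod q)ˣ) : ZMod q) := by
          rw [mul_assoc, Units.mul_inv, mul_one]
        rw [h6, h5]
        simp [ee]
    have h3 : Tendsto (fun r : ℝ => Dev ψ u h ((r : ℂ) * ψ 1)) (𝓝[<] 1)
        (𝓝 (Dev ψ u h (ψ 1))) := by
      have := (hDcont.tendsto 1).mono_left (nhdsWithin_le_nhds (s := Set.Iio 1))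
      simpa using this
    have h4 : Tendsto (fun r : ℝ => (1 - (r : ℂ))) (𝓝[<] 1) (𝓝 0) := by
      have hc : Continuous (fun r : ℝ => (1 - (r : ℂ))) := by fun_prop
      have := (hc.tendsto 1).mono_left (nhdsWithin_le_nhds (s := Set.Iio 1))
      simpa using this
    have := h4.div h3 hD1
    rw [zero_div] at this
    exact this

theorem tendsto_sum {q n : ℕ} [NeZero q] (ψ : AddChar (ZMod q) ℂ) (hψ : Faithful ψ)
    (u : Fin n → (ZMod q)ˣ) (h2 : (2 : ZMod q) ≠ 0)
    (hne : ∀ i j, i ≠ j → vv u i j ≠ 1 ∧ vv u i j ≠ -1) :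
    Tendsto (fun r : ℝ => ∑ h : ZMod q, (1 - (r : ℂ)) / Dev ψ u h (r * ψ 1)) (𝓝[<] 1)
      (𝓝 (2 * ∑ j, (Reg ψ u j (ψ 1))⁻¹)) := by
  classical
  have h := tendsto_finsetSum (Finset.univ : Finset (ZMod q))
    (fun h _ => tendsto_term ψ hψ u h2 hne h)
  have e : ∑ h : ZMod q, (∑ j, ∑ b : Bool, if h = ee u j b then (Reg ψ u j (ψ 1))⁻¹ else 0) =
      2 * ∑ j, (Reg ψ u j (ψ 1))⁻¹ := by
    rw [Finset.sum_comm, Finset.mul_sum]
    refine Finset.sum_congr rfl fun j _ => ?_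
    rw [Finset.sum_comm]
    simp only [Finset.sum_ite_eq', Finset.mem_univ, if_true]
    simp
  rw [e] at h
  exact h

theorem Reg_eq {q n : ℕ} (ψ : AddChar (ZMod q) ℂ) (u : Fin n → (ZMod q)ˣ) (j : Fin n) :
    Reg ψ u j (ψ 1) = (1 - ψ 1 * ψ 1) * (ψ 1 ^ (n - 1) *
      ∏ i ∈ Finset.univ.erase j, (ψ 1 + ψ (-1) - ψ (vv u i j) - ψ (-(vv u i j)))) := by
  rw [Reg]
  congr 1
  have : ψ 1 ^ (n - 1) = ∏ _i ∈ (Finset.univ : Finset (Fin n)).erase j, ψ 1 := by
    rw [Finset.prod_const, Finset.card_erase_of_mem (Finset.mem_univ j), Finset.card_univ,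
      Fintype.card_fin]
  rw [this, ← Finset.prod_mul_distrib]
  refine Finset.prod_congr rfl fun i _ => ?_
  have h1 : ψ 1 * ψ (-1) = 1 := by rw [← AddChar.map_add_eq_mul]; simp
  have h2 : ψ (vv u i j) * ψ (-(vv u i j)) = 1 := by rw [← AddChar.map_add_eq_mul]; simp
  linear_combination (ψ 1 * ψ 1) * h2 - h1

/-- The pole coefficients of isospectral lens spaces agree. -/
theorem pole_identity {q n : ℕ} [NeZero q] (s s' : Fin n → ℕ) (u u' : Fin n → (ZMod q)ˣ)
    (hu : ∀ j, (u j : ZMod q) = s j) (hu' : ∀ j, (u' j : ZMod q) = s' j)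
    (ψ : AddChar (ZMod q) ℂ) (hψ : Faithful ψ) (h2 : (2 : ZMod q) ≠ 0)
    (hne : ∀ i j, i ≠ j → vv u i j ≠ 1 ∧ vv u i j ≠ -1)
    (hne' : ∀ i j, i ≠ j → vv u' i j ≠ 1 ∧ vv u' i j ≠ -1)
    (hspec : ∀ k, cnt q s k = cnt q s' k) : Asum ψ u = Asum ψ u' := by
  classical
  have hser := series_eq s s' ψ hψ hspec
  -- polynomials
  have hG : ∀ (s : Fin n → ℕ) (h : ZMod q), (∏ j, gser (ψ (h * (s j : ZMod q)))) *
      ((∏ j, ((1 - Polynomial.C (ψ (h * (s j : ZMod q))) * Polynomial.X) *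
        (1 - Polynomial.C (ψ (h * (s j : ZMod q)))⁻¹ * Polynomial.X)) : Polynomial ℂ) :
        PowerSeries ℂ) = (((1 - Polynomial.X ^ 2) ^ n : Polynomial ℂ) : PowerSeries ℂ) := by
    intro s h
    have e1 : ((∏ j, ((1 - Polynomial.C (ψ (h * (s j : ZMod q))) * Polynomial.X) *
        (1 - Polynomial.C (ψ (h * (s j : ZMod q)))⁻¹ * Polynomial.X)) : Polynomial ℂ) :
        PowerSeries ℂ) = ∏ j, ((1 - PowerSeries.C (ψ (h * (s j : ZMod q))) * PowerSeries.X) *
        (1 - PowerSeries.C (ψ (h * (s j : ZMod q)))⁻¹ * PowerSeries.X)) := by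
      have := map_prod (Polynomial.coeToPowerSeries.ringHom (R := ℂ))
        (fun j => ((1 - Polynomial.C (ψ (h * (s j : ZMod q))) * Polynomial.X) *
        (1 - Polynomial.C (ψ (h * (s j : ZMod q)))⁻¹ * Polynomial.X))) Finset.univ
      refine Eq.trans this (Finset.prod_congr rfl fun j _ => ?_)
      simp only [Polynomial.coeToPowerSeries.ringHom_apply, Polynomial.coe_mul,
        Polynomial.coe_sub, Polynomial.coe_one, Polynomial.coe_C, Polynomial.coe_X]
    rw [e1, ← Finset.prod_mul_distrib,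
      Finset.prod_congr rfl (fun j _ => gser_mul _ (AddChar.val_isUnit ψ _).ne_zero)]
    simp
  have hev : ∀ (s : Fin n → ℕ) (u : Fin n → (ZMod q)ˣ) (_ : ∀ j, (u j : ZMod q) = s j)
      (h : ZMod q) (z : ℂ),
      (∏ j, ((1 - Polynomial.C (ψ (h * (s j : ZMod q))) * Polynomial.X) *
        (1 - Polynomial.C (ψ (h * (s j : ZMod q)))⁻¹ * Polynomial.X)) : Polynomial ℂ).eval z =
        Dev ψ u h z := by
    intro s u hu h z
    rw [Polynomial.eval_prod, Dev]
    refine Finset.prod_congr rfl fun j _ => ?_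
    rw [hu j]
    simp
  have hpt : ∀ r : ℝ, 0 ≤ r → r < 1 → ∑ h : ZMod q, (1 - (r : ℂ)) / Dev ψ u h (r * ψ 1) =
      ∑ h : ZMod q, (1 - (r : ℂ)) / Dev ψ u' h (r * ψ 1) := by
    intro r hr0 hr1
    have hz : ‖(r : ℂ) * ψ 1‖ < 1 := by
      rw [norm_mul, AddChar.norm_apply ψ, mul_one, Complex.norm_real, Real.norm_of_nonneg hr0]
      exact hr1
    have key := eval_identity _ _ _ _ _ (hG s) (hG s') hser (r * ψ 1) (by
      intro h; rw [hev s u hu]; exact Dev_ne ψ u h _ hz) (by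
      intro h; rw [hev s' u' hu']; exact Dev_ne ψ u' h _ hz)
    simp only [hev s u hu, hev s' u' hu'] at key
    have hU : (((1 - Polynomial.X ^ 2) ^ n : Polynomial ℂ)).eval ((r : ℂ) * ψ 1) ≠ 0 := by
      simp only [Polynomial.eval_pow, Polynomial.eval_sub, Polynomial.eval_one,
        Polynomial.eval_X]
      apply pow_ne_zero
      intro h0
      have h1 : ((r : ℂ) * ψ 1) ^ 2 = 1 := by linear_combination -h0
      have h3 : ‖((r : ℂ) * ψ 1) ^ 2‖ = 1 := by rw [h1, norm_one]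
      rw [norm_pow] at h3
      have h4 : ‖(r : ℂ) * ψ 1‖ ^ 2 < 1 := by
        have := norm_nonneg ((r : ℂ) * ψ 1)
        nlinarith
      linarith
    simp only [div_eq_mul_inv] at key ⊢
    rw [← Finset.mul_sum, ← Finset.mul_sum] at key
    rw [← Finset.mul_sum, ← Finset.mul_sum, mul_left_cancel₀ hU key]
  have hlim := tendsto_sum ψ hψ u h2 hne
  have hlim' := tendsto_sum ψ hψ u' h2 hne'
  have heq : (fun r : ℝ => ∑ h : ZMod q, (1 - (r : ℂ)) / Dev ψ u h (r * ψ 1)) =ᶠ[𝓝[<] 1]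
      (fun r : ℝ => ∑ h : ZMod q, (1 - (r : ℂ)) / Dev ψ u' h (r * ψ 1)) := by
    have h01 : Set.Ioo (0 : ℝ) 1 ∈ 𝓝[<] (1 : ℝ) := Ioo_mem_nhdsLT (by norm_num)
    filter_upwards [h01] with r hr
    exact hpt r hr.1.le hr.2
  have hfin := tendsto_nhds_unique (hlim.congr' heq) hlim'
  have h22 : (2 : ℂ) ≠ 0 := two_ne_zero
  have hfin2 := mul_left_cancel₀ h22 hfin
  have hψ1 : ψ 1 ≠ 0 := (AddChar.val_isUnit ψ _).ne_zero
  have hψ2 : 1 - ψ 1 * ψ 1 ≠ 0 := by
    intro h0
    have h3 : ψ (1 + 1) = 1 := by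
      rw [AddChar.map_add_eq_mul]; linear_combination -h0
    have := hψ _ h3
    apply h2
    rw [← this]; norm_num
  have hconv : ∀ u : Fin n → (ZMod q)ˣ, ∑ j, (Reg ψ u j (ψ 1))⁻¹ =
      ((1 - ψ 1 * ψ 1) * ψ 1 ^ (n - 1))⁻¹ * Asum ψ u := by
    intro u
    rw [Asum, Finset.mul_sum]
    refine Finset.sum_congr rfl fun j _ => ?_
    rw [Reg_eq, ← mul_assoc, mul_inv, Finset.prod_inv_distrib]
  rw [hconv u, hconv u'] at hfin2
  exact mul_left_cancel₀ (inv_ne_zero (mul_ne_zero hψ2 (pow_ne_zero _ hψ1))) hfin2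

end Pool.Agent.Helper477
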