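import Mathlib

set_option autoImplicit false

namespace Pool.Agent.Helper477
open Finset

/-- integer multiple of `2π` -/
def InZ (x : ℝ) : Prop := ∃ k : ℤ, x = 2 * Real.pi * k

theorem InZ.sub {x y : ℝ} (hx : InZ x) (hy : InZ y) : InZ (x - y) := by
  obtain ⟨k, hk⟩ := hx
  obtain ⟨l, hl⟩ := hy
  exact ⟨k - l, by rw [hk, hl]; push_cast; ring⟩

theorem cos_eq_iff_InZ (u v : ℝ) : Real.cos u = Real.cos v ↔ InZ (u + v) ∨ InZ (u - v) := by
  rw [Real.cos_eq_cos_iff]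
  constructor
  · rintro ⟨k, h | h⟩
    · right; exact ⟨-k, by rw [h]; push_cast; ring⟩
    · left; exact ⟨k, by rw [h]; ring⟩
  · rintro (⟨k, h⟩ | ⟨k, h⟩)
    · exact ⟨k, Or.inr (by linarith)⟩
    · exact ⟨-k, Or.inl (by push_cast; linarith)⟩

/-- two progressions which are not commensurable meet in at most one point -/
theorem subsingleton_inter (a b a' b' : ℝ) (ha : a ≠ 0)
    (h : ∀ m n : ℤ, (m : ℝ) * a = n * a' → m = 0 ∧ n = 0) :
    Set.Subsingleton {k : ℤ | InZ (a' * ((2 * Real.pi * k - b) / a) + b')} := by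
  intro k hk l hl
  simp only [Set.mem_ofPred_eq] at hk hl
  obtain ⟨n, hn⟩ := hk.sub hl
  have hpi : (2 * Real.pi) ≠ 0 := by positivity
  have e : a' * (k - l) = n * a := by
    have h1 : a' * ((2 * Real.pi * k - b) / a) + b' - (a' * ((2 * Real.pi * l - b) / a) + b')
        = 2 * Real.pi * (a' * (k - l) / a) := by
      field_simp
      ring
    rw [h1] at hn
    have h2 := mul_left_cancel₀ hpi hn
    rw [div_eq_iff ha] at h2
    exact h2
  have := h n (k - l) (by push_cast; linarith)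
  omega

variable {A A' : Type} [Fintype A] [Fintype A']

theorem one_direction (a b : A → ℝ) (a' b' : A' → ℝ)
    (h1 : ∀ σ, a σ ≠ 0) (h1' : ∀ σ, a' σ ≠ 0)
    (h2 : ∀ σ σ', σ ≠ σ' → ∀ m n : ℤ, (m : ℝ) * a σ = n * a σ' → m = 0 ∧ n = 0)
    (h2' : ∀ σ σ', σ ≠ σ' → ∀ m n : ℤ, (m : ℝ) * a' σ = n * a' σ' → m = 0 ∧ n = 0)
    (H : ∀ τ : ℝ, ∀ σ, InZ (a σ * τ + b σ) → (∀ σ', σ' ≠ σ → ¬ InZ (a σ' * τ + b σ')) →
      ∃ σ', InZ (a' σ' * τ + b' σ')) (σ : A) :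
    ∃ σ' : A', ∃ m : ℤ, m ≠ 0 ∧ a' σ' = m * a σ ∧ ∃ k : ℤ, b' σ' = m * b σ + 2 * Real.pi * k := by
  classical
  set t : ℤ → ℝ := fun k => (2 * Real.pi * k - b σ) / a σ with ht
  -- exceptional sets
  set F : Set ℤ := (⋃ σ' ∈ {σ' : A | σ' ≠ σ}, {k : ℤ | InZ (a σ' * t k + b σ')}) ∪
    (⋃ σ' ∈ {σ' : A' | ∀ m n : ℤ, (m : ℝ) * a σ = n * a' σ' → m = 0 ∧ n = 0},
      {k : ℤ | InZ (a' σ' * t k + b' σ')}) with hF
  have hFfin : F.Finite := by
    apply Set.Finite.union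
    · apply Set.Finite.biUnion (Set.toFinite _)
      intro σ' hσ'
      exact (subsingleton_inter (a σ) (b σ) (a σ') (b σ') (h1 σ)
        (h2 σ σ' (Ne.symm hσ'))).finite
    · apply Set.Finite.biUnion (Set.toFinite _)
      intro σ' hσ'
      exact (subsingleton_inter (a σ) (b σ) (a' σ') (b' σ') (h1 σ) hσ').finite
  obtain ⟨k, hk⟩ : ∃ k : ℤ, k ∉ F ∧ k + 1 ∉ F := by
    have hfin2 : (F ∪ (fun x : ℤ => x - 1) '' F).Finite := hFfin.union (hFfin.image _)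
    obtain ⟨k, hk⟩ := hfin2.exists_notMem
    refine ⟨k, fun h => hk (Or.inl h), fun h => hk (Or.inr ⟨k + 1, h, by ring⟩)⟩
  have hon : ∀ k : ℤ, InZ (a σ * t k + b σ) := by
    intro k
    refine ⟨k, ?_⟩
    simp only [ht]
    have := h1 σ
    field_simp
    ring
  have main : ∀ k : ℤ, k ∉ F → ∃ σ' : A', InZ (a' σ' * t k + b' σ') ∧
      ¬ (∀ m n : ℤ, (m : ℝ) * a σ = n * a' σ' → m = 0 ∧ n = 0) := by
    intro k hk
    obtain ⟨σ', hσ'⟩ := H (t k) σ (hon k) (by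
      intro σ' hne hin
      apply hk
      left
      simp only [Set.mem_iUnion]
      exact ⟨σ', hne, hin⟩)
    refine ⟨σ', hσ', ?_⟩
    intro hcom
    apply hk
    right
    simp only [Set.mem_iUnion]
    exact ⟨σ', hcom, hσ'⟩
  obtain ⟨s1, hs1, hc1⟩ := main k hk.1
  obtain ⟨s2, hs2, hc2⟩ := main (k + 1) hk.2
  have hs : s1 = s2 := by
    by_contra hne
    push Not at hc1 hc2
    obtain ⟨m1, n1, e1, f1⟩ := hc1
    obtain ⟨m2, n2, e2, f2⟩ := hc2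
    have hm1 : m1 ≠ 0 := by
      intro h0
      have hn := f1 h0
      rw [h0] at e1
      simp only [Int.cast_zero, zero_mul] at e1
      rcases mul_eq_zero.mp e1.symm with h | h
      · exact hn (by exact_mod_cast h)
      · exact h1' _ h
    have hn1 : n1 ≠ 0 := by
      intro h0
      rw [h0] at e1
      simp only [Int.cast_zero, zero_mul] at e1
      rcases mul_eq_zero.mp e1 with h | h
      · exact hm1 (by exact_mod_cast h)
      · exact h1 _ h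
    have hm2 : m2 ≠ 0 := by
      intro h0
      have hn := f2 h0
      rw [h0] at e2
      simp only [Int.cast_zero, zero_mul] at e2
      rcases mul_eq_zero.mp e2.symm with h | h
      · exact hn (by exact_mod_cast h)
      · exact h1' _ h
    have := h2' s1 s2 hne (m2 * n1) (m1 * n2) (by
      push_cast
      calc (m2 : ℝ) * n1 * a' s1 = m2 * (n1 * a' s1) := by ring
        _ = m2 * (m1 * a σ) := by rw [e1]
        _ = m1 * (m2 * a σ) := by ring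
        _ = m1 * (n2 * a' s2) := by rw [e2]
        _ = m1 * n2 * a' s2 := by ring)
    rcases mul_eq_zero.mp this.1 with h | h
    · exact hm2 h
    · exact hn1 h
  subst hs
  obtain ⟨n, hn⟩ := hs2.sub hs1
  have hpi : (2 * Real.pi) ≠ 0 := by positivity
  have ha : a' s1 = n * a σ := by
    have h1'' : a' s1 * t (k + 1) + b' s1 - (a' s1 * t k + b' s1)
        = 2 * Real.pi * (a' s1 / a σ) := by
      simp only [ht]
      have := h1 σ
      push_cast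
      field_simp
      ring
    rw [h1''] at hn
    have h3 := mul_left_cancel₀ hpi hn
    rwa [div_eq_iff (h1 σ)] at h3
  refine ⟨s1, n, ?_, ha, ?_⟩
  · rintro rfl
    exact h1' s1 (by rw [ha]; simp)
  · obtain ⟨l, hl⟩ := hs1
    obtain ⟨j, hj⟩ := hon k
    refine ⟨l - n * j, ?_⟩
    rw [ha] at hl
    push_cast
    linear_combination hl - n * hj

theorem both_directions (a b : A → ℝ) (a' b' : A' → ℝ)
    (h1 : ∀ σ, a σ ≠ 0) (h1' : ∀ σ, a' σ ≠ 0)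
    (h2 : ∀ σ σ', σ ≠ σ' → ∀ m n : ℤ, (m : ℝ) * a σ = n * a σ' → m = 0 ∧ n = 0)
    (h2' : ∀ σ σ', σ ≠ σ' → ∀ m n : ℤ, (m : ℝ) * a' σ = n * a' σ' → m = 0 ∧ n = 0)
    (H : ∀ τ : ℝ, ∀ σ, InZ (a σ * τ + b σ) → (∀ σ', σ' ≠ σ → ¬ InZ (a σ' * τ + b σ')) →
      ∃ σ', InZ (a' σ' * τ + b' σ'))
    (H' : ∀ τ : ℝ, ∀ σ, InZ (a' σ * τ + b' σ) → (∀ σ', σ' ≠ σ → ¬ InZ (a' σ' * τ + b' σ')) →
      ∃ σ', InZ (a σ' * τ + b σ')) (σ : A) :
    ∃ σ' : A', ∃ m : ℤ, (m = 1 ∨ m = -1) ∧ a' σ' = m * a σ ∧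
      ∃ k : ℤ, b' σ' = m * b σ + 2 * Real.pi * k := by
  obtain ⟨s, m, hm, ha, hb⟩ := one_direction a b a' b' h1 h1' h2 h2' H σ
  obtain ⟨s', m', hm', ha', hb'⟩ := one_direction a' b' a b h1' h1 h2' h2 H' s
  have e : a s' = (m' * m : ℤ) * a σ := by rw [ha', ha]; push_cast; ring
  have hs : s' = σ := by
    by_contra hne
    have := h2 s' σ hne 1 (m' * m) (by rw [Int.cast_one, one_mul]; exact e)
    omega
  subst hs
  have hmm : m' * m = 1 := by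
    have h3 : (1 : ℝ) * a s' = (m' * m : ℤ) * a s' := by rw [one_mul]; exact e
    have h4 := mul_right_cancel₀ (h1 s') h3
    exact_mod_cast h4.symm
  refine ⟨s, m, ?_, ha, hb⟩
  exact (Int.isUnit_iff.mp (IsUnit.of_mul_eq_one m' (by rw [mul_comm]; exact hmm)))

/-- sign attached to a boolean -/
def sg (b : Bool) : ℤ := if b then 1 else -1

theorem sg_cases (b : Bool) : sg b = 1 ∨ sg b = -1 := by cases b <;> simp [sg]

theorem sg_ne_zero (b : Bool) : sg b ≠ 0 := by cases b <;> simp [sg]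

theorem cos_eq_iff_sg (u v : ℝ) : Real.cos u = Real.cos v ↔ ∃ b : Bool, InZ (u + sg b * v) := by
  rw [cos_eq_iff_InZ]
  constructor
  · rintro (h | h)
    · exact ⟨true, by simpa [sg] using h⟩
    · exact ⟨false, by simpa [sg, sub_eq_add_neg] using h⟩
  · rintro ⟨b, h⟩
    cases b
    · right; simpa [sg, sub_eq_add_neg] using h
    · left; simpa [sg] using h

section match_section

variable {X : Type} [Fintype X] [DecidableEq X]

theorem indep_ne (ρ0 : ℝ) (ρ : X → ℝ)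
    (hI : ∀ (k0 : ℤ) (k : X → ℤ), (k0 : ℝ) * ρ0 + ∑ x, (k x : ℝ) * ρ x = 0 → k0 = 0 ∧ k = 0)
    (σ : X × Bool) : ρ0 + sg σ.2 * ρ σ.1 ≠ 0 := by
  intro h
  have := (hI 1 (Pi.single σ.1 (sg σ.2)) (by
    rw [Finset.sum_eq_single σ.1]
    · simpa using h
    · intro y _ hy; simp [Pi.single_eq_of_ne hy]
    · intro h; exact absurd (Finset.mem_univ _) h)).1
  exact one_ne_zero this

theorem sum_single_mul (x : X) (m : ℤ) (ρ : X → ℝ) :
    ∑ y, ((Pi.single x m : X → ℤ) y : ℝ) * ρ y = m * ρ x := by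
  rw [Finset.sum_eq_single x]
  · simp
  · intro y _ hy; simp [Pi.single_eq_of_ne hy]
  · intro h; exact absurd (Finset.mem_univ _) h

theorem indep_pair (ρ0 : ℝ) (ρ : X → ℝ)
    (hI : ∀ (k0 : ℤ) (k : X → ℤ), (k0 : ℝ) * ρ0 + ∑ x, (k x : ℝ) * ρ x = 0 → k0 = 0 ∧ k = 0)
    (σ σ' : X × Bool) (hne : σ ≠ σ') (m n : ℤ)
    (h : (m : ℝ) * (ρ0 + sg σ.2 * ρ σ.1) = n * (ρ0 + sg σ'.2 * ρ σ'.1)) : m = 0 ∧ n = 0 := by
  obtain ⟨x, b⟩ := σ
  obtain ⟨y, c⟩ := σ'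
  simp only at h
  have key := hI (m - n) (Pi.single x (m * sg b) - Pi.single y (n * sg c)) (by
    simp only [Pi.sub_apply, Int.cast_sub, sub_mul, Finset.sum_sub_distrib, sum_single_mul]
    push_cast
    linear_combination h)
  obtain ⟨k1, k2⟩ := key
  by_cases hxy : x = y
  · subst hxy
    have hbc : b ≠ c := by rintro rfl; exact hne rfl
    have h3 := congrFun k2 x
    simp only [Pi.sub_apply, Pi.single_eq_same, Pi.zero_apply] at h3
    have hsg : sg c = - sg b := by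
      cases b <;> cases c <;> simp_all [sg]
    rw [hsg] at h3
    have hb := sg_cases b
    rcases hb with hb | hb <;> rw [hb] at h3 <;> omega
  · have h3 := congrFun k2 x
    have h4 := congrFun k2 y
    simp only [Pi.sub_apply, Pi.single_eq_same, Pi.zero_apply, Pi.single_eq_of_ne hxy,
      Pi.single_eq_of_ne (Ne.symm hxy)] at h3 h4
    have hb := sg_cases b
    have hc := sg_cases c
    rcases hb with hb | hb <;> rcases hc with hc | hc <;> rw [hb] at h3 <;> rw [hc] at h4 <;>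
      omega

theorem cos_match (ρ0 α0 : ℝ) (ρ α ρ' α' : X → ℝ)
    (hI : ∀ (k0 : ℤ) (k : X → ℤ), (k0 : ℝ) * ρ0 + ∑ x, (k x : ℝ) * ρ x = 0 → k0 = 0 ∧ k = 0)
    (hI' : ∀ (k0 : ℤ) (k : X → ℤ), (k0 : ℝ) * ρ0 + ∑ x, (k x : ℝ) * ρ' x = 0 → k0 = 0 ∧ k = 0)
    (H : ∀ τ : ℝ, ∀ x, Real.cos (ρ0 * τ + α0) = Real.cos (ρ x * τ + α x) →
      (∀ y, y ≠ x → Real.cos (ρ0 * τ + α0) ≠ Real.cos (ρ y * τ + α y)) →
      ∃ x', Real.cos (ρ0 * τ + α0) = Real.cos (ρ' x' * τ + α' x'))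
    (H' : ∀ τ : ℝ, ∀ x, Real.cos (ρ0 * τ + α0) = Real.cos (ρ' x * τ + α' x) →
      (∀ y, y ≠ x → Real.cos (ρ0 * τ + α0) ≠ Real.cos (ρ' y * τ + α' y)) →
      ∃ x', Real.cos (ρ0 * τ + α0) = Real.cos (ρ x' * τ + α x')) (x : X) :
    ∃ x' : X, ∃ δ : ℤ, (δ = 1 ∨ δ = -1) ∧ ρ x = δ * ρ' x' ∧
      ∃ k : ℤ, α x = δ * α' x' + 2 * Real.pi * k := by
  have conv : ∀ (ρ α ρ' α' : X → ℝ) (_ : ∀ τ : ℝ, ∀ x,
      Real.cos (ρ0 * τ + α0) = Real.cos (ρ x * τ + α x) →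
      (∀ y, y ≠ x → Real.cos (ρ0 * τ + α0) ≠ Real.cos (ρ y * τ + α y)) →
      ∃ x', Real.cos (ρ0 * τ + α0) = Real.cos (ρ' x' * τ + α' x')) (τ : ℝ) (σ : X × Bool),
      InZ ((ρ0 + sg σ.2 * ρ σ.1) * τ + (α0 + sg σ.2 * α σ.1)) →
      (∀ σ' : X × Bool, σ' ≠ σ → ¬ InZ ((ρ0 + sg σ'.2 * ρ σ'.1) * τ + (α0 + sg σ'.2 * α σ'.1))) →
      ∃ σ' : X × Bool, InZ ((ρ0 + sg σ'.2 * ρ' σ'.1) * τ + (α0 + sg σ'.2 * α' σ'.1)) := by
    intro ρ α ρ' α' H τ σ h1 h2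
    have e : ∀ (ρ α : X → ℝ) (σ : X × Bool),
        (ρ0 + sg σ.2 * ρ σ.1) * τ + (α0 + sg σ.2 * α σ.1) =
        (ρ0 * τ + α0) + sg σ.2 * (ρ σ.1 * τ + α σ.1) := by intro ρ α σ; ring
    obtain ⟨x', hx'⟩ := H τ σ.1 ((cos_eq_iff_sg _ _).mpr ⟨σ.2, by rw [← e]; exact h1⟩) (by
      intro y hy hcos
      obtain ⟨b, hb⟩ := (cos_eq_iff_sg _ _).mp hcos
      refine h2 (y, b) (fun h => hy (congrArg Prod.fst h)) ?_
      rw [e]; exact hb)
    obtain ⟨b, hb⟩ := (cos_eq_iff_sg _ _).mp hx'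
    exact ⟨(x', b), by rw [e]; exact hb⟩
  have main := both_directions (A := X × Bool) (A' := X × Bool)
    (fun σ => ρ0 + sg σ.2 * ρ σ.1) (fun σ => α0 + sg σ.2 * α σ.1)
    (fun σ => ρ0 + sg σ.2 * ρ' σ.1) (fun σ => α0 + sg σ.2 * α' σ.1)
    (indep_ne ρ0 ρ hI) (indep_ne ρ0 ρ' hI')
    (fun σ σ' hne m n h => indep_pair ρ0 ρ hI σ σ' hne m n h)
    (fun σ σ' hne m n h => indep_pair ρ0 ρ' hI' σ σ' hne m n h)
    (conv ρ α ρ' α' H) (conv ρ' α' ρ α H')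
  obtain ⟨⟨x1, b1⟩, m1, hm1, ha1, k1, hk1⟩ := main (x, true)
  obtain ⟨⟨x2, b2⟩, m2, hm2, ha2, k2, hk2⟩ := main (x, false)
  simp only at ha1 hk1 ha2 hk2
  have hs1 : ((sg true : ℤ) : ℝ) = 1 := by simp [sg]
  have hs2 : ((sg false : ℤ) : ℝ) = -1 := by simp [sg]
  rw [hs1] at ha1 hk1
  rw [hs2] at ha2 hk2
  have hm1' : (m1 : ℝ) * m1 = 1 := by rcases hm1 with h | h <;> rw [h] <;> norm_num
  have hm2' : (m2 : ℝ) * m2 = 1 := by rcases hm2 with h | h <;> rw [h] <;> norm_num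
  have key := hI' (m1 + m2 - 2) (Pi.single x1 (m1 * sg b1) + Pi.single x2 (m2 * sg b2)) (by
    simp only [Pi.add_apply, Int.cast_add, add_mul, Finset.sum_add_distrib, sum_single_mul]
    push_cast
    linear_combination (m1 : ℝ) * ha1 + (m2 : ℝ) * ha2 + (ρ0 + ρ x) * hm1' + (ρ0 - ρ x) * hm2')
  obtain ⟨e1, e2⟩ := key
  have hm1eq : m1 = 1 := by rcases hm1 with h | h <;> rcases hm2 with h' | h' <;> omega
  refine ⟨x1, sg b1, sg_cases b1, ?_, ?_⟩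
  · rw [hm1eq] at ha1
    push_cast at ha1
    linarith
  · rw [hm1eq] at hk1
    push_cast at hk1
    exact ⟨-k1, by push_cast; linarith⟩

end match_section

end Pool.Agent.Helper477
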