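import Mathlib
import Pool.Agent.Helper477.Pole
import Pool.Agent.Helper477.Clear
import Pool.Agent.Helper477.Zeros

set_option autoImplicit false

namespace Pool.Agent.Helper477
open Finset

theorem faithful_std (a : ℕ) [NeZero a] : Faithful (ZMod.stdAddChar (N := a)) := by
  intro x hx
  apply ZMod.injective_stdAddChar
  rw [hx, AddChar.map_zero_eq_one]

/-- glued character -/
noncomputable def glue {q a p : ℕ} (ha : a ∣ q) (hp : p ∣ q) (ψa : AddChar (ZMod a) ℂ)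
    (ψp : AddChar (ZMod p) ℂ) (y : ZMod p) : AddChar (ZMod q) ℂ :=
  (ψa.compAddMonoidHom (ZMod.castHom ha (ZMod a)).toAddMonoidHom) *
    ((ψp.mulShift y).compAddMonoidHom (ZMod.castHom hp (ZMod p)).toAddMonoidHom)

theorem glue_apply {q a p : ℕ} (ha : a ∣ q) (hp : p ∣ q) (ψa : AddChar (ZMod a) ℂ)
    (ψp : AddChar (ZMod p) ℂ) (y : ZMod p) (x : ZMod q) :
    glue ha hp ψa ψp y x =
      ψa (ZMod.castHom ha (ZMod a) x) * ψp (y * ZMod.castHom hp (ZMod p) x) := rfl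

theorem eq_of_castHom {q a p : ℕ} (hq : q = a * p) (hcop : Nat.Coprime a p)
    (ha : a ∣ q) (hp : p ∣ q) (x y : ZMod q)
    (h1 : ZMod.castHom ha (ZMod a) x = ZMod.castHom ha (ZMod a) y)
    (h2 : ZMod.castHom hp (ZMod p) x = ZMod.castHom hp (ZMod p) y) : x = y := by
  subst hq
  apply (ZMod.chineseRemainder hcop).injective
  apply Prod.ext
  · have e := RingHom.congr_fun (Subsingleton.elim (ZMod.castHom ha (ZMod a))
      ((RingHom.fst _ _).comp (ZMod.chineseRemainder hcop).toRingHom))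
    have e1 := e x
    have e2 := e y
    rw [e1, e2] at h1
    exact h1
  · have e := RingHom.congr_fun (Subsingleton.elim (ZMod.castHom hp (ZMod p))
      ((RingHom.snd _ _).comp (ZMod.chineseRemainder hcop).toRingHom))
    have e1 := e x
    have e2 := e y
    rw [e1, e2] at h2
    exact h2

theorem glue_faithful {q a p : ℕ} [Fact p.Prime] (hq : q = a * p) (hcop : Nat.Coprime a p)
    (ha : a ∣ q) (hp : p ∣ q) (ψa : AddChar (ZMod a) ℂ) (hψa : Faithful ψa)
    (ψp : AddChar (ZMod p) ℂ) (hψp : Faithful ψp) (y : ZMod p) (hy : y ≠ 0) :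
    Faithful (glue ha hp ψa ψp y) := by
  intro x hx
  rw [glue_apply] at hx
  have h1 : ψa (p • ZMod.castHom ha (ZMod a) x) = 1 := by
    rw [AddChar.map_nsmul_eq_pow]
    have h2 : ψp (y * ZMod.castHom hp (ZMod p) x) ^ p = 1 := by
      rw [← AddChar.map_nsmul_eq_pow]
      simp
    have h3 : (ψa (ZMod.castHom ha (ZMod a) x) * ψp (y * ZMod.castHom hp (ZMod p) x)) ^ p = 1 := by
      rw [hx, one_pow]
    rw [mul_pow, h2, mul_one] at h3
    exact h3
  have h4 := hψa _ h1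
  rw [nsmul_eq_mul] at h4
  have hu : IsUnit ((p : ℕ) : ZMod a) := by
    rw [ZMod.isUnit_iff_coprime]
    exact hcop.symm
  have h5 : ZMod.castHom ha (ZMod a) x = 0 := (hu.mul_right_eq_zero).mp h4
  rw [h5, AddChar.map_zero_eq_one, one_mul] at hx
  have h6 := hψp _ hx
  have h7 := (mul_eq_zero.mp h6).resolve_left hy
  apply eq_of_castHom hq hcop ha hp
  · rw [h5, map_zero]
  · rw [h7, map_zero]

theorem castHom_vv {q p n : ℕ} [Fact p.Prime] (hp : p ∣ q) (u : Fin n → (ZMod q)ˣ)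
    (i j : Fin n) : ZMod.castHom hp (ZMod p) (vv u i j) =
      ZMod.castHom hp (ZMod p) (u i) * (ZMod.castHom hp (ZMod p) (u j))⁻¹ := by
  rw [vv, Units.val_mul, map_mul]
  congr 1
  apply eq_inv_of_mul_eq_one_left
  rw [← map_mul, Units.inv_mul, map_one]

/-- nonvanishing of the elementary factor -/
theorem factor_ne {q : ℕ} (ψ : AddChar (ZMod q) ℂ) (hψ : Faithful ψ) (v : ZMod q)
    (h1 : v ≠ 1) (h2 : v ≠ -1) : ψ 1 + ψ (-1) - ψ v - ψ (-v) ≠ 0 := by
  intro h0
  have e1 : ψ 1 * ψ (-1) = 1 := by rw [← AddChar.map_add_eq_mul]; simp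
  have e2 : ψ v * ψ (-v) = 1 := by rw [← AddChar.map_add_eq_mul]; simp
  have e3 : (1 - ψ (v - 1)) * (1 - ψ (v + 1)) = 0 := by
    rw [sub_eq_add_neg v 1, AddChar.map_add_eq_mul, AddChar.map_add_eq_mul]
    linear_combination (-ψ v) * h0 + (ψ v * ψ v) * e1 - e2
  rcases mul_eq_zero.mp e3 with h | h
  · have := hψ (v - 1) (by linear_combination -h)
    exact h1 (by linear_combination this)
  · have := hψ (v + 1) (by linear_combination -h)
    exact h2 (by linear_combination this)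

/-- angle of a character value -/
noncomputable def ang {a : ℕ} (ψ : AddChar (ZMod a) ℂ) (z : ZMod a) : ℝ := Complex.arg (ψ z)

theorem exp_ang {a : ℕ} [NeZero a] (ψ : AddChar (ZMod a) ℂ) (z : ZMod a) :
    Complex.exp (ang ψ z * Complex.I) = ψ z := by
  have h := Complex.norm_mul_exp_arg_mul_I (ψ z)
  rw [AddChar.norm_apply ψ] at h
  simpa [ang] using h

theorem exp_neg_ang {a : ℕ} [NeZero a] (ψ : AddChar (ZMod a) ℂ) (z : ZMod a) :
    Complex.exp (-(ang ψ z * Complex.I)) = ψ (-z) := by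
  rw [Complex.exp_neg, exp_ang, AddChar.map_neg_eq_inv]

theorem Fac_eq_cos {ι : Type} {a : ℕ} [NeZero a] (ψ : AddChar (ZMod a) ℂ) (z w : ZMod a)
    (i j : ι) (ρ : ι → ℝ) (τ : ℝ) :
    Fac (ψ z) (ψ (-z)) (ψ w) (ψ (-w)) i j (fun i => Complex.exp (((ρ i * τ : ℝ) : ℂ) * Complex.I)) =
      2 * ((Real.cos (ρ i * τ + ang ψ z) - Real.cos (ρ j * τ + ang ψ w) : ℝ) : ℂ) := by
  have key : ∀ (z : ZMod a) (i : ι), ψ z * Complex.exp (((ρ i * τ : ℝ) : ℂ) * Complex.I) ^ (1 : ℤ) +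
      ψ (-z) * Complex.exp (((ρ i * τ : ℝ) : ℂ) * Complex.I) ^ (-1 : ℤ) =
      2 * ((Real.cos (ρ i * τ + ang ψ z) : ℝ) : ℂ) := by
    intro z i
    rw [zpow_one, zpow_neg, zpow_one, ← Complex.exp_neg, ← exp_neg_ang, ← exp_ang,
      ← Complex.exp_add, ← Complex.exp_add, Complex.ofReal_cos, Complex.cos]
    push_cast
    rw [mul_div_cancel₀ _ (two_ne_zero)]
    congr 1
    · congr 1; ring
    · congr 1; ring
  rw [Fac, key z i, key w j]
  push_cast
  ring

theorem exists_zero {n : ℕ} (f f' : OD n → ℂ)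
    (hid : (∑ j, ∏ x ∈ Finset.univ.filter (fun x : OD n => x.1.2 ≠ j), f x) * ∏ x, f' x =
      (∑ j, ∏ x ∈ Finset.univ.filter (fun x : OD n => x.1.2 ≠ j), f' x) * ∏ x, f x)
    (x : OD n) (hx : f x = 0) (hne : ∀ y, y ≠ x → f y ≠ 0) : ∃ x', f' x' = 0 := by
  have h1 : ∏ x, f x = 0 := Finset.prod_eq_zero (Finset.mem_univ x) hx
  have h2 : (∑ j, ∏ y ∈ Finset.univ.filter (fun y : OD n => y.1.2 ≠ j), f y) =
      ∏ y ∈ Finset.univ.filter (fun y : OD n => y.1.2 ≠ x.1.2), f y := by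
    rw [Finset.sum_eq_single x.1.2]
    · intro j _ hj
      refine Finset.prod_eq_zero (i := x) ?_ hx
      rw [Finset.mem_filter]
      exact ⟨Finset.mem_univ _, hj.symm⟩
    · intro h; exact absurd (Finset.mem_univ _) h
  have h3 : ∏ y ∈ Finset.univ.filter (fun y : OD n => y.1.2 ≠ x.1.2), f y ≠ 0 := by
    rw [Finset.prod_ne_zero_iff]
    intro y hy
    rw [Finset.mem_filter] at hy
    exact hne y (fun h => hy.2 (by rw [h]))
  rw [h1, mul_zero, h2] at hid
  have h4 := (mul_eq_zero.mp hid).resolve_left h3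
  obtain ⟨x', _, hx'⟩ := Finset.prod_eq_zero_iff.mp h4
  exact ⟨x', hx'⟩

end Pool.Agent.Helper477
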