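import Mathlib

set_option autoImplicit false

namespace Pool.Agent.Helper477
open Finset

/-- multiset equality of two triples, written by counting -/
def TripleEq {n : ℕ} (a c f b d e : Fin n) : Prop :=
  ∀ m : Fin n, (if a = m then 1 else 0) + (if c = m then 1 else 0) + (if f = m then 1 else 0) =
    (if b = m then 1 else 0) + (if d = m then 1 else 0) + (if e = m then (1 : ℕ) else 0)

theorem triple_dichotomy {n : ℕ} (ai bi ak bk c d : Fin n) (hi : ai ≠ bi) (hk : ak ≠ bk)
    (hcd : c ≠ d) (h : TripleEq ai bk d bi ak c) : (ai = ak ∧ bi ≠ bk) ∨ (ai ≠ ak ∧ bi = bk) := by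
  by_cases h1 : ai = ak
  · left
    refine ⟨h1, ?_⟩
    intro h2
    subst h1 h2
    have := h c
    have hdc : d ≠ c := Ne.symm hcd
    simp only [hdc, if_false, if_true] at this
    omega
  · right
    refine ⟨h1, ?_⟩
    by_contra h2
    have e1 := h ai
    have e2 := h bk
    have e3 := h bi
    have h1' : ak ≠ ai := Ne.symm h1
    have h2' : bk ≠ bi := Ne.symm h2
    have hi' : bi ≠ ai := Ne.symm hi
    have hk' : bk ≠ ak := Ne.symm hk
    by_cases g1 : c = ai
    · subst g1
      by_cases g2 : bk = c
      · subst g2
        simp_all
        split_ifs at * <;> omega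
      · simp_all
        split_ifs at * <;> simp_all
    · simp_all

theorem comb_group {G : Type*} [CommGroup G] {n : ℕ} (x y : Fin n → G)
    (h1 : ∀ i j, i ≠ j → ∃ k l, k ≠ l ∧ x i / x j = y k / y l)
    (h2 : ∀ a c f b d e, y a * y c * y f = y b * y d * y e → TripleEq a c f b d e) :
    ∃ σ : Equiv.Perm (Fin n), ∃ t : G,
      (∀ j, x j = t * y (σ j)) ∨ (∀ j, x j = t * (y (σ j))⁻¹) := by
  classical
  rcases Nat.lt_or_ge n 2 with hn | hn
  · interval_cases n
    · exact ⟨1, 1, Or.inl (fun j => j.elim0)⟩
    · refine ⟨1, x 0 / y 0, Or.inl ?_⟩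
      intro j
      have : j = 0 := Subsingleton.elim _ _
      subst this
      simp
  · obtain ⟨n, rfl⟩ : ∃ m, n = m + 2 := ⟨n - 2, by omega⟩
    -- choose the pairs
    have hch : ∀ i : Fin (n + 2), ∃ k l, i ≠ 0 → (k ≠ l ∧ x i / x 0 = y k / y l) := by
      intro i
      by_cases hi : i = 0
      · exact ⟨0, 0, fun h => absurd hi h⟩
      · obtain ⟨k, l, h⟩ := h1 i 0 hi
        exact ⟨k, l, fun _ => h⟩
    choose a b hab using hch
    have dich : ∀ i k, i ≠ 0 → k ≠ 0 → i ≠ k → (a i = a k ∧ b i ≠ b k) ∨ (a i ≠ a k ∧ b i = b k) := by
      intro i k hi hk hik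
      obtain ⟨e1, e2⟩ := hab i hi
      obtain ⟨e3, e4⟩ := hab k hk
      obtain ⟨c, d, hcd, e5⟩ := h1 i k hik
      refine triple_dichotomy (a i) (b i) (a k) (b k) c d e1 e3 hcd (h2 _ _ _ _ _ _ ?_)
      have e6 : (y (a i) / y (b i)) / (y (a k) / y (b k)) = y c / y d := by
        rw [← e2, ← e4, ← e5]
        simp
      rw [div_div_div_eq, div_eq_div_iff_mul_eq_mul] at e6
      calc y (a i) * y (b k) * y d = y c * (y (b i) * y (a k)) := e6
        _ = y (b i) * y (a k) * y c := by rw [mul_comm]
    have h10 : (1 : Fin (n + 2)) ≠ 0 := by
      intro h; simp [Fin.ext_iff] at h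
    by_cases hb : ∀ k, k ≠ 0 → b k = b 1
    · -- all b equal
      let s : Fin (n + 2) → Fin (n + 2) := fun i => if i = 0 then b 1 else a i
      have hs : Function.Injective s := by
        intro i k hik
        by_contra hne
        simp only [s] at hik
        by_cases hi : i = 0
        · subst hi
          have hk : k ≠ 0 := fun h => hne h.symm
          simp only [if_true, hk, if_false] at hik
          exact (hab k hk).1 (by rw [← hik, hb k hk])
        · by_cases hk : k = 0
          · subst hk
            simp only [if_true, hi, if_false] at hik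
            exact (hab i hi).1 (by rw [hik, hb i hi])
          · simp only [hi, hk, if_false] at hik
            rcases dich i k hi hk hne with h | h
            · exact h.2 (by rw [hb i hi, hb k hk])
            · exact h.1 hik
      refine ⟨Equiv.ofBijective s (Finite.injective_iff_bijective.mp hs), x 0 / y (b 1), Or.inl ?_⟩
      intro j
      simp only [Equiv.ofBijective_apply, s]
      by_cases hj : j = 0
      · subst hj; simp
      · simp only [hj, if_false]
        have := (hab j hj).2
        rw [hb j hj, div_eq_iff_eq_mul] at this
        rw [this]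
        simp only [div_eq_mul_inv]
        rw [mul_comm (y (a j)), mul_comm ((y (b 1))⁻¹ * y (a j)), ← mul_assoc]
    · push Not at hb
      obtain ⟨k0, hk0, hbk0⟩ := hb
      have hk01 : k0 ≠ 1 := by rintro rfl; exact hbk0 rfl
      have hak0 : a k0 = a 1 := by
        rcases dich k0 1 hk0 h10 hk01 with h | h
        · exact h.1
        · exact absurd h.2 hbk0
      have ha : ∀ k, k ≠ 0 → a k = a 1 := by
        intro k hk
        by_cases hk1 : k = 1
        · rw [hk1]
        by_cases hkk0 : k = k0
        · rw [hkk0, hak0]
        by_contra hne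
        rcases dich k 1 hk h10 hk1 with h | h
        · exact hne h.1
        · rcases dich k k0 hk hk0 hkk0 with h' | h'
          · exact hne (by rw [h'.1, hak0])
          · exact hbk0 (by rw [← h'.2, h.2])
      let s : Fin (n + 2) → Fin (n + 2) := fun i => if i = 0 then a 1 else b i
      have hs : Function.Injective s := by
        intro i k hik
        by_contra hne
        simp only [s] at hik
        by_cases hi : i = 0
        · subst hi
          have hk : k ≠ 0 := fun h => hne h.symm
          simp only [if_true, hk, if_false] at hik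
          exact (hab k hk).1 (by rw [← hik, ha k hk])
        · by_cases hk : k = 0
          · subst hk
            simp only [if_true, hi, if_false] at hik
            exact (hab i hi).1 (by rw [hik, ha i hi])
          · simp only [hi, hk, if_false] at hik
            rcases dich i k hi hk hne with h | h
            · exact h.2 hik
            · exact h.1 (by rw [ha i hi, ha k hk])
      refine ⟨Equiv.ofBijective s (Finite.injective_iff_bijective.mp hs), x 0 * y (a 1), Or.inr ?_⟩
      intro j
      simp only [Equiv.ofBijective_apply, s]
      by_cases hj : j = 0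
      · subst hj; simp
      · simp only [hj, if_false]
        have := (hab j hj).2
        rw [ha j hj, div_eq_iff_eq_mul] at this
        rw [this]
        simp only [div_eq_mul_inv]
        rw [mul_comm (x 0) (y (a 1)), mul_assoc, mul_assoc, mul_comm (x 0)]

end Pool.Agent.Helper477
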