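import Mathlib

set_option autoImplicit false

namespace Pool.Agent.Helper477
open Finset

/-- arbitrarily large finite families of reals without integer relation -/
theorem exists_reals_indep (d : ℕ) : ∃ r : Fin d → ℝ, ∀ k : Fin d → ℤ,
    ∑ j, (k j : ℝ) * r j = 0 → k = 0 := by
  classical
  have hrank := Real.rank_rat_real
  let b := Module.Free.chooseBasis ℚ ℝ
  have hcard : Cardinal.mk (Module.Free.ChooseBasisIndex ℚ ℝ) = Cardinal.continuum := by
    rw [← Module.Free.rank_eq_card_chooseBasisIndex, hrank]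
  have hinf : Infinite (Module.Free.ChooseBasisIndex ℚ ℝ) := by
    rw [Cardinal.infinite_iff, hcard]
    exact Cardinal.aleph0_le_continuum
  let e : Fin d ↪ Module.Free.ChooseBasisIndex ℚ ℝ :=
    (Fin.valEmbedding).trans (Infinite.natEmbedding _)
  refine ⟨fun j => b (e j), ?_⟩
  intro k hk
  have hli : LinearIndependent ℚ (fun j => b (e j)) :=
    b.linearIndependent.comp e e.injective
  rw [Fintype.linearIndependent_iff] at hli
  have := hli (fun j => (k j : ℚ)) (by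
    rw [← hk]
    refine Finset.sum_congr rfl fun j _ => ?_
    rw [Rat.smul_def]
    push_cast
    rfl)
  funext j
  have h := this j
  exact_mod_cast h

variable {ι : Type} [Fintype ι]

theorem exists_real_embedding (Λ : Submodule ℤ (ι → ℤ)) :
    ∃ ρ : ι → ℝ, ∀ k : ι → ℤ, ∑ i, (k i : ℝ) * ρ i = 0 ↔ ∃ m : ℤ, m ≠ 0 ∧ m • k ∈ Λ := by
  classical
  let N := (ι → ℤ) ⧸ Λ
  let Q := N ⧸ Submodule.torsion ℤ N
  have : Module.IsTorsionFree ℤ Q := inferInstance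
  have : Module.Free ℤ Q := inferInstance
  let bas := Module.Free.chooseBasis ℤ Q
  let e := Fintype.equivFin (Module.Free.ChooseBasisIndex ℤ Q)
  obtain ⟨r, hr⟩ := exists_reals_indep (Fintype.card (Module.Free.ChooseBasisIndex ℤ Q))
  let φ : Q →ₗ[ℤ] ℝ := bas.constr ℤ (fun j => r (e j))
  have hφ : ∀ x : Q, φ x = 0 → x = 0 := by
    intro x hx
    have h1 : φ x = ∑ j, (bas.repr x j : ℝ) * r (e j) := by
      simp only [φ, Module.Basis.constr_apply_fintype, zsmul_eq_mul]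
      rfl
    rw [h1] at hx
    have h2 := hr (fun j => bas.repr x (e.symm j)) (by
      rw [← hx]
      rw [← Equiv.sum_comp e]
      simp)
    apply bas.repr.injective
    ext j
    have := congrFun h2 (e j)
    simpa using this
  let π : (ι → ℤ) →ₗ[ℤ] Q := (Submodule.mkQ _).comp (Submodule.mkQ Λ)
  refine ⟨fun i => φ (π (Pi.single i 1)), ?_⟩
  intro k
  have h3 : ∑ i, (k i : ℝ) * φ (π (Pi.single i 1)) = φ (π k) := by
    have : k = ∑ i, k i • (Pi.single i 1 : ι → ℤ) := by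
      funext j
      simp [Finset.sum_apply, Pi.single_apply]
    conv_rhs => rw [this]
    rw [map_sum, map_sum]
    refine Finset.sum_congr rfl fun i _ => ?_
    rw [map_smul, map_smul, zsmul_eq_mul]
  rw [h3]
  have h4 : φ (π k) = 0 ↔ π k = 0 := ⟨hφ _, fun h => by rw [h, map_zero]⟩
  rw [h4]
  have h5 : π k = 0 ↔ (Submodule.mkQ Λ k) ∈ Submodule.torsion ℤ N := by
    simp only [π, LinearMap.comp_apply]
    rw [Submodule.mkQ_apply, Submodule.Quotient.mk_eq_zero]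
  rw [h5, Submodule.mem_torsion_iff]
  constructor
  · rintro ⟨⟨m, hm⟩, hmk⟩
    refine ⟨m, nonZeroDivisors.ne_zero hm, ?_⟩
    have : Submodule.mkQ Λ (m • k) = 0 := by
      rw [map_smul]; exact hmk
    rwa [Submodule.mkQ_apply, Submodule.Quotient.mk_eq_zero] at this
  · rintro ⟨m, hm, hmk⟩
    refine ⟨⟨m, mem_nonZeroDivisors_of_ne_zero hm⟩, ?_⟩
    have : Submodule.mkQ Λ (m • k) = 0 := by
      rwa [Submodule.mkQ_apply, Submodule.Quotient.mk_eq_zero]
    rw [map_smul] at this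
    exact this

theorem relation_of_smul {p : ℕ} (hp : p.Prime) (v : ι → ZMod p) (Λ : Set (ι → ℤ))
    (hΛ : ∀ k ∈ Λ, ∑ i, (k i : ZMod p) * v i = 0) (k : ι → ℤ) (m : ℤ) (hm : m ≠ 0)
    (hmp : m.natAbs < p) (hk : m • k ∈ Submodule.span ℤ Λ) :
    ∑ i, (k i : ZMod p) * v i = 0 := by
  have := Fact.mk hp
  have key : ∀ x ∈ Submodule.span ℤ Λ, ∑ i, (x i : ZMod p) * v i = 0 := by
    intro x hx
    induction hx using Submodule.span_induction with
    | mem x h => exact hΛ x h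
    | zero => simp
    | add x y _ _ hx hy =>
      simp only [Pi.add_apply, Int.cast_add, add_mul, Finset.sum_add_distrib, hx, hy, add_zero]
    | smul a x _ hx =>
      simp only [Pi.smul_apply, smul_eq_mul, Int.cast_mul, mul_assoc, ← Finset.mul_sum, hx,
        mul_zero]
  have h := key _ hk
  simp only [Pi.smul_apply, smul_eq_mul, Int.cast_mul, mul_assoc, ← Finset.mul_sum] at h
  refine (mul_eq_zero.mp h).resolve_left ?_
  intro h0
  rw [ZMod.intCast_zmod_eq_zero_iff_dvd] at h0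
  have := Int.natAbs_dvd_natAbs.mpr h0
  simp only [Int.natAbs_natCast] at this
  have hle := Nat.le_of_dvd (Int.natAbs_pos.mpr hm) this
  omega

theorem rectify_aux (B : ℕ) (Λ : Finset (ι → ℤ)) : ∃ B' p0 : ℕ, ∀ p : ℕ, p.Prime → p0 ≤ p →
    ∀ v : ι → ZMod p,
    (∀ k : ι → ℤ, (∀ i, |k i| ≤ (B : ℤ)) → (k ∈ Λ ↔ ∑ i, (k i : ZMod p) * v i = 0)) →
    (∀ k ∈ Λ, ∑ i, (k i : ZMod p) * v i = 0) →
    ∃ ρ : ι → ℝ,
    (∀ k : ι → ℤ, (∀ i, |k i| ≤ (B : ℤ)) →
      (∑ i, (k i : ZMod p) * v i = 0 ↔ ∑ i, (k i : ℝ) * ρ i = 0)) ∧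
    (∀ J : Finset ι, (∀ k : ι → ℤ, (∀ i, |k i| ≤ (B' : ℤ)) → (∀ i ∉ J, k i = 0) →
        ∑ i, (k i : ZMod p) * v i = 0 → k = 0) →
      (∀ k : ι → ℤ, (∀ i ∉ J, k i = 0) → ∑ i, (k i : ℝ) * ρ i = 0 → k = 0)) := by
  classical
  obtain ⟨ρ, hρ⟩ := exists_real_embedding (Submodule.span ℤ (Λ : Set (ι → ℤ)))
  -- choose multipliers
  have hm : ∀ k : ι → ℤ, ∃ m : ℤ, ∑ i, (k i : ℝ) * ρ i = 0 →
      m ≠ 0 ∧ m • k ∈ Submodule.span ℤ (Λ : Set (ι → ℤ)) := by
    intro k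
    by_cases h : ∑ i, (k i : ℝ) * ρ i = 0
    · obtain ⟨m, hm⟩ := (hρ k).mp h
      exact ⟨m, fun _ => hm⟩
    · exact ⟨0, fun h' => absurd h' h⟩
  choose m hm using hm
  have hJ : ∀ J : Finset ι, ∃ kJ : ι → ℤ,
      (¬ (∀ k : ι → ℤ, (∀ i ∉ J, k i = 0) → ∑ i, (k i : ℝ) * ρ i = 0 → k = 0)) →
      (∀ i ∉ J, kJ i = 0) ∧ ∑ i, (kJ i : ℝ) * ρ i = 0 ∧ kJ ≠ 0 := by
    intro J
    by_cases h : (∀ k : ι → ℤ, (∀ i ∉ J, k i = 0) → ∑ i, (k i : ℝ) * ρ i = 0 → k = 0)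
    · exact ⟨0, fun h' => absurd h h'⟩
    · push Not at h
      obtain ⟨k, h1, h2, h3⟩ := h
      exact ⟨k, fun _ => ⟨h1, h2, h3⟩⟩
  choose kJ hkJ using hJ
  let box : Finset (ι → ℤ) := Fintype.piFinset (fun _ => Finset.Icc (-(B : ℤ)) (B : ℤ))
  let K : Finset (ι → ℤ) := box ∪ Finset.univ.image kJ
  refine ⟨∑ k ∈ K, ∑ i, (k i).natAbs, ∑ k ∈ K, (m k).natAbs + 1, ?_⟩
  intro p hp hp0 v hv1 hv2
  have hmK : ∀ k ∈ K, (m k).natAbs < p := by
    intro k hk
    have : (m k).natAbs ≤ ∑ k ∈ K, (m k).natAbs :=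
      Finset.single_le_sum (f := fun k => (m k).natAbs) (fun _ _ => Nat.zero_le _) hk
    omega
  have hkK : ∀ k ∈ K, ∀ i, |k i| ≤ ((∑ k ∈ K, ∑ i, (k i).natAbs : ℕ) : ℤ) := by
    intro k hk i
    have e1 : ∑ i, (k i).natAbs ≤ ∑ k ∈ K, ∑ i, (k i).natAbs :=
      Finset.single_le_sum (f := fun k : ι → ℤ => ∑ i, (k i).natAbs)
        (fun _ _ => Nat.zero_le _) hk
    have e2 : (k i).natAbs ≤ ∑ i, (k i).natAbs :=
      Finset.single_le_sum (f := fun i => (k i).natAbs) (fun _ _ => Nat.zero_le _)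
        (Finset.mem_univ i)
    rw [Int.abs_eq_natAbs]
    exact_mod_cast e2.trans e1
  refine ⟨ρ, ?_, ?_⟩
  · intro k hk
    constructor
    · intro h
      have : k ∈ Λ := (hv1 k hk).mpr h
      rw [hρ]
      exact ⟨1, one_ne_zero, by rw [one_smul]; exact Submodule.subset_span this⟩
    · intro h
      have hkK : k ∈ K := by
        apply Finset.mem_union_left
        rw [Fintype.mem_piFinset]
        intro i
        rw [Finset.mem_Icc]
        exact abs_le.mp (hk i)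
      exact relation_of_smul hp v _ hv2 k (m k) (hm k h).1 (hmK k hkK) (hm k h).2
  · intro J hJgen
    by_contra hcon
    obtain ⟨h1, h2, h3⟩ := hkJ J hcon
    have hmem : kJ J ∈ K := Finset.mem_union_right _ (Finset.mem_image_of_mem _ (Finset.mem_univ _))
    exact h3 (hJgen (kJ J) (hkK _ hmem) h1
      (relation_of_smul hp v _ hv2 (kJ J) (m (kJ J)) (hm _ h2).1 (hmK _ hmem) (hm _ h2).2))

/-- Rectification: short relations among residues mod a large prime are modelled by reals. -/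
theorem rectify (B : ℕ) : ∃ B' p0 : ℕ, ∀ p : ℕ, p.Prime → p0 ≤ p → ∀ v : ι → ZMod p,
    ∃ ρ : ι → ℝ,
    (∀ k : ι → ℤ, (∀ i, |k i| ≤ (B : ℤ)) →
      (∑ i, (k i : ZMod p) * v i = 0 ↔ ∑ i, (k i : ℝ) * ρ i = 0)) ∧
    (∀ J : Finset ι, (∀ k : ι → ℤ, (∀ i, |k i| ≤ (B' : ℤ)) → (∀ i ∉ J, k i = 0) →
        ∑ i, (k i : ZMod p) * v i = 0 → k = 0) →
      (∀ k : ι → ℤ, (∀ i ∉ J, k i = 0) → ∑ i, (k i : ℝ) * ρ i = 0 → k = 0)) := by
  classical
  choose B' p0 h using rectify_aux (ι := ι) B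
  let box : Finset (ι → ℤ) := Fintype.piFinset (fun _ => Finset.Icc (-(B : ℤ)) (B : ℤ))
  refine ⟨∑ Λ ∈ box.powerset, B' Λ, ∑ Λ ∈ box.powerset, p0 Λ, ?_⟩
  intro p hp hp0 v
  let Λ : Finset (ι → ℤ) := box.filter (fun k => ∑ i, (k i : ZMod p) * v i = 0)
  have hΛ : Λ ∈ box.powerset := Finset.mem_powerset.mpr (Finset.filter_subset _ _)
  have e1 : p0 Λ ≤ ∑ Λ ∈ box.powerset, p0 Λ :=
    Finset.single_le_sum (f := p0) (fun _ _ => Nat.zero_le _) hΛ
  have e2 : B' Λ ≤ ∑ Λ ∈ box.powerset, B' Λ :=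
    Finset.single_le_sum (f := B') (fun _ _ => Nat.zero_le _) hΛ
  obtain ⟨ρ, h1, h2⟩ := h Λ p hp (e1.trans hp0) v (by
    intro k hk
    simp only [Λ, Finset.mem_filter, box, Fintype.mem_piFinset, Finset.mem_Icc]
    constructor
    · exact fun h => h.2
    · exact fun h => ⟨fun i => abs_le.mp (hk i), h⟩) (by
    intro k hk
    exact (Finset.mem_filter.mp hk).2)
  refine ⟨ρ, h1, fun J hJ => h2 J ?_⟩
  intro k hk
  exact hJ k (fun i => (hk i).trans (by exact_mod_cast e2))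

end Pool.Agent.Helper477
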