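import Mathlib
import Pool.Agent.Helper477.Chars
import Pool.Agent.Helper477.Rectify
import Pool.Agent.Helper477.Comb

set_option autoImplicit false

namespace Pool.Agent.Helper477
open Finset

/-- no short additive relation between the ratios -/
def Gen1 {n : ℕ} (B : ℕ) {p : ℕ} (w : Fin n → ZMod p) : Prop :=
  ∀ (k0 : ℤ) (k : OD n → ℤ), |k0| ≤ (B : ℤ) → (∀ x, |k x| ≤ (B : ℤ)) →
    (k0 : ZMod p) + ∑ x, (k x : ZMod p) * (w x.1.1 * (w x.1.2)⁻¹) = 0 → k0 = 0 ∧ k = 0

/-- no multiplicative coincidence -/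
def Gen2 {n p : ℕ} (w : Fin n → ZMod p) : Prop :=
  ∀ a c f b d e, (w a * w c * w f = w b * w d * w e ∨ w a * w c * w f = -(w b * w d * w e)) →
    TripleEq a c f b d e

theorem Gen1.mono {n : ℕ} {B B' p : ℕ} {w : Fin n → ZMod p} (h : Gen1 B w) (hB : B' ≤ B) :
    Gen1 B' w := by
  intro k0 k h1 h2 h3
  have hB' : (B' : ℤ) ≤ B := by exact_mod_cast hB
  exact h k0 k (h1.trans hB') (fun x => (h2 x).trans hB') h3

theorem Gen1.ratio_ne {n : ℕ} {B p : ℕ} {w : Fin n → ZMod p} (h : Gen1 B w) (hB : 1 ≤ B)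
    (i j : Fin n) (hij : i ≠ j) : w i * (w j)⁻¹ ≠ 1 ∧ w i * (w j)⁻¹ ≠ -1 := by
  classical
  have hB' : (1 : ℤ) ≤ B := by exact_mod_cast hB
  have key : ∀ ε : ℤ, |ε| ≤ 1 → w i * (w j)⁻¹ ≠ (-ε : ℤ) := by
    intro ε hε hw
    have h1 := h ε (Pi.single (⟨(i, j), hij⟩ : OD n) 1) (hε.trans hB') (by
      intro x
      by_cases hx : x = ⟨(i, j), hij⟩
      · subst hx; simpa using hB'
      · simp [Pi.single_eq_of_ne hx]) (by
      rw [Finset.sum_eq_single (⟨(i, j), hij⟩ : OD n)]
      · simp [hw]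
      · intro y _ hy; simp [Pi.single_eq_of_ne hy]
      · intro h; exact absurd (Finset.mem_univ _) h)
    have h2 := congrFun h1.2 (⟨(i, j), hij⟩ : OD n)
    simp at h2
  constructor
  · have := key (-1) (by norm_num); simpa using this
  · have := key 1 (by norm_num); simpa using this

section

variable {n : ℕ}

/-- the frequency vector -/
noncomputable def freq {p : ℕ} (w w' : Fin n → ZMod p) : Option (OD n ⊕ OD n) → ZMod p
  | none => 1
  | some (Sum.inl x) => w x.1.1 * (w x.1.2)⁻¹
  | some (Sum.inr x) => w' x.1.1 * (w' x.1.2)⁻¹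

theorem sum_option_sum {M : Type*} [AddCommMonoid M] (f : Option (OD n ⊕ OD n) → M) :
    ∑ i, f i = f none + (∑ x, f (some (Sum.inl x)) + ∑ x, f (some (Sum.inr x))) := by
  rw [Fintype.sum_option, Fintype.sum_sum_type]

/-- Matching of the ratios, up to sign. -/
theorem ratio_match (n : ℕ) : ∃ B' p0 : ℕ, 1 ≤ B' ∧ 4 < p0 ∧ ∀ p : ℕ, p.Prime → p0 ≤ p →
    ∀ q a : ℕ, 0 < a → q = a * p → Nat.Coprime a p → ∀ (hpq : p ∣ q)
    (s s' : Fin n → ℕ) (u u' : Fin n → (ZMod q)ˣ),
    (∀ j, (u j : ZMod q) = s j) → (∀ j, (u' j : ZMod q) = s' j) →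
    Gen1 B' (fun j => ZMod.castHom hpq (ZMod p) (u j)) →
    Gen1 B' (fun j => ZMod.castHom hpq (ZMod p) (u' j)) →
    (∀ k, cnt q s k = cnt q s' k) →
    ∀ x : OD n, ∃ x' : OD n, vv u x.1.1 x.1.2 = vv u' x'.1.1 x'.1.2 ∨
      vv u x.1.1 x.1.2 = -(vv u' x'.1.1 x'.1.2) := by
  classical
  set N := Fintype.card (OD n) with hN
  obtain ⟨B1, p1, hrect⟩ := rectify (ι := Option (OD n ⊕ OD n)) (4 * N + 1)
  refine ⟨B1 + 1, p1 + (2 * (n * 4 ^ N * 4 ^ N)) + 5, by omega, by omega, ?_⟩
  intro p hp hp0 q a ha hq hcop hpq s s' u u' hu hu' hg hg' hspec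
  have hfact := Fact.mk hp
  have haq : a ∣ q := ⟨p, hq⟩
  have hq0 : q ≠ 0 := by rw [hq]; exact Nat.mul_ne_zero ha.ne' hp.ne_zero
  have : NeZero q := ⟨hq0⟩
  have : NeZero a := ⟨ha.ne'⟩
  set w : Fin n → ZMod p := fun j => ZMod.castHom hpq (ZMod p) (u j) with hw
  set w' : Fin n → ZMod p := fun j => ZMod.castHom hpq (ZMod p) (u' j) with hw'
  set ψa : AddChar (ZMod a) ℂ := ZMod.stdAddChar with hψa
  set ψp : AddChar (ZMod p) ℂ := ZMod.stdAddChar with hψp
  have fa : Faithful ψa := faithful_std a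
  have fp : Faithful ψp := faithful_std p
  have h2q : (2 : ZMod q) ≠ 0 := by
    intro h0
    have : ((2 : ℕ) : ZMod q) = 0 := by exact_mod_cast h0
    rw [ZMod.natCast_eq_zero_iff] at this
    have h3 := Nat.le_of_dvd (by norm_num) this
    have h4 : p ≤ q := Nat.le_of_dvd (Nat.pos_of_ne_zero hq0) hpq
    omega
  -- ratios are not ±1
  have hne : ∀ (u : Fin n → (ZMod q)ˣ)
      (_ : Gen1 (B1 + 1) (fun j => ZMod.castHom hpq (ZMod p) (u j))) (i j : Fin n), i ≠ j →
      vv u i j ≠ 1 ∧ vv u i j ≠ -1 := by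
    intro u hg i j hij
    have h := hg.ratio_ne (by omega) i j hij
    constructor
    · intro h0
      apply h.1
      have := congrArg (ZMod.castHom hpq (ZMod p)) h0
      rw [castHom_vv, map_one] at this
      exact this
    · intro h0
      apply h.2
      have := congrArg (ZMod.castHom hpq (ZMod p)) h0
      rw [castHom_vv, map_neg, map_one] at this
      exact this
  -- frequencies
  set v := freq w w' with hv
  let va : (Fin n → (ZMod q)ˣ) → OD n → ZMod a :=
    fun u x => ZMod.castHom haq (ZMod a) (vv u x.1.1 x.1.2)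
  let F : OD n → (Option (OD n ⊕ OD n) → ℂ) → ℂ := fun x =>
    Fac (ψa 1) (ψa (-1)) (ψa (va u x)) (ψa (-(va u x))) none (some (Sum.inl x))
  let F' : OD n → (Option (OD n ⊕ OD n) → ℂ) → ℂ := fun x =>
    Fac (ψa 1) (ψa (-1)) (ψa (va u' x)) (ψa (-(va u' x))) none (some (Sum.inr x))
  let Φ : (Option (OD n ⊕ OD n) → ℂ) → ℂ := fun T =>
    (∑ j, ∏ x ∈ Finset.univ.filter (fun x : OD n => x.1.2 ≠ j), F x T) * ∏ x, F' x T -
    (∑ j, ∏ x ∈ Finset.univ.filter (fun x : OD n => x.1.2 ≠ j), F' x T) * ∏ x, F x T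
  have hF : ∀ x, Rep 4 1 (F x) := fun x => Rep_Fac _ _ _ _ _ _
  have hF' : ∀ x, Rep 4 1 (F' x) := fun x => Rep_Fac _ _ _ _ _ _
  have hΦ : Rep (2 * (n * 4 ^ N * 4 ^ N)) (2 * N) Φ := by
    have h1 := (Rep_sum_prod F hF (fun (j : Fin n) (x : OD n) => x.1.2 ≠ j)).mul
      (Rep_prod_all F' hF')
    have h2 := (Rep_sum_prod F' hF' (fun (j : Fin n) (x : OD n) => x.1.2 ≠ j)).mul
      (Rep_prod_all F hF)
    exact (h1.sub h2).mono (by rw [← hN]; omega) (by rw [← hN]; omega)
  -- vanishing at the characters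
  have hvan : ∀ y : ZMod p, y ≠ 0 → Φ (fun i => ψp (y * v i)) = 0 := by
    intro y hy
    set Ψ := glue haq hpq ψa ψp y with hΨ
    have fΨ : Faithful Ψ := glue_faithful hq hcop haq hpq ψa fa ψp fp y hy
    have hpole := pole_identity s s' u u' hu hu' Ψ fΨ h2q (hne u hg) (hne u' hg') hspec
    have e1 : ∀ (u : Fin n → (ZMod q)ˣ) (g : OD n → ZMod p)
        (_ : ∀ x : OD n, g x = ZMod.castHom hpq (ZMod p) (vv u x.1.1 x.1.2)) (x : OD n)
        (i : Option (OD n ⊕ OD n)) (_ : v i = g x),
        Fac (ψa 1) (ψa (-1)) (ψa (va u x)) (ψa (-(va u x))) none i (fun i => ψp (y * v i)) =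
        Ψ 1 + Ψ (-1) - Ψ (vv u x.1.1 x.1.2) - Ψ (-(vv u x.1.1 x.1.2)) := by
      intro u g hg x i hi
      have hnone : v none = 1 := rfl
      simp only [Fac, hi, hnone, hΨ, glue_apply, map_one, map_neg, mul_one, zpow_one, hg,
        zpow_neg, mul_neg, va]
      rw [← AddChar.map_neg_eq_inv, ← AddChar.map_neg_eq_inv]
      ring
    have e2 : ∀ x, F x (fun i => ψp (y * v i)) =
        Ψ 1 + Ψ (-1) - Ψ (vv u x.1.1 x.1.2) - Ψ (-(vv u x.1.1 x.1.2)) := by
      intro x
      exact e1 u (fun x => w x.1.1 * (w x.1.2)⁻¹) (fun x => (castHom_vv hpq u _ _).symm) x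
        (some (Sum.inl x)) rfl
    have e3 : ∀ x, F' x (fun i => ψp (y * v i)) =
        Ψ 1 + Ψ (-1) - Ψ (vv u' x.1.1 x.1.2) - Ψ (-(vv u' x.1.1 x.1.2)) := by
      intro x
      exact e1 u' (fun x => w' x.1.1 * (w' x.1.2)⁻¹) (fun x => (castHom_vv hpq u' _ _).symm) x
        (some (Sum.inr x)) rfl
    have c1 := cleared (fun i j => Ψ 1 + Ψ (-1) - Ψ (vv u i j) - Ψ (-(vv u i j)))
      (fun i j hij => factor_ne Ψ fΨ _ (hne u hg i j hij).1 (hne u hg i j hij).2)
    have c2 := cleared (fun i j => Ψ 1 + Ψ (-1) - Ψ (vv u' i j) - Ψ (-(vv u' i j)))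
      (fun i j hij => factor_ne Ψ fΨ _ (hne u' hg' i j hij).1 (hne u' hg' i j hij).2)
    simp only [Φ, e2, e3]
    rw [← c1, ← c2]
    rw [Asum, Asum] at hpole
    rw [hpole]
    ring
  -- real exponents
  obtain ⟨ρ, hρ1, hρ2⟩ := hrect p hp (by omega) v
  have hI : ∀ (k0 : ℤ) (k : OD n → ℤ),
      (k0 : ℝ) * ρ none + ∑ x, (k x : ℝ) * ρ (some (Sum.inl x)) = 0 → k0 = 0 ∧ k = 0 := by
    intro k0 k hk
    have h := hρ2 (Finset.univ.filter (fun i : Option (OD n ⊕ OD n) =>
      ∀ x, i ≠ some (Sum.inr x))) (by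
      intro kk hb hsupp hrel
      have hz : ∀ x, kk (some (Sum.inr x)) = 0 := by
        intro x
        apply hsupp
        intro hmem
        exact (Finset.mem_filter.mp hmem).2 x rfl
      rw [sum_option_sum] at hrel
      have h1 := hg (kk none) (fun x => kk (some (Sum.inl x)))
        ((hb none).trans (by push_cast; omega))
        (fun x => (hb _).trans (by push_cast; omega)) (by
        simp only [hz, Int.cast_zero, zero_mul, Finset.sum_const_zero, add_zero] at hrel
        simpa [hv, freq] using hrel)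
      funext i
      rcases i with _ | x | x
      · exact h1.1
      · exact congrFun h1.2 x
      · exact hz x) (fun i => match i with
        | none => k0
        | some (Sum.inl x) => k x
        | some (Sum.inr _) => 0) (by
      intro i hi
      rcases i with _ | x | x
      · simp at hi
      · simp at hi
      · rfl) (by
      rw [sum_option_sum]
      simpa using hk)
    exact ⟨congrFun h none, by funext x; exact congrFun h (some (Sum.inl x))⟩
  have hI' : ∀ (k0 : ℤ) (k : OD n → ℤ),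
      (k0 : ℝ) * ρ none + ∑ x, (k x : ℝ) * ρ (some (Sum.inr x)) = 0 → k0 = 0 ∧ k = 0 := by
    intro k0 k hk
    have h := hρ2 (Finset.univ.filter (fun i : Option (OD n ⊕ OD n) =>
      ∀ x, i ≠ some (Sum.inl x))) (by
      intro kk hb hsupp hrel
      have hz : ∀ x, kk (some (Sum.inl x)) = 0 := by
        intro x
        apply hsupp
        intro hmem
        exact (Finset.mem_filter.mp hmem).2 x rfl
      rw [sum_option_sum] at hrel
      have h1 := hg' (kk none) (fun x => kk (some (Sum.inr x)))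
        ((hb none).trans (by push_cast; omega))
        (fun x => (hb _).trans (by push_cast; omega)) (by
        simp only [hz, Int.cast_zero, zero_mul, Finset.sum_const_zero, zero_add] at hrel
        simpa [hv, freq] using hrel)
      funext i
      rcases i with _ | x | x
      · exact h1.1
      · exact hz x
      · exact congrFun h1.2 x) (fun i => match i with
        | none => k0
        | some (Sum.inl _) => 0
        | some (Sum.inr x) => k x) (by
      intro i hi
      rcases i with _ | x | x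
      · simp at hi
      · rfl
      · simp at hi) (by
      rw [sum_option_sum]
      simpa using hk)
    exact ⟨congrFun h none, by funext x; exact congrFun h (some (Sum.inr x))⟩
  -- identity on the real line
  have hreal : ∀ τ : ℝ, Φ (fun i => Complex.exp (((ρ i * τ : ℝ) : ℂ) * Complex.I)) = 0 := by
    intro τ
    refine hΦ.transfer (by omega) ψp fp.isPrimitive v hvan _ (fun i => Complex.exp_ne_zero _) ?_
    intro k hk hrel
    have h1 := (hρ1 k (fun i => (hk i).trans (by push_cast; omega))).mp hrel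
    have h2 : ∀ i, Complex.exp (((ρ i * τ : ℝ) : ℂ) * Complex.I) ^ (k i) =
        Complex.exp ((k i : ℂ) * (((ρ i * τ : ℝ) : ℂ) * Complex.I)) := by
      intro i
      rw [← Complex.exp_int_mul]
    rw [Finset.prod_congr rfl (fun i _ => h2 i), ← Complex.exp_sum]
    have h3 : ∑ i, (k i : ℂ) * (((ρ i * τ : ℝ) : ℂ) * Complex.I) =
        ((∑ i, (k i : ℝ) * ρ i : ℝ) : ℂ) * (τ * Complex.I) := by
      push_cast
      rw [Finset.sum_mul]
      refine Finset.sum_congr rfl fun i _ => ?_
      ring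
    rw [h3, h1]
    simp
  have hcosF : ∀ (τ : ℝ) (x : OD n),
      F x (fun i => Complex.exp (((ρ i * τ : ℝ) : ℂ) * Complex.I)) =
      2 * ((Real.cos (ρ none * τ + ang ψa 1) -
        Real.cos (ρ (some (Sum.inl x)) * τ + ang ψa (va u x)) : ℝ) : ℂ) := by
    intro τ x
    exact Fac_eq_cos ψa 1 (va u x) none (some (Sum.inl x)) ρ τ
  have hcosF' : ∀ (τ : ℝ) (x : OD n),
      F' x (fun i => Complex.exp (((ρ i * τ : ℝ) : ℂ) * Complex.I)) =
      2 * ((Real.cos (ρ none * τ + ang ψa 1) -
        Real.cos (ρ (some (Sum.inr x)) * τ + ang ψa (va u' x)) : ℝ) : ℂ) := by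
    intro τ x
    exact Fac_eq_cos ψa 1 (va u' x) none (some (Sum.inr x)) ρ τ
  have hzero : ∀ c d : ℝ, 2 * ((c - d : ℝ) : ℂ) = 0 ↔ c = d := by
    intro c d
    rw [mul_eq_zero]
    constructor
    · rintro (h | h)
      · exact absurd h two_ne_zero
      · have : c - d = 0 := by exact_mod_cast h
        linarith
    · intro h
      right
      rw [h, sub_self, Complex.ofReal_zero]
  intro x
  obtain ⟨x', δ, hδ, hρx, m, hm⟩ := cos_match (ρ none) (ang ψa 1)
    (fun x => ρ (some (Sum.inl x))) (fun x => ang ψa (va u x))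
    (fun x => ρ (some (Sum.inr x))) (fun x => ang ψa (va u' x)) hI hI' (by
      intro τ x hx hney
      have hid := hreal τ
      have := exists_zero (fun x => F x (fun i => Complex.exp (((ρ i * τ : ℝ) : ℂ) * Complex.I)))
        (fun x => F' x (fun i => Complex.exp (((ρ i * τ : ℝ) : ℂ) * Complex.I)))
        (by exact sub_eq_zero.mp hid) x
        (by rw [hcosF, hzero]; exact hx)
        (by intro y hy; rw [hcosF, Ne, hzero]; exact hney y hy)
      obtain ⟨x', hx'⟩ := this
      rw [hcosF', hzero] at hx'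
      exact ⟨x', hx'⟩) (by
      intro τ x hx hney
      have hid := hreal τ
      have := exists_zero (fun x => F' x (fun i => Complex.exp (((ρ i * τ : ℝ) : ℂ) * Complex.I)))
        (fun x => F x (fun i => Complex.exp (((ρ i * τ : ℝ) : ℂ) * Complex.I)))
        (by exact (sub_eq_zero.mp hid).symm) x
        (by rw [hcosF', hzero]; exact hx)
        (by intro y hy; rw [hcosF', Ne, hzero]; exact hney y hy)
      obtain ⟨x', hx'⟩ := this
      rw [hcosF, hzero] at hx'
      exact ⟨x', hx'⟩) x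
  refine ⟨x', ?_⟩
  -- relation modulo `p`
  have hp1 : v (some (Sum.inl x)) = (δ : ZMod p) * v (some (Sum.inr x')) := by
    have h := (hρ1 (fun i => if i = some (Sum.inl x) then 1 else
      if i = some (Sum.inr x') then -δ else 0) (by
        intro i
        rcases hδ with h | h <;> subst h <;> split_ifs <;> simp <;> omega)).mpr (by
        rw [sum_option_sum]
        simp only [reduceCtorEq, if_false, Option.some.injEq, Sum.inl.injEq, Sum.inr.injEq]
        simp only [Int.cast_ite, ite_mul, Finset.sum_ite_eq', Finset.mem_univ,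
          if_true, Int.cast_zero, zero_mul, Int.cast_one, one_mul]
        rw [hρx]
        push_cast
        ring)
    rw [sum_option_sum] at h
    simp only [reduceCtorEq, if_false, Option.some.injEq, Sum.inl.injEq, Sum.inr.injEq] at h
    simp only [Int.cast_ite, ite_mul, Finset.sum_ite_eq', Finset.mem_univ,
      if_true, Int.cast_zero, zero_mul, Int.cast_one, one_mul] at h
    push_cast at h
    linear_combination h
  -- relation modulo `a`
  have ha1 : va u x = (δ : ZMod a) * va u' x' := by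
    have h1 : ψa (va u x) = ψa (δ • va u' x') := by
      rw [AddChar.map_zsmul_eq_zpow, ← exp_ang, ← exp_ang, ← Complex.exp_int_mul, Complex.exp_eq_exp_iff_exists_int]
      refine ⟨m, ?_⟩
      rw [hm]
      push_cast
      ring
    have h2 := fa (va u x - δ • va u' x') (by
      rw [sub_eq_add_neg, AddChar.map_add_eq_mul, AddChar.map_neg_eq_inv, h1,
        mul_inv_cancel₀ (AddChar.val_isUnit ψa _).ne_zero])
    rw [sub_eq_zero, zsmul_eq_mul] at h2
    exact h2
  have hfin : vv u x.1.1 x.1.2 = (δ : ZMod q) * vv u' x'.1.1 x'.1.2 := by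
    apply eq_of_castHom hq hcop haq hpq
    · rw [map_mul, map_intCast]
      exact ha1
    · rw [map_mul, map_intCast, castHom_vv, castHom_vv]
      exact hp1
  rcases hδ with h | h
  · left; rw [hfin, h]; simp
  · right; rw [hfin, h]; simp

end

end Pool.Agent.Helper477
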