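import Mathlib
import Pool.Agent.Helper477.Main

set_option autoImplicit false

namespace Pool.Agent.Helper477
open Finset

/-- frequency vector for one family -/
noncomputable def freq1 {n p : ℕ} (w : Fin n → ZMod p) : Option (OD n) → ZMod p
  | none => 1
  | some x => w x.1.1 * (w x.1.2)⁻¹

theorem no_inversion {n : ℕ} (hn : 3 ≤ n) (p : ℕ) (hp : p.Prime)
    (hM : 2 * (n * 4 ^ Fintype.card (OD n)) < p) (h4 : 4 < p) (q a : ℕ) (ha : 0 < a)
    (hq : q = a * p) (hcop : Nat.Coprime a p) (hpq : p ∣ q)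
    (s s' : Fin n → ℕ) (u u' : Fin n → (ZMod q)ˣ)
    (hu : ∀ j, (u j : ZMod q) = s j) (hu' : ∀ j, (u' j : ZMod q) = s' j)
    (hg : Gen1 (2 * Fintype.card (OD n) + 1) (fun j => ZMod.castHom hpq (ZMod p) (u j)))
    (hg' : Gen1 (2 * Fintype.card (OD n) + 1) (fun j => ZMod.castHom hpq (ZMod p) (u' j)))
    (hspec : ∀ k, cnt q s k = cnt q s' k) (σ : Equiv.Perm (Fin n))
    (hinv : ∀ i j, vv u i j = vv u' (σ j) (σ i) ∨ vv u i j = -(vv u' (σ j) (σ i))) : False := by
  classical
  set N := Fintype.card (OD n) with hN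
  have hfact := Fact.mk hp
  have haq : a ∣ q := ⟨p, hq⟩
  have hq0 : q ≠ 0 := by rw [hq]; exact Nat.mul_ne_zero ha.ne' hp.ne_zero
  have : NeZero q := ⟨hq0⟩
  have : NeZero a := ⟨ha.ne'⟩
  set w' : Fin n → ZMod p := fun j => ZMod.castHom hpq (ZMod p) (u' j) with hw'
  set ψa : AddChar (ZMod a) ℂ := ZMod.stdAddChar with hψa
  set ψp : AddChar (ZMod p) ℂ := ZMod.stdAddChar with hψp
  have fa : Faithful ψa := faithful_std a
  have fp : Faithful ψp := faithful_std p
  have h2q : (2 : ZMod q) ≠ 0 := by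
    intro h0
    have : ((2 : ℕ) : ZMod q) = 0 := by exact_mod_cast h0
    rw [ZMod.natCast_eq_zero_iff] at this
    have h3 := Nat.le_of_dvd (by norm_num) this
    have h4 : p ≤ q := Nat.le_of_dvd (Nat.pos_of_ne_zero hq0) hpq
    omega
  have hne : ∀ (u : Fin n → (ZMod q)ˣ)
      (_ : Gen1 (2 * N + 1) (fun j => ZMod.castHom hpq (ZMod p) (u j))) (i j : Fin n), i ≠ j →
      vv u i j ≠ 1 ∧ vv u i j ≠ -1 := by
    intro u hg i j hij
    have h := hg.ratio_ne (by omega) i j hij
    constructor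
    · intro h0
      apply h.1
      have := congrArg (ZMod.castHom hpq (ZMod p)) h0
      rw [castHom_vv, map_one] at this
      exact this
    · intro h0
      apply h.2
      have := congrArg (ZMod.castHom hpq (ZMod p)) h0
      rw [castHom_vv, map_neg, map_one] at this
      exact this
  set v := freq1 w' with hv
  let va : OD n → ZMod a := fun x => ZMod.castHom haq (ZMod a) (vv u' x.1.1 x.1.2)
  let F : OD n → (Option (OD n) → ℂ) → ℂ := fun x =>
    Fac (ψa 1) (ψa (-1)) (ψa (va x)) (ψa (-(va x))) none (some x)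
  let Φ : (Option (OD n) → ℂ) → ℂ := fun T =>
    (∑ j, ∏ x ∈ Finset.univ.filter (fun x : OD n => x.1.2 ≠ j), F x T) -
    (∑ j, ∏ x ∈ Finset.univ.filter (fun x : OD n => x.1.1 ≠ j), F x T)
  have hF : ∀ x, Rep 4 1 (F x) := fun x => Rep_Fac _ _ _ _ _ _
  have hΦ : Rep (2 * (n * 4 ^ N)) N Φ := by
    have h1 := Rep_sum_prod F hF (fun (j : Fin n) (x : OD n) => x.1.2 ≠ j)
    have h2 := Rep_sum_prod F hF (fun (j : Fin n) (x : OD n) => x.1.1 ≠ j)
    exact (h1.sub h2).mono (by rw [← hN]; omega) (by rw [← hN])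
  have hvan : ∀ y : ZMod p, y ≠ 0 → Φ (fun i => ψp (y * v i)) = 0 := by
    intro y hy
    set Ψ := glue haq hpq ψa ψp y with hΨ
    have fΨ : Faithful Ψ := glue_faithful hq hcop haq hpq ψa fa ψp fp y hy
    have hpole := pole_identity s s' u u' hu hu' Ψ fΨ h2q (hne u hg) (hne u' hg') hspec
    have e2 : ∀ x, F x (fun i => ψp (y * v i)) =
        Ψ 1 + Ψ (-1) - Ψ (vv u' x.1.1 x.1.2) - Ψ (-(vv u' x.1.1 x.1.2)) := by
      intro x
      have hnone : v none = 1 := rfl
      have hsome : v (some x) = ZMod.castHom hpq (ZMod p) (vv u' x.1.1 x.1.2) :=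
        (castHom_vv hpq u' _ _).symm
      simp only [F, Fac, hsome, hnone, hΨ, glue_apply, map_one, map_neg, mul_one, zpow_one,
        zpow_neg, mul_neg, va]
      rw [← AddChar.map_neg_eq_inv, ← AddChar.map_neg_eq_inv]
      ring
    have c1 := cleared (fun i j => Ψ 1 + Ψ (-1) - Ψ (vv u' i j) - Ψ (-(vv u' i j)))
      (fun i j hij => factor_ne Ψ fΨ _ (hne u' hg' i j hij).1 (hne u' hg' i j hij).2)
    have c2 := cleared' (fun i j => Ψ 1 + Ψ (-1) - Ψ (vv u' i j) - Ψ (-(vv u' i j)))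
      (fun i j hij => factor_ne Ψ fΨ _ (hne u' hg' i j hij).1 (hne u' hg' i j hij).2)
    have e3 : Asum Ψ u = ∑ j, ∏ i ∈ Finset.univ.erase j,
        (Ψ 1 + Ψ (-1) - Ψ (vv u' j i) - Ψ (-(vv u' j i)))⁻¹ := by
      rw [Asum, ← Equiv.sum_comp σ (fun j => ∏ i ∈ Finset.univ.erase j,
        (Ψ 1 + Ψ (-1) - Ψ (vv u' j i) - Ψ (-(vv u' j i)))⁻¹)]
      refine Finset.sum_congr rfl fun j _ => ?_
      refine Finset.prod_equiv σ ?_ ?_
      · intro i
        simp
      · intro i _
        rcases hinv i j with h | h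
        · rw [h]
        · rw [h, neg_neg]
          ring
    simp only [Φ, e2]
    rw [← c1, ← c2]
    rw [e3] at hpole
    rw [hpole, Asum]
    ring
  -- choose the evaluation point
  have h0n : 0 < n := by omega
  set j0 : Fin n := ⟨0, h0n⟩ with hj0
  let T : Option (OD n) → ℂ := fun i => match i with
    | none => ψa (-1) * Complex.I
    | some x => if x.1.2 = j0 then ψa (-(va x)) * Complex.I else ψa (-(va x))
  have hun : ∀ z, ψa z ≠ 0 := fun z => (AddChar.val_isUnit ψa _).ne_zero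
  have hT : ∀ i, T i ≠ 0 := by
    intro i
    rcases i with _ | x
    · exact mul_ne_zero (hun _) Complex.I_ne_zero
    · simp only [T]
      split_ifs
      · exact mul_ne_zero (hun _) Complex.I_ne_zero
      · exact hun _
  have hzero : Φ T = 0 := by
    refine hΦ.transfer hM ψp fp.isPrimitive v hvan T hT ?_
    intro k hk hrel
    have h1 := hg' (k none) (fun x => k (some x)) ((hk none).trans (by push_cast; omega))
      (fun x => (hk _).trans (by push_cast; omega)) (by
        rw [Fintype.sum_option] at hrel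
        simpa [hv, freq1] using hrel)
    have h2 : ∀ i, k i = 0 := by
      intro i
      rcases i with _ | x
      · exact h1.1
      · exact congrFun h1.2 x
    simp [h2]
  have hmulneg : ∀ z, ψa z * ψa (-z) = 1 := by
    intro z; rw [← AddChar.map_add_eq_mul]; simp
  have hpart : ∀ z, ψa z * (ψa (-z) * Complex.I) ^ (1 : ℤ) +
      ψa (-z) * (ψa (-z) * Complex.I) ^ (-1 : ℤ) = 0 := by
    intro z
    rw [zpow_one, zpow_neg, zpow_one, mul_inv, Complex.inv_I]
    have h1 := hmulneg z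
    have h2 : ψa (-z) * (ψa (-z))⁻¹ = 1 := mul_inv_cancel₀ (hun _)
    linear_combination Complex.I * h1 - Complex.I * h2
  have hpart2 : ∀ z, ψa z * (ψa (-z)) ^ (1 : ℤ) +
      ψa (-z) * (ψa (-z)) ^ (-1 : ℤ) = 2 := by
    intro z
    rw [zpow_one, zpow_neg, zpow_one]
    have h1 := hmulneg z
    have h2 : ψa (-z) * (ψa (-z))⁻¹ = 1 := mul_inv_cancel₀ (hun _)
    linear_combination h1 + h2
  have hF0 : ∀ x : OD n, x.1.2 = j0 → F x T = 0 := by
    intro x hx
    simp only [F, Fac, T, hx, if_true]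
    rw [hpart 1, hpart (va x), sub_self]
  have hF1 : ∀ x : OD n, x.1.2 ≠ j0 → F x T = -2 := by
    intro x hx
    simp only [F, Fac, T, hx, if_false]
    rw [hpart 1, hpart2 (va x)]
    ring
  have hs1 : (∑ j, ∏ x ∈ Finset.univ.filter (fun x : OD n => x.1.2 ≠ j), F x T) ≠ 0 := by
    rw [Finset.sum_eq_single j0]
    · rw [Finset.prod_ne_zero_iff]
      intro x hx
      rw [Finset.mem_filter] at hx
      rw [hF1 x hx.2]
      norm_num
    · intro j _ hj
      refine Finset.prod_eq_zero (i := (⟨(j, j0), hj⟩ : OD n)) ?_ (hF0 _ rfl)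
      rw [Finset.mem_filter]
      exact ⟨Finset.mem_univ _, Ne.symm hj⟩
    · intro h; exact absurd (Finset.mem_univ _) h
  have hs2 : (∑ j, ∏ x ∈ Finset.univ.filter (fun x : OD n => x.1.1 ≠ j), F x T) = 0 := by
    refine Finset.sum_eq_zero fun j _ => ?_
    obtain ⟨i, hi1, hi2⟩ : ∃ i : Fin n, i ≠ j ∧ i ≠ j0 := by
      have hcard : ({j, j0} : Finset (Fin n)).card < Fintype.card (Fin n) := by
        have := Finset.card_le_two (a := j) (b := j0)
        rw [Fintype.card_fin]
        omega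
      obtain ⟨i, hi⟩ := Finset.exists_mem_notMem_of_card_lt_card
        (s := ({j, j0} : Finset (Fin n))) (t := Finset.univ) (by rwa [Finset.card_univ])
      refine ⟨i, ?_, ?_⟩
      · intro h; exact hi.2 (by rw [h]; simp)
      · intro h; exact hi.2 (by rw [h]; simp)
    refine Finset.prod_eq_zero (i := (⟨(i, j0), hi2⟩ : OD n)) ?_ (hF0 _ rfl)
    rw [Finset.mem_filter]
    exact ⟨Finset.mem_univ _, hi1⟩
  simp only [Φ] at hzero
  rw [hs2, sub_zero] at hzero
  exact hs1 hzero

theorem mk_eq_iff {q : ℕ} (x y : (ZMod q)ˣ) :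
    (QuotientGroup.mk x : (ZMod q)ˣ ⧸ Subgroup.zpowers (-1 : (ZMod q)ˣ)) = QuotientGroup.mk y ↔
      (x = y ∨ x = -y) := by
  rw [QuotientGroup.eq]
  constructor
  · rintro ⟨k, hk⟩
    simp only at hk
    rcases Int.even_or_odd k with h | h
    · rw [h.neg_one_zpow] at hk
      left
      have : x * 1 = x * (x⁻¹ * y) := by rw [hk]
      simpa using this
    · rw [h.neg_one_zpow] at hk
      right
      have : x * (-1) = x * (x⁻¹ * y) := by rw [hk]
      simp only [mul_neg, mul_one, mul_inv_cancel_left] at this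
      rw [← this, neg_neg]
  · rintro (h | h)
    · rw [h]; simp
    · refine ⟨1, ?_⟩
      rw [h]
      simp

/-- For generic parameters, isospectral implies isometric. -/
theorem iso_of_spec (n : ℕ) : ∃ B' p0 : ℕ, 4 < p0 ∧ ∀ p : ℕ, p.Prime → p0 ≤ p →
    ∀ q a : ℕ, 0 < a → q = a * p → Nat.Coprime a p → ∀ (hpq : p ∣ q)
    (s s' : Fin n → ℕ) (u u' : Fin n → (ZMod q)ˣ),
    (∀ j, (u j : ZMod q) = s j) → (∀ j, (u' j : ZMod q) = s' j) →
    Gen1 B' (fun j => ZMod.castHom hpq (ZMod p) (u j)) →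
    Gen1 B' (fun j => ZMod.castHom hpq (ZMod p) (u' j)) →
    Gen2 (fun j => ZMod.castHom hpq (ZMod p) (u' j)) →
    (∀ k, cnt q s k = cnt q s' k) →
    ∃ σ : Equiv.Perm (Fin n), ∃ t : (ZMod q)ˣ, ∀ j, u j = t * u' (σ j) ∨ u j = -(t * u' (σ j)) := by
  classical
  obtain ⟨B1, p1, hB1, hp1, hmatch⟩ := ratio_match n
  refine ⟨max B1 (2 * Fintype.card (OD n) + 1), p1 + 2 * (n * 4 ^ Fintype.card (OD n)),
    by omega, ?_⟩
  intro p hp hp0 q a ha hq hcop hpq s s' u u' hu hu' hg hg' hg2' hspec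
  have hm := hmatch p hp (by omega) q a ha hq hcop hpq s s' u u' hu hu'
    (hg.mono (le_max_left _ _)) (hg'.mono (le_max_left _ _)) hspec
  have vv_eq : ∀ (u : Fin n → (ZMod q)ˣ) (i j : Fin n), vv u i j = ((u i / u j : (ZMod q)ˣ) : ZMod q) := by
    intro u i j
    rw [vv, div_eq_mul_inv]
  let G := (ZMod q)ˣ ⧸ Subgroup.zpowers (-1 : (ZMod q)ˣ)
  let mk : (ZMod q)ˣ → G := QuotientGroup.mk
  have mkmul : ∀ x y, mk (x * y) = mk x * mk y := fun x y => rfl
  have mkinv : ∀ x, mk (x⁻¹) = (mk x)⁻¹ := fun x => rfl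
  have mkdiv : ∀ x y, mk (x / y) = mk x / mk y := fun x y => rfl
  obtain ⟨σ, t, ht⟩ := comb_group (fun j => mk (u j)) (fun j => mk (u' j)) (by
    intro i j hij
    obtain ⟨x', hx'⟩ := hm ⟨(i, j), hij⟩
    refine ⟨x'.1.1, x'.1.2, x'.2, ?_⟩
    rw [← mkdiv, ← mkdiv]
    rw [mk_eq_iff]
    simp only at hx'
    rw [vv_eq, vv_eq] at hx'
    rcases hx' with h | h
    · left; exact Units.ext h
    · right; exact Units.ext (by rw [h]; simp)) (by
    intro a c f b d e h
    rw [← mkmul, ← mkmul, ← mkmul, ← mkmul, mk_eq_iff] at h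
    apply hg2'
    rcases h with h | h
    · left
      have := congrArg (fun z : (ZMod q)ˣ => ZMod.castHom hpq (ZMod p) (z : ZMod q)) h
      simpa only [Units.val_mul, map_mul] using this
    · right
      have := congrArg (fun z : (ZMod q)ˣ => ZMod.castHom hpq (ZMod p) (z : ZMod q)) h
      simpa only [Units.val_mul, Units.val_neg, map_neg, map_mul] using this)
  obtain ⟨t', ht'⟩ := QuotientGroup.mk_surjective t
  rcases ht with ht | ht
  · refine ⟨σ, t', fun j => ?_⟩
    have h := ht j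
    rw [← ht'] at h
    change mk (u j) = mk t' * mk (u' (σ j)) at h
    rw [← mkmul, mk_eq_iff] at h
    exact h
  · have hj : ∀ j, u j = t' * (u' (σ j))⁻¹ ∨ u j = -(t' * (u' (σ j))⁻¹) := by
      intro j
      have h := ht j
      rw [← ht'] at h
      change mk (u j) = mk t' * (mk (u' (σ j)))⁻¹ at h
      rw [← mkinv, ← mkmul, mk_eq_iff] at h
      exact h
    rcases Nat.lt_or_ge n 3 with hn | hn
    · interval_cases n
      · exact ⟨1, 1, fun j => j.elim0⟩
      · refine ⟨1, t' * (u' 0)⁻¹ * (u' 0)⁻¹, fun j => ?_⟩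
        have hj0 : j = 0 := Subsingleton.elim _ _
        have hσ : σ 0 = 0 := Subsingleton.elim _ _
        subst hj0
        rcases hj 0 with h | h
        · left; rw [h, hσ]; simp
        · right; rw [h, hσ]; simp
      · -- n = 2
        have hprod : ∀ j : Fin 2, u' (σ j) * u' (σ (Equiv.swap 0 1 j)) = u' 0 * u' 1 := by
          have h01 : u' (σ 0) * u' (σ 1) = u' 0 * u' 1 := by
            have := Equiv.prod_comp σ u'
            simpa [Fin.prod_univ_two] using this
          intro j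
          fin_cases j
          · simpa using h01
          · simpa [mul_comm] using h01
        refine ⟨σ * Equiv.swap 0 1, t' * (u' 0 * u' 1)⁻¹, fun j => ?_⟩
        have e : t' * (u' 0 * u' 1)⁻¹ * u' ((σ * Equiv.swap 0 1 : Equiv.Perm (Fin 2)) j) =
            t' * (u' (σ j))⁻¹ := by
          rw [← hprod j, Equiv.Perm.mul_apply, mul_inv]
          simp [mul_assoc]
        rw [e]
        exact hj j
    · exfalso
      refine no_inversion hn p hp (by omega) (by omega) q a ha hq hcop hpq s s' u u' hu hu'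
        (hg.mono (le_max_right _ _)) (hg'.mono (le_max_right _ _)) hspec σ ?_
      intro i j
      have hdiv : ∀ x y : (ZMod q)ˣ, t' * x⁻¹ / (t' * y⁻¹) = y / x := by
        intro x y
        simp [div_eq_mul_inv, mul_comm, mul_assoc]
      rw [vv_eq, vv_eq]
      rcases hj i with h1 | h1 <;> rcases hj j with h2 | h2 <;> rw [h1, h2]
      · left; rw [hdiv]
      · right; rw [div_neg, hdiv, Units.val_neg]
      · right; rw [neg_div, hdiv, Units.val_neg]
      · left; rw [neg_div_neg_eq, hdiv]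

end Pool.Agent.Helper477
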