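import Mathlib
import Pool.Agent.Helper477.Final

set_option autoImplicit false

namespace Pool.Agent.Helper477
open Finset

theorem sz_count {n p : ℕ} [Fact p.Prime] (P : MvPolynomial (Fin n) (ZMod p)) (hP : P ≠ 0)
    (D : ℕ) (hD : P.totalDegree ≤ D) :
    (Finset.univ.filter (fun w : Fin n → ZMod p => MvPolynomial.eval w P = 0)).card * p ≤
      D * p ^ n := by
  classical
  have h := MvPolynomial.schwartz_zippel_totalDegree hP (Finset.univ : Finset (ZMod p))
  have hpos : 0 < p := (Fact.out : p.Prime).pos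
  rw [Finset.card_univ, ZMod.card] at h
  have e : (Fintype.piFinset (fun _ : Fin n => (Finset.univ : Finset (ZMod p)))) =
      Finset.univ := by
    ext; simp
  rw [e] at h
  have h1 : (0 : ℚ≥0) < (p : ℚ≥0) ^ n := by positivity
  have h2 : (0 : ℚ≥0) < (p : ℚ≥0) := by positivity
  rw [div_le_div_iff₀ h1 h2] at h
  have h3 : (Finset.univ.filter (fun w : Fin n → ZMod p => MvPolynomial.eval w P = 0)).card * p ≤
      P.totalDegree * p ^ n := by exact_mod_cast h
  exact h3.trans (Nat.mul_le_mul_right _ hD)

/-- exponent vector of `w_i * ∏_{l ≠ j} w_l` -/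
noncomputable def expo {n : ℕ} : Option (OD n) → (Fin n →₀ ℕ)
  | none => Finsupp.equivFunOnFinite.symm (fun _ => 1)
  | some x => Finsupp.equivFunOnFinite.symm
      (fun l => if l = x.1.1 then 2 else if l = x.1.2 then 0 else 1)

theorem expo_injective {n : ℕ} : Function.Injective (expo (n := n)) := by
  intro i j h
  have key : ∀ l, expo i l = expo j l := fun l => by rw [h]
  rcases i with _ | x <;> rcases j with _ | y
  · rfl
  · have := key y.1.1
    simp [expo] at this
  · have := key x.1.1
    simp [expo] at this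
  · have h1 := key x.1.1
    have h2 := key x.1.2
    have hx := x.2
    have hy := y.2
    simp only [expo, Finsupp.coe_equivFunOnFinite_symm, if_true, hx.symm, if_false] at h1 h2
    have e1 : x.1.1 = y.1.1 := by
      by_contra hne
      rw [if_neg hne] at h1
      split_ifs at h1
      omega
    have e2 : x.1.2 = y.1.2 := by
      by_contra hne
      rw [if_neg hne] at h2
      split_ifs at h2
    congr 1
    exact Subtype.ext (Prod.ext e1 e2)

theorem expo_degree {n : ℕ} (i : Option (OD n)) : (expo i).sum (fun _ e => e) = n := by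
  rw [Finsupp.sum_fintype _ _ (fun _ => rfl)]
  rcases i with _ | x
  · simp [expo]
  · simp only [expo, Finsupp.coe_equivFunOnFinite_symm]
    have e : ∀ l, (if l = x.1.1 then 2 else if l = x.1.2 then 0 else 1) + (if l = x.1.2 then 1 else 0) =
        1 + (if l = x.1.1 then (1 : ℕ) else 0) := by
      intro l
      have hx := x.2
      by_cases h1 : l = x.1.1
      · have h2 : l ≠ x.1.2 := by rw [h1]; exact hx
        simp [h1, hx]
      · by_cases h2 : l = x.1.2
        · simp [h2, hx.symm]
        · simp [h1, h2]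
    have e2 := Finset.sum_congr (rfl : (Finset.univ : Finset (Fin n)) = Finset.univ)
      (fun l _ => e l)
    rw [Finset.sum_add_distrib, Finset.sum_add_distrib] at e2
    simp at e2
    omega

/-- the relation polynomial -/
noncomputable def relPoly {n : ℕ} (p : ℕ) (k : Option (OD n) → ℤ) : MvPolynomial (Fin n) (ZMod p) :=
  ∑ i, MvPolynomial.monomial (expo i) (k i : ZMod p)

theorem relPoly_ne {n p : ℕ} [Fact p.Prime] (B : ℕ) (hB : B < p) (k : Option (OD n) → ℤ)
    (hk : ∀ i, |k i| ≤ (B : ℤ)) (hne : k ≠ 0) : relPoly p k ≠ 0 := by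
  classical
  obtain ⟨i, hi⟩ := Function.ne_iff.mp hne
  intro h0
  have h1 : MvPolynomial.coeff (expo i) (relPoly p k) = (k i : ZMod p) := by
    rw [relPoly, MvPolynomial.coeff_sum, Finset.sum_eq_single i]
    · simp
    · intro j _ hj
      rw [MvPolynomial.coeff_monomial, if_neg]
      intro h; exact hj (expo_injective h)
    · intro h; exact absurd (Finset.mem_univ _) h
  rw [h0, MvPolynomial.coeff_zero] at h1
  have h2 := h1.symm
  rw [ZMod.intCast_zmod_eq_zero_iff_dvd] at h2
  have h3 := Int.eq_zero_of_abs_lt_dvd h2 (lt_of_le_of_lt (hk i) (by exact_mod_cast hB))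
  exact hi h3

theorem relPoly_degree {n p : ℕ} (k : Option (OD n) → ℤ) : (relPoly p k).totalDegree ≤ n := by
  refine (MvPolynomial.totalDegree_finsetSum _ _).trans (Finset.sup_le fun i _ => ?_)
  exact (MvPolynomial.totalDegree_monomial_le _ _).trans (expo_degree i).le

theorem relPoly_eval {n p : ℕ} [Fact p.Prime] (k : Option (OD n) → ℤ) (w : Fin n → ZMod p)
    (hw : ∀ j, w j ≠ 0) : MvPolynomial.eval w (relPoly p k) =
      (∏ l, w l) * ((k none : ZMod p) + ∑ x, (k (some x) : ZMod p) * (w x.1.1 * (w x.1.2)⁻¹)) := by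
  rw [relPoly, map_sum, Fintype.sum_option]
  simp only [MvPolynomial.eval_monomial]
  rw [mul_add, Finset.mul_sum]
  congr 1
  · rw [Finsupp.prod_fintype _ _ (fun _ => pow_zero _)]
    simp [expo, mul_comm]
  · refine Finset.sum_congr rfl fun x _ => ?_
    rw [Finsupp.prod_fintype _ _ (fun _ => pow_zero _)]
    have e : ∀ l, w l ^ (expo (some x) l) = w l * ((if l = x.1.1 then w l else 1) *
        (if l = x.1.2 then (w l)⁻¹ else 1)) := by
      intro l
      have hx := x.2
      simp only [expo, Finsupp.coe_equivFunOnFinite_symm]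
      by_cases h1 : l = x.1.1
      · have h2 : l ≠ x.1.2 := by rw [h1]; exact hx
        simp only [h1, if_true]
        rw [if_neg hx]
        ring
      · by_cases h2 : l = x.1.2
        · simp only [h2, hx.symm, if_false, if_true]
          rw [pow_zero, one_mul, mul_inv_cancel₀ (hw _)]
        · simp [h1, h2]
    rw [Finset.prod_congr rfl (fun l _ => e l), Finset.prod_mul_distrib, Finset.prod_mul_distrib]
    rw [Finset.prod_ite_eq' Finset.univ x.1.1 w, Finset.prod_ite_eq' Finset.univ x.1.2 (fun l => (w l)⁻¹)]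
    simp only [Finset.mem_univ, if_true]
    ring

/-- the coincidence polynomial -/
noncomputable def coPoly {n : ℕ} (p : ℕ) (m m' : Fin n →₀ ℕ) (ε : ZMod p) :
    MvPolynomial (Fin n) (ZMod p) :=
  MvPolynomial.monomial m 1 - MvPolynomial.monomial m' ε

theorem coPoly_ne {n p : ℕ} [Fact p.Prime] (m m' : Fin n →₀ ℕ) (ε : ZMod p) (hm : m ≠ m') :
    coPoly p m m' ε ≠ 0 := by
  classical
  intro h0
  have h1 : MvPolynomial.coeff m (coPoly p m m' ε) = 1 := by
    rw [coPoly, MvPolynomial.coeff_sub, MvPolynomial.coeff_monomial, MvPolynomial.coeff_monomial,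
      if_pos rfl, if_neg (Ne.symm hm), sub_zero]
  rw [h0, MvPolynomial.coeff_zero] at h1
  exact zero_ne_one h1

/-- exponent vector of a triple product -/
noncomputable def tri {n : ℕ} (a c f : Fin n) : Fin n →₀ ℕ :=
  Finsupp.single a 1 + Finsupp.single c 1 + Finsupp.single f 1

theorem tri_eq {n : ℕ} (a c f b d e : Fin n) (h : tri a c f = tri b d e) :
    TripleEq a c f b d e := by
  intro m
  have h1 := DFunLike.congr_fun h m
  simpa [tri, Finsupp.single_apply] using h1

theorem tri_degree {n : ℕ} (a c f : Fin n) : (tri a c f).sum (fun _ e => e) = 3 := by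
  rw [Finsupp.sum_fintype _ _ (fun _ => rfl)]
  simp [tri, Finset.sum_add_distrib, Finsupp.single_apply]

theorem coPoly_degree {n p : ℕ} (a c f b d e : Fin n) (ε : ZMod p) :
    (coPoly p (tri a c f) (tri b d e) ε).totalDegree ≤ 3 := by
  refine (MvPolynomial.totalDegree_sub _ _).trans (max_le ?_ ?_)
  · exact (MvPolynomial.totalDegree_monomial_le _ _).trans (tri_degree _ _ _).le
  · exact (MvPolynomial.totalDegree_monomial_le _ _).trans (tri_degree _ _ _).le

theorem coPoly_eval {n p : ℕ} [Fact p.Prime] (a c f b d e : Fin n) (ε : ZMod p)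
    (w : Fin n → ZMod p) : MvPolynomial.eval w (coPoly p (tri a c f) (tri b d e) ε) =
      w a * w c * w f - ε * (w b * w d * w e) := by
  have key : ∀ (a c f : Fin n) (z : ZMod p), MvPolynomial.eval w (MvPolynomial.monomial (tri a c f) z) =
      z * (w a * w c * w f) := by
    intro a c f z
    have : MvPolynomial.monomial (tri a c f) z =
        MvPolynomial.C z * (MvPolynomial.X a * MvPolynomial.X c * MvPolynomial.X f) := by
      simp only [MvPolynomial.X, tri, MvPolynomial.monomial_mul, MvPolynomial.C_mul_monomial]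
      simp
    rw [this]
    simp
  rw [coPoly, map_sub, key, key, one_mul]

/-- number of bad vectors modulo `p` -/
theorem bad_count (n B : ℕ) : ∃ C : ℕ, ∀ p : ℕ, ∀ _ : Fact p.Prime, B < p →
    ∀ Bad : Finset (Fin n → ZMod p),
    (∀ w ∈ Bad, (∀ j, w j ≠ 0) ∧ ¬ (Gen1 B w ∧ Gen2 w)) → Bad.card * p ≤ C * p ^ n := by
  classical
  let box : Finset (Option (OD n) → ℤ) := Fintype.piFinset (fun _ => Finset.Icc (-(B : ℤ)) (B : ℤ))
  let six : Finset (Fin n × Fin n × Fin n × Fin n × Fin n × Fin n × Bool) := Finset.univ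
  refine ⟨box.card * n + six.card * 3, ?_⟩
  intro p hp hB Bad hBad
  let Z : MvPolynomial (Fin n) (ZMod p) → Finset (Fin n → ZMod p) := fun P =>
    Finset.univ.filter (fun w => MvPolynomial.eval w P = 0)
  let A1 : Finset (Fin n → ZMod p) := (box.filter (fun k => k ≠ 0)).biUnion (fun k => Z (relPoly p k))
  let P2 : (Fin n × Fin n × Fin n × Fin n × Fin n × Fin n × Bool) → MvPolynomial (Fin n) (ZMod p) :=
    fun y => coPoly p (tri y.1 y.2.1 y.2.2.1) (tri y.2.2.2.1 y.2.2.2.2.1 y.2.2.2.2.2.1)
      (if y.2.2.2.2.2.2 then 1 else -1)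
  let A2 : Finset (Fin n → ZMod p) := (six.filter (fun y => ¬ TripleEq y.1 y.2.1 y.2.2.1
    y.2.2.2.1 y.2.2.2.2.1 y.2.2.2.2.2.1)).biUnion (fun y => Z (P2 y))
  have hsub : Bad ⊆ A1 ∪ A2 := by
    intro w hw
    obtain ⟨hw0, hng⟩ := hBad w hw
    rw [not_and_or] at hng
    rcases hng with h | h
    · apply Finset.mem_union_left
      unfold Gen1 at h
      push Not at h
      obtain ⟨k0, k, h1, h2, h3, h4⟩ := h
      rw [Finset.mem_biUnion]
      refine ⟨fun i => match i with
        | none => k0
        | some x => k x, ?_, ?_⟩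
      · rw [Finset.mem_filter, Fintype.mem_piFinset]
        constructor
        · intro i
          rw [Finset.mem_Icc]
          rcases i with _ | x
          · exact abs_le.mp h1
          · exact abs_le.mp (h2 x)
        · intro h0
          apply h4 (congrFun h0 none)
          funext x
          exact congrFun h0 (some x)
      · rw [Finset.mem_filter]
        refine ⟨Finset.mem_univ _, ?_⟩
        rw [relPoly_eval _ _ hw0, h3, mul_zero]
    · apply Finset.mem_union_right
      unfold Gen2 at h
      push Not at h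
      obtain ⟨a, c, f, b, d, e, h1, h2⟩ := h
      rw [Finset.mem_biUnion]
      rcases h1 with h1 | h1
      · refine ⟨(a, c, f, b, d, e, true), ?_, ?_⟩
        · rw [Finset.mem_filter]; exact ⟨Finset.mem_univ _, h2⟩
        · rw [Finset.mem_filter]
          refine ⟨Finset.mem_univ _, ?_⟩
          simp only [P2, if_true]
          rw [coPoly_eval, h1]; ring
      · refine ⟨(a, c, f, b, d, e, false), ?_, ?_⟩
        · rw [Finset.mem_filter]; exact ⟨Finset.mem_univ _, h2⟩
        · rw [Finset.mem_filter]
          refine ⟨Finset.mem_univ _, ?_⟩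
          simp only [P2, Bool.false_eq_true, if_false]
          rw [coPoly_eval, h1]; ring
  have h1 : A1.card * p ≤ box.card * n * p ^ n := by
    calc A1.card * p ≤ (∑ k ∈ box.filter (fun k => k ≠ 0), (Z (relPoly p k)).card) * p :=
          Nat.mul_le_mul_right _ Finset.card_biUnion_le
      _ = ∑ k ∈ box.filter (fun k => k ≠ 0), (Z (relPoly p k)).card * p := by rw [Finset.sum_mul]
      _ ≤ ∑ _k ∈ box.filter (fun k => k ≠ 0), n * p ^ n := by
          refine Finset.sum_le_sum fun k hk => ?_
          rw [Finset.mem_filter, Fintype.mem_piFinset] at hk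
          refine sz_count _ (relPoly_ne B hB k (fun i => ?_) hk.2) n (relPoly_degree k)
          exact abs_le.mpr (Finset.mem_Icc.mp (hk.1 i))
      _ = (box.filter (fun k => k ≠ 0)).card * (n * p ^ n) := by rw [Finset.sum_const, smul_eq_mul]
      _ ≤ box.card * (n * p ^ n) := Nat.mul_le_mul_right _ (Finset.card_filter_le _ _)
      _ = box.card * n * p ^ n := by ring
  have h2 : A2.card * p ≤ six.card * 3 * p ^ n := by
    calc A2.card * p ≤ (∑ y ∈ six.filter (fun y => ¬ TripleEq y.1 y.2.1 y.2.2.1
          y.2.2.2.1 y.2.2.2.2.1 y.2.2.2.2.2.1), (Z (P2 y)).card) * p :=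
          Nat.mul_le_mul_right _ Finset.card_biUnion_le
      _ = ∑ y ∈ six.filter (fun y => ¬ TripleEq y.1 y.2.1 y.2.2.1
          y.2.2.2.1 y.2.2.2.2.1 y.2.2.2.2.2.1), (Z (P2 y)).card * p := by rw [Finset.sum_mul]
      _ ≤ ∑ _y ∈ six.filter (fun y => ¬ TripleEq y.1 y.2.1 y.2.2.1
          y.2.2.2.1 y.2.2.2.2.1 y.2.2.2.2.2.1), 3 * p ^ n := by
          refine Finset.sum_le_sum fun y hy => ?_
          rw [Finset.mem_filter] at hy
          refine sz_count _ (coPoly_ne _ _ _ (fun h => hy.2 (tri_eq _ _ _ _ _ _ h))) 3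
            (coPoly_degree _ _ _ _ _ _ _)
      _ = (six.filter (fun y => ¬ TripleEq y.1 y.2.1 y.2.2.1
          y.2.2.2.1 y.2.2.2.2.1 y.2.2.2.2.2.1)).card * (3 * p ^ n) := by
          rw [Finset.sum_const, smul_eq_mul]
      _ ≤ six.card * (3 * p ^ n) := Nat.mul_le_mul_right _ (Finset.card_filter_le _ _)
      _ = six.card * 3 * p ^ n := by ring
  calc Bad.card * p ≤ (A1 ∪ A2).card * p := Nat.mul_le_mul_right _ (Finset.card_le_card hsub)
    _ ≤ (A1.card + A2.card) * p := Nat.mul_le_mul_right _ (Finset.card_union_le _ _)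
    _ = A1.card * p + A2.card * p := by ring
    _ ≤ box.card * n * p ^ n + six.card * 3 * p ^ n := add_le_add h1 h2
    _ = (box.card * n + six.card * 3) * p ^ n := by ring

end Pool.Agent.Helper477
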