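import Mathlib
import Pool.Agent.Helper477.Count

set_option autoImplicit false

namespace Pool.Agent.Helper477
open Finset

/-- parameters of lens spaces -/
def SS (n q : ℕ) : Finset (Fin n → ℕ) :=
  Fintype.piFinset (fun _ : Fin n => (Finset.range q).filter (fun a => Nat.Coprime a q))

/-- isometry -/
def IsoL {n : ℕ} (q : ℕ) (s s' : Fin n → ℕ) : Prop :=
  ∃ σ : Equiv.Perm (Fin n), ∃ ε : Fin n → ℤ, (∀ j, ε j = 1 ∨ ε j = -1) ∧
        ∃ t : ℕ, Nat.Coprime t q ∧
          ∀ j, (s' j : ℤ) ≡ ε j * (t : ℤ) * (s (σ j) : ℤ) [ZMOD (q : ℤ)]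

/-- isometry in terms of residues -/
def IsoZ {n q : ℕ} (x y : Fin n → ZMod q) : Prop :=
  ∃ σ : Equiv.Perm (Fin n), ∃ t : (ZMod q)ˣ, ∀ j, y j = t * x (σ j) ∨ y j = -(t * x (σ j))

theorem isoL_iff {n q : ℕ} [NeZero q] (s s' : Fin n → ℕ) :
    IsoL q s s' ↔ IsoZ (fun j => (s j : ZMod q)) (fun j => (s' j : ZMod q)) := by
  classical
  constructor
  · rintro ⟨σ, ε, hε, t, ht, h⟩
    refine ⟨σ, ZMod.unitOfCoprime t ht, fun j => ?_⟩
    have h1 := (ZMod.intCast_eq_intCast_iff _ _ _).mpr (h j)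
    push_cast at h1
    rw [ZMod.coe_unitOfCoprime]
    change (s' j : ZMod q) = t * (s (σ j) : ZMod q) ∨ (s' j : ZMod q) = -(t * (s (σ j) : ZMod q))
    rcases hε j with h2 | h2
    · left; rw [h1, h2]; simp
    · right; rw [h1, h2]; simp
  · rintro ⟨σ, t, h⟩
    refine ⟨σ, fun j => if (s' j : ZMod q) = t * (s (σ j) : ZMod q) then 1 else -1, ?_,
      (t : ZMod q).val, ZMod.val_coe_unit_coprime t, ?_⟩
    · intro j
      simp only
      split_ifs
      · left; rfl
      · right; rfl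
    · intro j
      apply (ZMod.intCast_eq_intCast_iff _ _ _).mp
      push_cast
      rw [ZMod.natCast_zmod_val]
      by_cases h1 : (s' j : ZMod q) = t * (s (σ j) : ZMod q)
      · rw [if_pos h1, one_mul]; exact h1
      · rw [if_neg h1]
        have h2 : (s' j : ZMod q) = -(t * (s (σ j) : ZMod q)) := (h j).resolve_left h1
        rw [h2]; ring

theorem IsoZ.refl {n q : ℕ} (x : Fin n → ZMod q) : IsoZ x x :=
  ⟨1, 1, fun j => Or.inl (by simp)⟩

theorem IsoZ.symm {n q : ℕ} {x y : Fin n → ZMod q} (h : IsoZ x y) : IsoZ y x := by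
  obtain ⟨σ, t, h⟩ := h
  refine ⟨σ.symm, t⁻¹, fun j => ?_⟩
  have h1 := h (σ.symm j)
  rw [Equiv.apply_symm_apply] at h1
  rcases h1 with h1 | h1
  · left; rw [h1, ← mul_assoc, Units.inv_mul, one_mul]
  · right; rw [h1, mul_neg, ← mul_assoc, Units.inv_mul, one_mul, neg_neg]

theorem IsoZ.trans {n q : ℕ} {x y z : Fin n → ZMod q} (h : IsoZ x y) (h' : IsoZ y z) :
    IsoZ x z := by
  obtain ⟨σ, t, h⟩ := h
  obtain ⟨σ', t', h'⟩ := h'
  refine ⟨σ * σ', t' * t, fun j => ?_⟩
  rw [Equiv.Perm.mul_apply]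
  rcases h' j with h1 | h1 <;> rcases h (σ' j) with h2 | h2 <;> rw [h1, h2]
  · left; push_cast; ring
  · right; push_cast; ring
  · right; push_cast; ring
  · left; push_cast; ring

theorem IsoL.refl {n q : ℕ} [NeZero q] (s : Fin n → ℕ) : IsoL q s s :=
  (isoL_iff s s).mpr (IsoZ.refl _)

theorem IsoL.symm {n q : ℕ} [NeZero q] {s s' : Fin n → ℕ} (h : IsoL q s s') : IsoL q s' s :=
  (isoL_iff s' s).mpr ((isoL_iff s s').mp h).symm

theorem IsoL.trans {n q : ℕ} [NeZero q] {s s' s'' : Fin n → ℕ} (h : IsoL q s s')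
    (h' : IsoL q s' s'') : IsoL q s s'' :=
  (isoL_iff s s'').mpr (((isoL_iff s s').mp h).trans ((isoL_iff s' s'').mp h'))

/-- isospectrality -/
def SpcL {n : ℕ} (q : ℕ) (s s' : Fin n → ℕ) : Prop := ∀ k, cnt q s k = cnt q s' k

theorem IsoL.spc {n q : ℕ} {s s' : Fin n → ℕ} (h : IsoL q s s') : SpcL q s s' := by
  classical
  obtain ⟨σ, ε, hε, t, ht, h⟩ := h
  have hε2 : ∀ j, ε j * ε j = 1 := by
    intro j; rcases hε j with h | h <;> rw [h] <;> norm_num
  have hεabs : ∀ j (z : ℤ), |ε j * z| = |z| := by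
    intro j z; rcases hε j with h | h <;> rw [h] <;> simp
  intro k
  rw [cnt, cnt]
  have hmem : ∀ (z : ℤ) (j : Fin n), z ∈ Finset.Icc (-(k : ℤ)) k ↔ |z| ≤ k := by
    intro z j
    rw [Finset.mem_Icc, abs_le]
  have hrel : ∀ b : Fin n → ℤ, (∑ j, b j * (s j : ℤ) ≡ 0 [ZMOD q]) ↔
      (∑ j, (ε j * b (σ j)) * (s' j : ℤ) ≡ 0 [ZMOD q]) := by
    intro b
    have e1 : ((∑ j, (ε j * b (σ j)) * (s' j : ℤ) : ℤ) : ZMod q) =
        (t : ZMod q) * ((∑ j, b j * (s j : ℤ) : ℤ) : ZMod q) := by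
      rw [← Equiv.sum_comp σ (fun j => b j * (s j : ℤ))]
      push_cast
      rw [Finset.mul_sum]
      refine Finset.sum_congr rfl fun j _ => ?_
      have h1 := (ZMod.intCast_eq_intCast_iff _ _ _).mpr (h j)
      push_cast at h1
      rw [h1]
      have h2 : ((ε j : ℤ) : ZMod q) * ((ε j : ℤ) : ZMod q) = 1 := by
        rw [← Int.cast_mul, hε2, Int.cast_one]
      linear_combination ((b (σ j) : ZMod q) * t * s (σ j)) * h2
    have hu : IsUnit ((t : ℕ) : ZMod q) := (ZMod.isUnit_iff_coprime t q).mpr ht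
    rw [← ZMod.intCast_eq_intCast_iff, ← ZMod.intCast_eq_intCast_iff, e1, Int.cast_zero]
    constructor
    · intro h; rw [h, mul_zero]
    · intro h; exact (hu.mul_right_eq_zero).mp h
  refine Finset.card_nbij' (fun b => fun j => ε j * b (σ j))
    (fun a => fun i => ε (σ.symm i) * a (σ.symm i)) ?_ ?_ ?_ ?_
  · intro b hb
    simp only [Finset.coe_filter, Set.mem_ofPred_eq, Fintype.mem_piFinset] at hb ⊢
    refine ⟨fun j => ?_, ?_, ?_⟩
    · rw [hmem _ j, hεabs, ← hmem _ j]; exact hb.1 (σ j)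
    · rw [← hb.2.1, ← Equiv.sum_comp σ (fun j => |b j|)]
      exact Finset.sum_congr rfl fun j _ => hεabs j _
    · exact (hrel b).mp hb.2.2
  · intro a ha
    simp only [Finset.coe_filter, Set.mem_ofPred_eq, Fintype.mem_piFinset] at ha ⊢
    refine ⟨fun j => ?_, ?_, ?_⟩
    · rw [hmem _ j, hεabs, ← hmem _ j]; exact ha.1 _
    · rw [← ha.2.1, ← Equiv.sum_comp σ.symm (fun j => |a j|)]
      exact Finset.sum_congr rfl fun j _ => hεabs _ _
    · rw [hrel]
      have : ∀ j, ε j * (ε (σ.symm (σ j)) * a (σ.symm (σ j))) = a j := by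
        intro j
        rw [Equiv.symm_apply_apply, ← mul_assoc, hε2, one_mul]
      simp only [this]
      exact ha.2.2
  · intro b _
    funext i
    simp only
    rw [Equiv.apply_symm_apply, ← mul_assoc, hε2, one_mul]
  · intro a _
    funext j
    simp only
    rw [Equiv.symm_apply_apply, ← mul_assoc, hε2, one_mul]

theorem mem_SS {n q : ℕ} (s : Fin n → ℕ) : s ∈ SS n q ↔ ∀ j, s j < q ∧ Nat.Coprime (s j) q := by
  simp [SS, Fintype.mem_piFinset]

theorem card_SS (n q : ℕ) : (SS n q).card = q.totient ^ n := by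
  rw [SS, Fintype.card_piFinset]
  simp only [Finset.prod_const, Finset.card_univ, Fintype.card_fin]
  congr 1
  rw [Nat.totient_eq_card_coprime]
  congr 1
  ext a
  simp [Nat.coprime_comm]

/-- scaled parameter -/
noncomputable def scale {n q : ℕ} (t : (ZMod q)ˣ) (s : Fin n → ℕ) : Fin n → ℕ :=
  fun j => ((t : ZMod q) * (s j : ZMod q)).val

theorem scale_mem {n q : ℕ} [NeZero q] (t : (ZMod q)ˣ) (s : Fin n → ℕ) (hs : s ∈ SS n q) :
    scale t s ∈ SS n q := by
  rw [mem_SS] at hs ⊢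
  intro j
  refine ⟨ZMod.val_lt _, ?_⟩
  have : scale t s j = ((t * ZMod.unitOfCoprime (s j) (hs j).2 : (ZMod q)ˣ) : ZMod q).val := by
    simp [scale]
  rw [this]
  exact ZMod.val_coe_unit_coprime _

theorem scale_cast {n q : ℕ} [NeZero q] (t : (ZMod q)ˣ) (s : Fin n → ℕ) (j : Fin n) :
    ((scale t s j : ℕ) : ZMod q) = (t : ZMod q) * (s j : ZMod q) := by
  simp [scale]

theorem scale_iso {n q : ℕ} [NeZero q] (t : (ZMod q)ˣ) (s : Fin n → ℕ) : IsoL q s (scale t s) := by
  rw [isoL_iff]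
  exact ⟨1, t, fun j => Or.inl (by simp [scale_cast])⟩

theorem scale_injective {n q : ℕ} [NeZero q] (hn : 0 < n) (s : Fin n → ℕ) (hs : s ∈ SS n q) :
    Function.Injective (fun t : (ZMod q)ˣ => scale t s) := by
  intro t t' h
  have h1 := congrFun h ⟨0, hn⟩
  have h2 := congrArg (fun z : ℕ => (z : ZMod q)) h1
  simp only [scale_cast] at h2
  rw [mem_SS] at hs
  have hu : IsUnit ((s ⟨0, hn⟩ : ℕ) : ZMod q) := (ZMod.isUnit_iff_coprime _ _).mpr (hs _).2
  exact Units.ext (hu.mul_right_cancel h2)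

open Classical in
/-- the class of a parameter -/
noncomputable def cls (n q : ℕ) (s : Fin n → ℕ) : Finset (Fin n → ℕ) :=
  (SS n q).filter (fun s' => IsoL q s s')

theorem cls_eq_iff {n q : ℕ} [NeZero q] (s s' : Fin n → ℕ) (hs' : s' ∈ SS n q) :
    cls n q s = cls n q s' ↔ IsoL q s s' := by
  classical
  constructor
  · intro h
    have : s' ∈ cls n q s' := Finset.mem_filter.mpr ⟨hs', IsoL.refl _⟩
    rw [← h] at this
    exact (Finset.mem_filter.mp this).2
  · intro h
    ext z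
    simp only [cls, Finset.mem_filter]
    exact ⟨fun hz => ⟨hz.1, h.symm.trans hz.2⟩, fun hz => ⟨hz.1, h.trans hz.2⟩⟩

theorem card_image_cls_le {n q : ℕ} [NeZero q] (hn : 0 < n) (Bd : Finset (Fin n → ℕ))
    (hsub : Bd ⊆ SS n q) (hsc : ∀ s ∈ Bd, ∀ t : (ZMod q)ˣ, scale t s ∈ Bd) :
    q.totient * (Bd.image (cls n q)).card ≤ Bd.card := by
  classical
  apply Finset.mul_card_image_le_card
  intro c hc
  obtain ⟨s, hs, rfl⟩ := Finset.mem_image.mp hc
  have h1 : ((Finset.univ : Finset (ZMod q)ˣ).image (fun t => scale t s)) ⊆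
      Bd.filter (fun x => cls n q x = cls n q s) := by
    intro z hz
    obtain ⟨t, _, rfl⟩ := Finset.mem_image.mp hz
    rw [Finset.mem_filter]
    refine ⟨hsc s hs t, ?_⟩
    rw [cls_eq_iff _ _ (hsub hs)]
    exact (scale_iso t s).symm
  have h2 := Finset.card_le_card h1
  rw [Finset.card_image_of_injective _ (scale_injective hn s (hsub hs)), Finset.card_univ,
    ZMod.card_units_eq_totient] at h2
  exact h2

theorem card_SS_le {n q : ℕ} [NeZero q] :
    (SS n q).card ≤ (n.factorial * 2 ^ n * q.totient) * ((SS n q).image (cls n q)).card := by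
  classical
  apply Finset.card_le_mul_card_image
  intro c hc
  obtain ⟨s, hs, rfl⟩ := Finset.mem_image.mp hc
  let g : Equiv.Perm (Fin n) × (Fin n → Bool) × (ZMod q)ˣ → (Fin n → ℕ) := fun y j =>
    (if y.2.1 j then ((y.2.2 : ZMod q) * (s (y.1 j) : ZMod q)) else
      -((y.2.2 : ZMod q) * (s (y.1 j) : ZMod q))).val
  have h1 : (SS n q).filter (fun x => cls n q x = cls n q s) ⊆ Finset.univ.image g := by
    intro z hz
    rw [Finset.mem_filter] at hz
    rw [cls_eq_iff _ _ hs] at hz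
    obtain ⟨σ, t, h⟩ := (isoL_iff _ _).mp hz.2.symm
    rw [Finset.mem_image]
    refine ⟨(σ, fun j => decide ((z j : ZMod q) = t * (s (σ j) : ZMod q)), t), Finset.mem_univ _, ?_⟩
    funext j
    simp only [g]
    have hzj : z j = ((z j : ℕ) : ZMod q).val := by
      rw [ZMod.val_natCast, Nat.mod_eq_of_lt (((mem_SS z).mp hz.1) j).1]
    by_cases h1 : (z j : ZMod q) = t * (s (σ j) : ZMod q)
    · simp only [h1, decide_true, if_true]
      rw [← h1]
      exact hzj.symm
    · simp only [h1, decide_false, Bool.false_eq_true, if_false]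
      have h2 := (h j).resolve_left h1
      rw [← h2]
      exact hzj.symm
  have h2 := (Finset.card_le_card h1).trans Finset.card_image_le
  rw [Finset.card_univ, Fintype.card_prod, Fintype.card_prod, Fintype.card_perm, Fintype.card_fin,
    Fintype.card_fun, Fintype.card_bool, Fintype.card_fin, ZMod.card_units_eq_totient] at h2
  rw [mul_assoc]
  exact h2

end Pool.Agent.Helper477
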