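import Mathlib
import Pool.Agent.Helper477.Classes

set_option autoImplicit false

namespace Pool.Agent.Helper477
open Finset

open Classical in
theorem nu_le {α β : Type*} [DecidableEq β] (S Bd : Finset α) (c : α → β)
    (Iso Spc : α → α → Prop)
    (hcls : ∀ s ∈ S, ∀ s' ∈ S, c s = c s' ↔ Iso s s')
    (hsymm : ∀ s s', Spc s s' → Spc s' s) (htrans : ∀ s s' s'', Spc s s' → Spc s' s'' → Spc s s'')
    (hIS : ∀ s s', Iso s s' → Spc s s')
    (hgood : ∀ s ∈ S, ∀ s' ∈ S, s ∉ Bd → s' ∉ Bd → Spc s s' → Iso s s') :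
    ((S.filter (fun s => ¬ ∀ s' ∈ S, Spc s s' → Iso s s')).image c).card ≤
      2 * (Bd.image c).card := by
  set NU := S.filter (fun s => ¬ ∀ s' ∈ S, Spc s s' → Iso s s') with hNU
  have hf : ∀ s, ∃ s', s ∈ NU → s' ∈ S ∧ Spc s s' ∧ ¬ Iso s s' := by
    intro s
    by_cases hs : s ∈ NU
    · rw [hNU, Finset.mem_filter] at hs
      have h2 := hs.2
      push Not at h2
      obtain ⟨s', h1, h2, h3⟩ := h2
      exact ⟨s', fun _ => ⟨h1, h2, h3⟩⟩
    · exact ⟨s, fun h => absurd h hs⟩
  choose f hf using hf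
  by_cases hne : S = ∅
  · have : NU = ∅ := by rw [hNU, hne]; simp
    rw [this]; simp
  obtain ⟨s0, hs0⟩ := Finset.nonempty_iff_ne_empty.mpr hne
  have hr : ∀ z : β, ∃ s, z ∈ NU.image c → s ∈ NU ∧ c s = z := by
    intro z
    by_cases hz : z ∈ NU.image c
    · obtain ⟨s, h1, h2⟩ := Finset.mem_image.mp hz
      exact ⟨s, fun _ => ⟨h1, h2⟩⟩
    · exact ⟨s0, fun h => absurd h hz⟩
  choose r hr using hr
  set A := NU.image c with hA
  have hNUS : ∀ s ∈ NU, s ∈ S := fun s hs => (Finset.mem_filter.mp hs).1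
  have h1 : (A.filter (fun z => z ∈ Bd.image c)).card ≤ (Bd.image c).card := by
    apply Finset.card_le_card
    intro z hz
    exact (Finset.mem_filter.mp hz).2
  have h2 : (A.filter (fun z => z ∉ Bd.image c)).card ≤ (Bd.image c).card := by
    have hgoodr : ∀ z ∈ A.filter (fun z => z ∉ Bd.image c), r z ∉ Bd := by
      intro z hz hcon
      rw [Finset.mem_filter] at hz
      apply hz.2
      rw [← (hr z hz.1).2]
      exact Finset.mem_image_of_mem c hcon
    have hbadf : ∀ z ∈ A.filter (fun z => z ∉ Bd.image c), f (r z) ∈ Bd := by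
      intro z hz
      have hg := hgoodr z hz
      rw [Finset.mem_filter] at hz
      have h3 := (hr z hz.1).1
      have h4 := hf (r z) h3
      by_contra hcon
      exact h4.2.2 (hgood _ (hNUS _ h3) _ h4.1 hg hcon h4.2.1)
    apply Finset.card_le_card_of_injOn (fun z => c (f (r z)))
    · intro z hz
      exact Finset.mem_image_of_mem c (hbadf z hz)
    · intro z hz z' hz' heq
      have hz1 := hz
      have hz1' := hz'
      rw [Finset.mem_coe] at hz hz'
      have g1 := hgoodr z hz
      have g1' := hgoodr z' hz'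
      rw [Finset.mem_filter] at hz hz'
      have h3 := hr z hz.1
      have h3' := hr z' hz'.1
      have h4 := hf (r z) h3.1
      have h4' := hf (r z') h3'.1
      simp only at heq
      rw [hcls _ h4.1 _ h4'.1] at heq
      have h5 : Spc (r z) (r z') :=
        htrans _ _ _ (htrans _ _ _ h4.2.1 (hIS _ _ heq)) (hsymm _ _ h4'.2.1)
      have h6 := hgood _ (hNUS _ h3.1) _ (hNUS _ h3'.1) g1 g1' h5
      rw [← hcls _ (hNUS _ h3.1) _ (hNUS _ h3'.1)] at h6
      rw [← h3.2, ← h3'.2, h6]
  have h3 := Finset.card_filter_add_card_filter_not (s := A) (fun z => z ∈ Bd.image c)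
  omega

open Classical in
/-- number of classes that are not spectrally unique -/
noncomputable def NU (n q : ℕ) : ℕ :=
  (((SS n q).filter (fun s => ¬ ∀ s' ∈ SS n q, SpcL q s s' → IsoL q s s')).image (cls n q)).card

open Classical in
/-- number of classes -/
noncomputable def LL (n q : ℕ) : ℕ := ((SS n q).image (cls n q)).card

theorem NU_le_LL (n q : ℕ) : NU n q ≤ LL n q := by
  classical
  exact Finset.card_le_card (Finset.image_subset_image (Finset.filter_subset _ _))

open Classical in
/-- the bad parameters -/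
noncomputable def BadS (n B p q : ℕ) : Finset (Fin n → ℕ) :=
  (SS n q).filter (fun s => ¬ (Gen1 B (fun j => (s j : ZMod p)) ∧ Gen2 (fun j => (s j : ZMod p))))

theorem BadS_scale {n B p q : ℕ} [Fact p.Prime] [NeZero q] (hpq : p ∣ q) (s : Fin n → ℕ)
    (hs : s ∈ BadS n B p q) (t : (ZMod q)ˣ) : scale t s ∈ BadS n B p q := by
  classical
  rw [BadS, Finset.mem_filter] at hs ⊢
  refine ⟨scale_mem t s hs.1, ?_⟩
  set z : ZMod p := ZMod.castHom hpq (ZMod p) t with hz
  have hz0 : z ≠ 0 := by
    have : IsUnit z := t.isUnit.map (ZMod.castHom hpq (ZMod p))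
    exact this.ne_zero
  have hcast : ∀ j, ((scale t s j : ℕ) : ZMod p) = z * (s j : ZMod p) := by
    intro j
    have h1 := congrArg (ZMod.castHom hpq (ZMod p)) (scale_cast t s j)
    rw [map_mul, map_natCast, map_natCast] at h1
    exact h1
  intro hcon
  apply hs.2
  obtain ⟨h1, h2⟩ := hcon
  constructor
  · intro k0 k hk0 hk hrel
    apply h1 k0 k hk0 hk
    rw [← hrel]
    congr 1
    refine Finset.sum_congr rfl fun x _ => ?_
    simp only [hcast, mul_inv]
    have : z * z⁻¹ = 1 := mul_inv_cancel₀ hz0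
    linear_combination ((k x : ZMod p) * (s x.1.1 : ZMod p) * (s x.1.2 : ZMod p)⁻¹) * this
  · intro a c f b d e h
    apply h2
    simp only [hcast]
    rcases h with h | h
    · left
      linear_combination (z * z * z) * h
    · right
      linear_combination (z * z * z) * h

theorem card_BadS_le {n B p q a : ℕ} [Fact p.Prime] (ha : 0 < a) (hq : q = a * p)
    (hcop : Nat.Coprime a p) (C : ℕ)
    (hC : ∀ Bad : Finset (Fin n → ZMod p),
      (∀ w ∈ Bad, (∀ j, w j ≠ 0) ∧ ¬ (Gen1 B w ∧ Gen2 w)) → Bad.card * p ≤ C * p ^ n) :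
    (BadS n B p q).card * p ≤ a.totient ^ n * (C * p ^ n) := by
  classical
  have hp : p.Prime := Fact.out
  let Bad : Finset (Fin n → ZMod p) :=
    Finset.univ.filter (fun w => (∀ j, w j ≠ 0) ∧ ¬ (Gen1 B w ∧ Gen2 w))
  have h1 : (BadS n B p q).card ≤ ((SS n a) ×ˢ Bad).card := by
    apply Finset.card_le_card_of_injOn (fun s => ((fun j => s j % a), (fun j => (s j : ZMod p))))
    · intro s hs
      rw [Finset.mem_coe, BadS, Finset.mem_filter, mem_SS] at hs
      rw [Finset.mem_coe, Finset.mem_product, mem_SS, Finset.mem_filter]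
      have hc : ∀ j, Nat.Coprime (s j) a ∧ Nat.Coprime (s j) p := by
        intro j
        have := (hs.1 j).2
        rw [hq] at this
        exact ⟨Nat.Coprime.coprime_mul_right_right this, Nat.Coprime.coprime_mul_left_right this⟩
      refine ⟨fun j => ⟨Nat.mod_lt _ ha, ?_⟩, Finset.mem_univ _, ?_, hs.2⟩
      · rw [Nat.Coprime, ← Nat.gcd_rec, Nat.gcd_comm]
        exact (hc j).1
      · intro j h0
        simp only at h0
        rw [ZMod.natCast_eq_zero_iff] at h0
        have := (hc j).2
        rw [Nat.coprime_comm, hp.coprime_iff_not_dvd] at this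
        exact this h0
    · intro s hs s' hs' heq
      rw [Finset.mem_coe, BadS, Finset.mem_filter, mem_SS] at hs hs'
      simp only [Prod.mk.injEq] at heq
      funext j
      have e1 : s j ≡ s' j [MOD a] := congrFun heq.1 j
      have e2 : s j ≡ s' j [MOD p] := (ZMod.natCast_eq_natCast_iff _ _ _).mp (congrFun heq.2 j)
      have e3 : s j ≡ s' j [MOD q] := by
        rw [hq]
        exact (Nat.modEq_and_modEq_iff_modEq_mul hcop).mp ⟨e1, e2⟩
      exact Nat.ModEq.eq_of_lt_of_lt e3 (hs.1 j).1 (hs'.1 j).1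
  rw [Finset.card_product, card_SS] at h1
  have h2 := hC Bad (by
    intro w hw
    exact (Finset.mem_filter.mp hw).2)
  calc (BadS n B p q).card * p ≤ a.totient ^ n * Bad.card * p := Nat.mul_le_mul_right _ h1
    _ = a.totient ^ n * (Bad.card * p) := by ring
    _ ≤ a.totient ^ n * (C * p ^ n) := Nat.mul_le_mul_left _ h2

/-- the bound for moduli with a large prime factor dividing exactly once -/
theorem NU_bound (m : ℕ) : ∃ C p0 : ℕ, ∀ p : ℕ, p.Prime → p0 ≤ p → ∀ q a : ℕ, 0 < a → q = a * p →
    Nat.Coprime a p → NU (m + 1) q * (p - 1) ≤ C * q ^ m := by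
  classical
  obtain ⟨B, p1, hp1, hiso⟩ := iso_of_spec (m + 1)
  obtain ⟨C, hC⟩ := bad_count (m + 1) B
  refine ⟨2 * C, p1 + B + 1, ?_⟩
  intro p hp hp0 q a ha hq hcop
  have hfact := Fact.mk hp
  have hq0 : q ≠ 0 := by rw [hq]; exact Nat.mul_ne_zero ha.ne' hp.ne_zero
  have : NeZero q := ⟨hq0⟩
  have hpq : p ∣ q := ⟨a, by rw [hq, mul_comm]⟩
  have hcard := card_BadS_le (n := m + 1) (B := B) (q := q) ha hq hcop C
    (fun Bad hBad => hC p hfact (by omega) Bad hBad)
  have himg := card_image_cls_le (n := m + 1) (q := q) (Nat.succ_pos m) (BadS (m + 1) B p q)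
    (Finset.filter_subset _ _) (fun s hs t => BadS_scale hpq s hs t)
  have hnu : NU (m + 1) q ≤ 2 * ((BadS (m + 1) B p q).image (cls (m + 1) q)).card := by
    unfold NU
    convert nu_le (SS (m + 1) q) (BadS (m + 1) B p q) (cls (m + 1) q)
      (IsoL q) (SpcL q) ?_ ?_ ?_ ?_ ?_
    · intro s _ s' hs'; exact cls_eq_iff s s' hs'
    · intro s s' h k; exact (h k).symm
    · intro s s' s'' h h' k; exact (h k).trans (h' k)
    · intro s s' h; exact h.spc
    · intro s hs s' hs' hb hb' hspec
      have hg : Gen1 B (fun j => (s j : ZMod p)) ∧ Gen2 (fun j => (s j : ZMod p)) := by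
        by_contra hcon
        exact hb (Finset.mem_filter.mpr ⟨hs, hcon⟩)
      have hg' : Gen1 B (fun j => (s' j : ZMod p)) ∧ Gen2 (fun j => (s' j : ZMod p)) := by
        by_contra hcon
        exact hb' (Finset.mem_filter.mpr ⟨hs', hcon⟩)
      rw [mem_SS] at hs hs'
      let u : Fin (m + 1) → (ZMod q)ˣ := fun j => ZMod.unitOfCoprime (s j) (hs j).2
      let u' : Fin (m + 1) → (ZMod q)ˣ := fun j => ZMod.unitOfCoprime (s' j) (hs' j).2
      have hu : ∀ j, (u j : ZMod q) = s j := fun j => ZMod.coe_unitOfCoprime _ _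
      have hu' : ∀ j, (u' j : ZMod q) = s' j := fun j => ZMod.coe_unitOfCoprime _ _
      have hcast : (fun j => ZMod.castHom hpq (ZMod p) (u j)) = (fun j => (s j : ZMod p)) := by
        funext j; rw [hu, map_natCast]
      have hcast' : (fun j => ZMod.castHom hpq (ZMod p) (u' j)) = (fun j => (s' j : ZMod p)) := by
        funext j; rw [hu', map_natCast]
      obtain ⟨σ, t, h⟩ := hiso p hp (by omega) q a ha hq hcop hpq s' s u' u hu' hu
        (by rw [hcast']; exact hg'.1) (by rw [hcast]; exact hg.1) (by rw [hcast]; exact hg.2)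
        (fun k => (hspec k).symm)
      rw [isoL_iff]
      refine ⟨σ, t, fun j => ?_⟩
      rcases h j with h1 | h1
      · left
        have := congrArg (fun z : (ZMod q)ˣ => (z : ZMod q)) h1
        simpa [hu, hu'] using this
      · right
        have := congrArg (fun z : (ZMod q)ˣ => (z : ZMod q)) h1
        simpa [hu, hu'] using this
  -- arithmetic
  set bc := ((BadS (m + 1) B p q).image (cls (m + 1) q)).card with hbc
  have htot : q.totient = a.totient * (p - 1) := by
    rw [hq, Nat.totient_mul hcop, Nat.totient_prime hp]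
  have ht0 : 0 < a.totient := Nat.totient_pos.mpr ha
  have h3 : a.totient * p * ((p - 1) * bc) ≤ a.totient * p * (C * q ^ m) := by
    calc a.totient * p * ((p - 1) * bc) = (q.totient * bc) * p := by rw [htot]; ring
      _ ≤ (BadS (m + 1) B p q).card * p := Nat.mul_le_mul_right _ himg
      _ ≤ a.totient ^ (m + 1) * (C * p ^ (m + 1)) := hcard
      _ = a.totient * (a.totient ^ m * (C * p ^ (m + 1))) := by ring
      _ ≤ a.totient * (a ^ m * (C * p ^ (m + 1))) := by
          apply Nat.mul_le_mul_left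
          apply Nat.mul_le_mul_right
          exact Nat.pow_le_pow_left (Nat.totient_le a) m
      _ = a.totient * p * (C * q ^ m) := by rw [hq]; ring
  have h4 : (p - 1) * bc ≤ C * q ^ m :=
    Nat.le_of_mul_le_mul_left h3 (Nat.mul_pos ht0 hp.pos)
  calc NU (m + 1) q * (p - 1) ≤ (2 * bc) * (p - 1) := Nat.mul_le_mul_right _ hnu
    _ = 2 * ((p - 1) * bc) := by ring
    _ ≤ 2 * (C * q ^ m) := Nat.mul_le_mul_left _ h4
    _ = 2 * C * q ^ m := by ring

end Pool.Agent.Helper477
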