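import Mathlib

set_option autoImplicit false

open MeasureTheory Set Metric Real

namespace Pool.Agent.Helper477.Circle

abbrev E := EuclideanSpace ℝ (Fin 2)

/-- general disc or half-plane -/
def Reg (a b : ℝ) (v : E) : Set E := {x | a * ‖x‖ ^ 2 + b < inner ℝ x v}

lemma isOpen_Reg (a b : ℝ) (v : E) : IsOpen (Reg a b v) := by
  unfold Reg
  apply isOpen_lt <;> fun_prop

lemma ball_eq (p : E) {r : ℝ} (hr : 0 < r) :
    ball p r = Reg 1 (‖p‖ ^ 2 - r ^ 2) ((2 : ℝ) • p) := by
  ext x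
  simp only [mem_ball, dist_eq_norm, Reg, mem_ofPred_eq, inner_smul_right]
  have h : ‖x - p‖ ^ 2 = ‖x‖ ^ 2 - 2 * inner ℝ x p + ‖p‖ ^ 2 := norm_sub_sq_real x p
  constructor
  · intro hx
    have : ‖x - p‖ ^ 2 < r ^ 2 := by
      have h0 := norm_nonneg (x - p)
      nlinarith
    linarith
  · intro hx
    have : ‖x - p‖ ^ 2 < r ^ 2 := by linarith
    exact lt_of_pow_lt_pow_left₀ 2 hr.le this

lemma half_eq (v : E) (c : ℝ) : {x : E | inner ℝ v x < c} = Reg 0 (-c) (-v) := by
  ext x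
  simp only [mem_ofPred_eq, Reg, inner_neg_right, real_inner_comm v x]
  constructor <;> intro h <;> linarith

/-- first basis vector -/
noncomputable def e0 : E := EuclideanSpace.single 0 (1 : ℝ)

lemma inner_e0 (x : E) : inner ℝ x e0 = x 0 := by
  simp [e0, EuclideanSpace.inner_single_right]

lemma norm_e0 : ‖e0‖ = 1 := by simp [e0]

lemma norm_sq (x : E) : ‖x‖ ^ 2 = x 0 ^ 2 + x 1 ^ 2 := by
  rw [EuclideanSpace.real_norm_sq_eq]
  simp [Fin.sum_univ_two]

/-- an isometry carrying `v` to a vector of the same norm -/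
lemma exists_isom (v w : E) (h : ‖v‖ = ‖w‖) : ∃ L : E ≃ₗᵢ[ℝ] E, L v = w :=
  ⟨_, Submodule.reflection_sub h⟩

lemma vol_isom (L : E ≃ₗᵢ[ℝ] E) (A : Set E) (hA : MeasurableSet A) :
    volume (L ⁻¹' A) = volume A :=
  L.measurePreserving.measure_preimage hA.nullMeasurableSet

/-- radial set -/
def Rad (J : Set ℝ) : Set E := {x | ‖x‖ ∈ J}

lemma measurableSet_Rad {J : Set ℝ} (hJ : MeasurableSet J) : MeasurableSet (Rad J) :=
  measurable_norm hJ

lemma vol_rot (J : Set ℝ) (hJ : MeasurableSet J) (a b : ℝ) (v : E) :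
    volume (Rad J ∩ Reg a b v) = volume (Rad J ∩ Reg a b (‖v‖ • e0)) := by
  obtain ⟨L, hL⟩ := exists_isom v (‖v‖ • e0) (by rw [norm_smul, norm_e0]; simp)
  rw [← vol_isom L (Rad J ∩ Reg a b (‖v‖ • e0))
    ((measurableSet_Rad hJ).inter (isOpen_Reg _ _ _).measurableSet)]
  congr 1
  ext x
  simp only [Rad, Reg, mem_inter_iff, mem_ofPred_eq, mem_preimage, L.norm_map]
  rw [← hL, L.inner_map_map]

/-! ### The sector -/

def A2 : Set E := Rad (Icc 4 5)

def Sec : Set E := {x | x ∈ A2 ∧ ‖x‖ / 2 ≤ x 0}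

lemma cont_coord (i : Fin 2) : Continuous (fun x : E => x i) := by fun_prop

lemma isClosed_Sec : IsClosed Sec := by
  apply IsClosed.inter
  · exact isClosed_Icc.preimage continuous_norm
  · exact isClosed_le (by fun_prop) (cont_coord 0)

noncomputable def u1 : E := !₂[-1 / 2, √3 / 2]
noncomputable def u2 : E := !₂[-1 / 2, -(√3 / 2)]

lemma norm_u1 : ‖u1‖ = 1 := by
  have h : ‖u1‖ ^ 2 = 1 := by
    rw [norm_sq]
    simp [u1]
    ring_nf
    rw [Real.sq_sqrt (by norm_num)]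
    norm_num
  have h0 := norm_nonneg u1
  nlinarith

lemma norm_u2 : ‖u2‖ = 1 := by
  have h : ‖u2‖ ^ 2 = 1 := by
    rw [norm_sq]
    simp [u2]
    ring_nf
    rw [Real.sq_sqrt (by norm_num)]
    norm_num
  have h0 := norm_nonneg u2
  nlinarith

lemma inner_u1 (x : E) : inner ℝ x u1 = -(1 / 2) * x 0 + √3 / 2 * x 1 := by
  simp [PiLp.inner_apply, Fin.sum_univ_two, u1]
  ring

lemma inner_u2 (x : E) : inner ℝ x u2 = -(1 / 2) * x 0 - √3 / 2 * x 1 := by
  simp [PiLp.inner_apply, Fin.sum_univ_two, u2]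
  ring

lemma cover (x : E) : ‖x‖ / 2 ≤ x 0 ∨ ‖x‖ / 2 ≤ inner ℝ x u1 ∨ ‖x‖ / 2 ≤ inner ℝ x u2 := by
  by_contra hcon
  push Not at hcon
  obtain ⟨h0, h1, h2⟩ := hcon
  rw [inner_u1] at h1
  rw [inner_u2] at h2
  have hs : √3 ^ 2 = 3 := Real.sq_sqrt (by norm_num)
  have hn := norm_sq x
  have hn0 := norm_nonneg x
  have p1 : 0 < ‖x‖ / 2 - x 0 := by linarith
  have p2 : 0 < (‖x‖ / 2 + 1 / 2 * x 0 - √3 / 2 * x 1) * (‖x‖ / 2 + 1 / 2 * x 0 + √3 / 2 * x 1) :=
    mul_pos (by linarith) (by linarith)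
  have e2 : (‖x‖ / 2 + 1 / 2 * x 0 - √3 / 2 * x 1) * (‖x‖ / 2 + 1 / 2 * x 0 + √3 / 2 * x 1)
      = - ((‖x‖ / 2 - x 0) * (‖x‖ + x 0)) := by
    have : x 1 ^ 2 = ‖x‖ ^ 2 - x 0 ^ 2 := by linarith
    ring_nf
    rw [hs, this]
    ring
  have h3 : 0 ≤ ‖x‖ + x 0 := by
    have : |x 0| ≤ ‖x‖ := abs_le_of_sq_le_sq (by nlinarith [sq_nonneg (x 1)]) hn0
    linarith [neg_abs_le (x 0)]
  nlinarith [mul_nonneg p1.le h3]

lemma vol_sec_ge : volume A2 ≤ 3 * volume Sec := by
  have key : ∀ u : E, ‖u‖ = 1 → volume {x : E | x ∈ A2 ∧ ‖x‖ / 2 ≤ inner ℝ x u} = volume Sec := by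
    intro u hu
    obtain ⟨L, hL⟩ := exists_isom u e0 (by rw [hu, norm_e0])
    rw [← vol_isom L Sec isClosed_Sec.measurableSet]
    congr 1
    ext x
    simp only [Sec, A2, Rad, mem_ofPred_eq, mem_preimage, L.norm_map]
    rw [← inner_e0 (L x), ← hL, L.inner_map_map]
  have h : A2 ⊆ Sec ∪ ({x : E | x ∈ A2 ∧ ‖x‖ / 2 ≤ inner ℝ x u1} ∪
      {x : E | x ∈ A2 ∧ ‖x‖ / 2 ≤ inner ℝ x u2}) := by
    intro x hx
    rcases cover x with h | h | h
    · exact Or.inl ⟨hx, h⟩
    · exact Or.inr (Or.inl ⟨hx, h⟩)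
    · exact Or.inr (Or.inr ⟨hx, h⟩)
  calc volume A2 ≤ _ := measure_mono h
    _ ≤ volume Sec + (volume {x : E | x ∈ A2 ∧ ‖x‖ / 2 ≤ inner ℝ x u1} +
      volume {x : E | x ∈ A2 ∧ ‖x‖ / 2 ≤ inner ℝ x u2}) :=
        (measure_union_le _ _).trans (by gcongr; exact measure_union_le _ _)
    _ = 3 * volume Sec := by
      rw [key u1 norm_u1, key u2 norm_u2]; ring

lemma vol_A2_ne_top : volume A2 ≠ ⊤ := by
  have : A2 ⊆ closedBall (0 : E) 5 := by
    intro x hx
    simp only [A2, Rad, mem_ofPred_eq, mem_Icc] at hx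
    simpa using hx.2
  exact ne_top_of_le_ne_top measure_closedBall_lt_top.ne (measure_mono this)

lemma vol_A2_pos : 0 < volume A2 := by
  have h : IsOpen {x : E | 4 < ‖x‖ ∧ ‖x‖ < 5} :=
    (isOpen_lt continuous_const continuous_norm).inter (isOpen_lt continuous_norm continuous_const)
  have h2 : ({x : E | 4 < ‖x‖ ∧ ‖x‖ < 5}).Nonempty := by
    refine ⟨(4.5 : ℝ) • e0, ?_⟩
    simp only [mem_ofPred_eq, norm_smul, norm_e0]
    norm_num
  refine lt_of_lt_of_le (h.measure_pos volume h2) (measure_mono ?_)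
  intro x hx
  exact ⟨hx.1.le, hx.2.le⟩

/-- a region covering the sector cuts off more than one third -/
lemma sector {S : Set E} (hS : IsOpen S) (hsec : Sec ⊆ S) :
    volume (A2 ∩ S) ≠ volume A2 / 3 := by
  intro heq
  -- the point on the boundary ray
  set p : ℝ → E := fun t => !₂[2.25 - t, 2.25 * √3] with hp
  have hpc : Continuous p := by
    rw [hp]
    refine (PiLp.continuous_toLp 2 _).comp ?_
    refine continuous_pi fun i => ?_
    fin_cases i
    · simp; fun_prop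
    · simp; fun_prop
  have hpn : ∀ t, ‖p t‖ ^ 2 = 20.25 - 4.5 * t + t ^ 2 := by
    intro t
    rw [norm_sq]
    simp [hp]
    have hs : √3 ^ 2 = 3 := Real.sq_sqrt (by norm_num)
    ring_nf
    rw [hs]
    ring
  have hp0 : ∀ t, p t 0 = 2.25 - t := fun t => by simp [hp]
  have hnp0 : ‖p 0‖ = 4.5 := by
    have h1 := hpn 0
    have h2 := norm_nonneg (p 0)
    nlinarith
  have hmem : p 0 ∈ S := by
    apply hsec
    refine ⟨⟨by rw [hnp0]; norm_num, by rw [hnp0]; norm_num⟩, ?_⟩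
    rw [hnp0, hp0]; norm_num
  set W : Set E := S ∩ {x : E | 4 < ‖x‖ ∧ ‖x‖ < 5} with hW
  have hWo : IsOpen W := hS.inter ((isOpen_lt continuous_const continuous_norm).inter
    (isOpen_lt continuous_norm continuous_const))
  have hWp : p 0 ∈ W := ⟨hmem, by rw [mem_ofPred_eq, hnp0]; norm_num⟩
  have hWo' : IsOpen (p ⁻¹' W) := hWo.preimage hpc
  obtain ⟨δ, hδ, hball⟩ := Metric.isOpen_iff.1 hWo' 0 hWp
  set t : ℝ := min (δ / 2) 1 with ht
  have ht0 : 0 < t := lt_min (by linarith) one_pos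
  have ht1 : t ≤ 1 := min_le_right _ _
  have htd : t < δ := lt_of_le_of_lt (min_le_left _ _) (by linarith)
  have htW : p t ∈ W := by
    apply hball
    rw [mem_ball, dist_zero_right, Real.norm_of_nonneg ht0.le]
    exact htd
  -- the open set
  set O : Set E := W ∩ {x : E | x 0 < ‖x‖ / 2} with hO
  have hOo : IsOpen O := hWo.inter (isOpen_lt (cont_coord 0) (by fun_prop))
  have hOne : O.Nonempty := by
    refine ⟨p t, htW, ?_⟩
    rw [mem_ofPred_eq, hp0]
    have h1 := hpn t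
    have h2 := norm_nonneg (p t)
    by_contra hcon
    push Not at hcon
    have : ‖p t‖ ^ 2 ≤ (2 * (2.25 - t)) ^ 2 := by
      apply pow_le_pow_left₀ h2
      linarith
    nlinarith
  have hOpos := hOo.measure_pos volume hOne
  have hsub : Sec ∪ O ⊆ A2 ∩ S := by
    rintro x (hx | hx)
    · exact ⟨hx.1, hsec hx⟩
    · exact ⟨⟨hx.1.2.1.le, hx.1.2.2.le⟩, hx.1.1⟩
  have hdisj : Disjoint Sec O := by
    rw [Set.disjoint_left]
    intro x hx hx'
    have := hx'.2
    rw [mem_ofPred_eq] at this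
    exact absurd hx.2 (not_le.2 this)
  have h1 : volume Sec + volume O ≤ volume A2 / 3 := by
    rw [← heq, ← measure_union hdisj hOo.measurableSet]
    exact measure_mono hsub
  have h2 : volume A2 / 3 ≤ volume Sec := by
    rw [ENNReal.div_le_iff' (by norm_num) (by norm_num)]
    exact vol_sec_ge
  have h3 : volume Sec ≠ ⊤ :=
    ne_top_of_le_ne_top vol_A2_ne_top (measure_mono fun x hx => hx.1)
  have h4 : volume Sec + volume O ≤ volume Sec + 0 := by
    rw [add_zero]; exact h1.trans h2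
  have h5 := (ENNReal.add_le_add_iff_left h3).1 h4
  exact absurd hOpos (not_lt.2 h5)

/-! ### The other set -/

noncomputable def RR : ℝ := √678.05

lemma RR_sq : RR ^ 2 = 678.05 := Real.sq_sqrt (by norm_num)
lemma RR_pos : 0 < RR := Real.sqrt_pos.2 (by norm_num)
lemma RR_gt : 26 < RR := by
  have := RR_sq
  have := RR_pos
  nlinarith

def Cen : Set E := Rad (Iio 1)
noncomputable def Out : Set E := Rad (Ico 26 RR)
noncomputable def A1 : Set E := Rad (Iio 1 ∪ Ico 26 RR)

lemma A1_eq : A1 = Cen ∪ Out := by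
  ext x; simp [A1, Cen, Out, Rad]

lemma Cen_eq : Cen = ball (0 : E) 1 := by
  ext x; simp [Cen, Rad]

lemma Out_eq : Out = ball (0 : E) RR \ ball (0 : E) 26 := by
  ext x; simp [Out, Rad, and_comm]

lemma disj : Disjoint Cen Out := by
  rw [Set.disjoint_left]
  intro x hx hx'
  simp only [Cen, Out, Rad, mem_ofPred_eq, mem_Iio, mem_Ico] at hx hx'
  linarith [hx'.1]

lemma meas_Cen : MeasurableSet Cen := measurableSet_Rad measurableSet_Iio
lemma meas_Out : MeasurableSet Out := measurableSet_Rad measurableSet_Ico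
lemma meas_A1 : MeasurableSet A1 := measurableSet_Rad (measurableSet_Iio.union measurableSet_Ico)
lemma meas_A2 : MeasurableSet A2 := measurableSet_Rad measurableSet_Icc

lemma vol_Cen : volume Cen = ENNReal.ofReal π := by
  rw [Cen_eq, EuclideanSpace.volume_ball_fin_two]
  simp

lemma vol_Out : volume Out = ENNReal.ofReal (2.05 * π) := by
  rw [Out_eq, measure_sdiff (ball_subset_ball RR_gt.le) measurableSet_ball.nullMeasurableSet
    measure_ball_lt_top.ne, EuclideanSpace.volume_ball_fin_two, EuclideanSpace.volume_ball_fin_two,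
    ← ENNReal.ofReal_pow RR_pos.le, ← ENNReal.ofReal_pow (by norm_num), RR_sq,
    ← ENNReal.ofReal_mul (by norm_num), ← ENNReal.ofReal_mul (by norm_num),
    ← ENNReal.ofReal_sub _ (by positivity)]
  congr 1
  ring

lemma vol_A1 : volume A1 = ENNReal.ofReal (3.05 * π) := by
  rw [A1_eq, measure_union disj meas_Out, vol_Cen, vol_Out,
    ← ENNReal.ofReal_add Real.pi_pos.le (by positivity)]
  congr 1
  ring

/-- rectangle -/
def Box : Set E := {x | |x 0| ≤ 1 ∧ 26 ≤ x 1 ∧ x 1 ≤ 26.02}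

lemma vol_Box : volume Box = ENNReal.ofReal 0.04 := by
  have h : Box = (@WithLp.ofLp 2 (Fin 2 → ℝ)) ⁻¹' (Icc ![-1, 26] ![1, 26.02]) := by
    ext x
    simp only [Box, mem_ofPred_eq, mem_preimage, mem_Icc, Pi.le_def, Fin.forall_fin_two, abs_le]
    simp
    tauto
  rw [h, (PiLp.volume_preserving_ofLp (Fin 2)).measure_preimage
    measurableSet_Icc.nullMeasurableSet, Real.volume_Icc_pi, Fin.prod_univ_two,
    ← ENNReal.ofReal_mul (by norm_num)]
  congr 1
  norm_num

lemma meas_Box : MeasurableSet Box := by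
  have h : IsClosed Box := by
    apply IsClosed.inter
    · exact isClosed_le (cont_coord 0).abs continuous_const
    · exact (isClosed_le continuous_const (cont_coord 1)).inter
        (isClosed_le (cont_coord 1) continuous_const)
  exact h.measurableSet

lemma Box_sub {x : E} (hx : x ∈ Box) : x ∈ Out ∧ |x 0| ≤ 1 := by
  obtain ⟨h0, h1, h2⟩ := hx
  refine ⟨?_, h0⟩
  have hn := norm_sq x
  have hn0 := norm_nonneg x
  have h3 : x 0 ^ 2 ≤ 1 := by
    have := abs_le.1 h0
    nlinarith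
  constructor
  · by_contra hcon
    push Not at hcon
    nlinarith [sq_nonneg (x 0)]
  · have h4 : ‖x‖ ^ 2 < RR ^ 2 := by
      rw [RR_sq, hn]; nlinarith
    exact lt_of_pow_lt_pow_left₀ 2 RR_pos.le h4

/-- the part of the outer ring beyond a line -/
def P : Set E := {x | x ∈ Out ∧ 2 < x 0}

lemma meas_P : MeasurableSet P :=
  meas_Out.inter (isOpen_lt continuous_const (cont_coord 0)).measurableSet

lemma vol_neg (A : Set E) : volume {x : E | -x ∈ A} = volume A :=
  Measure.measure_preimage_neg volume A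

lemma vol_P : 2 * volume P + 2 * volume Box ≤ volume Out := by
  have e1 : volume {x : E | -x ∈ P} = volume P := vol_neg P
  have e2 : volume {x : E | -x ∈ Box} = volume Box := vol_neg Box
  have m1 : MeasurableSet {x : E | -x ∈ P} := measurable_neg meas_P
  have m2 : MeasurableSet {x : E | -x ∈ Box} := measurable_neg meas_Box
  have d1 : Disjoint P {x : E | -x ∈ P} := by
    rw [Set.disjoint_left]
    intro x hx hx'
    have h1 := hx.2
    have h2 : 2 < (-x) 0 := hx'.2
    simp at h2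
    linarith
  have d2 : Disjoint Box {x : E | -x ∈ Box} := by
    rw [Set.disjoint_left]
    intro x hx hx'
    have h1 := hx.2.1
    have h2 : 26 ≤ (-x) 1 := hx'.2.1
    simp at h2
    linarith
  have d3 : Disjoint (P ∪ {x : E | -x ∈ P}) (Box ∪ {x : E | -x ∈ Box}) := by
    rw [Set.disjoint_left]
    rintro x (hx | hx) (hx' | hx')
    · have h1 := hx.2
      have h2 := abs_le.1 hx'.1
      linarith [h2.2]
    · have h1 := hx.2
      have h2 := abs_le.1 hx'.1
      simp at h2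
      linarith [h2.1]
    · have h1 : 2 < (-x) 0 := hx.2
      have h2 := abs_le.1 hx'.1
      simp at h1
      linarith [h2.1]
    · have h1 : 2 < (-x) 0 := hx.2
      have h2 := abs_le.1 hx'.1
      simp at h1 h2
      linarith [h2.2]
  calc 2 * volume P + 2 * volume Box
      = (volume P + volume {x : E | -x ∈ P}) + (volume Box + volume {x : E | -x ∈ Box}) := by
        rw [e1, e2]; ring
    _ = volume ((P ∪ {x : E | -x ∈ P}) ∪ (Box ∪ {x : E | -x ∈ Box})) := by
        rw [measure_union d3 (meas_Box.union m2), measure_union d1 m1, measure_union d2 m2]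
    _ ≤ volume Out := by
        apply measure_mono
        rintro x ((hx | hx) | (hx | hx))
        · exact hx.1
        · have : -x ∈ Out := hx.1
          simpa [Out, Rad] using this
        · exact (Box_sub hx).1
        · have : -x ∈ Out := (Box_sub hx).1
          simpa [Out, Rad] using this

/-- main estimate -/
lemma main_est {a b V : ℝ} (ha : 0 ≤ a) (hV : 0 ≤ V)
    (h1 : volume (A1 ∩ Reg a b (V • e0)) = volume A1 / 3)
    (h2 : volume (A2 ∩ Reg a b (V • e0)) = volume A2 / 3) : False := by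
  have hmem : ∀ x : E, x ∈ Reg a b (V • e0) ↔ a * ‖x‖ ^ 2 + b < V * x 0 := by
    intro x
    simp only [Reg, mem_ofPred_eq, inner_smul_right, inner_e0]
  have hns : ¬ Sec ⊆ Reg a b (V • e0) := fun h => sector (isOpen_Reg _ _ _) h h2
  rw [Set.not_subset] at hns
  obtain ⟨z, hz, hzn⟩ := hns
  rw [hmem, not_lt] at hzn
  obtain ⟨⟨hz4, hz5⟩, hz0⟩ := hz
  set ρ := ‖z‖ with hρ
  have k1 : V * (ρ / 2) ≤ a * ρ ^ 2 + b :=
    le_trans (mul_le_mul_of_nonneg_left hz0 hV) hzn
  have hcoord : ∀ x : E, x 0 ≤ ‖x‖ := by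
    intro x
    have : |x 0| ≤ ‖x‖ := abs_le_of_sq_le_sq (by nlinarith [sq_nonneg (x 1), norm_sq x]) (norm_nonneg x)
    exact (le_abs_self _).trans this
  have third : volume A1 / 3 = ENNReal.ofReal (3.05 * π / 3) := by
    rw [vol_A1, ENNReal.ofReal_div_of_pos (by norm_num)]
    norm_num
  by_cases hc : ∃ x ∈ Cen, x ∈ Reg a b (V • e0)
  · obtain ⟨x, hxc, hxr⟩ := hc
    rw [hmem] at hxr
    have hx1 : ‖x‖ < 1 := hxc
    have hx0 := norm_nonneg x
    have k2 : a * ‖x‖ ^ 2 + b < V * ‖x‖ :=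
      lt_of_lt_of_le hxr (mul_le_mul_of_nonneg_left (hcoord x) hV)
    have hout : ∀ y ∈ Out, y ∉ Reg a b (V • e0) := by
      intro y hy hyr
      rw [hmem] at hyr
      have hy1 : 26 ≤ ‖y‖ := hy.1
      have k3 : a * ‖y‖ ^ 2 + b < V * ‖y‖ :=
        lt_of_lt_of_le hyr (mul_le_mul_of_nonneg_left (hcoord y) hV)
      -- from k1, k2 : V < 25 a
      have k4 : V * (ρ / 2 - ‖x‖) < a * (ρ ^ 2 - ‖x‖ ^ 2) := by nlinarith
      have k5 : V * 1 ≤ V * (ρ / 2 - ‖x‖) := mul_le_mul_of_nonneg_left (by linarith) hV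
      have k6 : a * (ρ ^ 2 - ‖x‖ ^ 2) ≤ a * 25 :=
        mul_le_mul_of_nonneg_left (by nlinarith) ha
      have k7 : V < a * 25 := by linarith
      have k8 : a * (‖y‖ ^ 2 - ρ ^ 2) < V * (‖y‖ - ρ / 2) := by nlinarith
      have k9 : a * (‖y‖ ^ 2 - 25) ≤ a * (‖y‖ ^ 2 - ρ ^ 2) :=
        mul_le_mul_of_nonneg_left (by nlinarith) ha
      have k10 : V * (‖y‖ - ρ / 2) ≤ V * ‖y‖ := mul_le_mul_of_nonneg_left (by linarith) hV
      have k11 : V * ‖y‖ ≤ a * 25 * ‖y‖ := mul_le_mul_of_nonneg_right k7.le (norm_nonneg y)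
      have k12 : a * 25 * ‖y‖ ≤ a * (‖y‖ ^ 2 - 25) := by
        have : 25 * ‖y‖ ≤ ‖y‖ ^ 2 - 25 := by nlinarith
        calc a * 25 * ‖y‖ = a * (25 * ‖y‖) := by ring
          _ ≤ _ := mul_le_mul_of_nonneg_left this ha
      linarith
    have hsub : A1 ∩ Reg a b (V • e0) ⊆ Cen := by
      rintro y ⟨hy, hyr⟩
      rw [A1_eq] at hy
      rcases hy with hy | hy
      · exact hy
      · exact absurd hyr (hout y hy)
    have h3 := measure_mono (μ := volume) hsub
    rw [h1, third, vol_Cen, ENNReal.ofReal_le_ofReal_iff Real.pi_pos.le] at h3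
    linarith [Real.pi_pos]
  · push Not at hc
    have hb : 0 ≤ b := by
      have h0 := hc 0 (by simp [Cen, Rad])
      rw [hmem] at h0
      simpa using h0
    have hsub : A1 ∩ Reg a b (V • e0) ⊆ P := by
      rintro y ⟨hy, hyr⟩
      rw [A1_eq] at hy
      rcases hy with hy | hy
      · exact absurd hyr (hc y hy)
      · refine ⟨hy, ?_⟩
        rw [hmem] at hyr
        have hy1 : 26 ≤ ‖y‖ := hy.1
        have k3 : a * ρ ^ 2 ≤ a * ‖y‖ ^ 2 := mul_le_mul_of_nonneg_left (by nlinarith) ha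
        have k4 : V * (ρ / 2) < V * y 0 := by linarith
        have k5 : ρ / 2 < y 0 := lt_of_mul_lt_mul_left k4 hV
        linarith
    have h3 := measure_mono (μ := volume) hsub
    rw [h1, third] at h3
    have h4 := vol_P
    rw [vol_Out, vol_Box] at h4
    have h5 : 2 * ENNReal.ofReal (3.05 * π / 3) + 2 * ENNReal.ofReal 0.04 ≤
        ENNReal.ofReal (2.05 * π) := by
      refine le_trans ?_ h4
      gcongr
    have e2 : (2 : ENNReal) = ENNReal.ofReal 2 := by norm_num
    rw [e2, ← ENNReal.ofReal_mul (by norm_num), ← ENNReal.ofReal_mul (by norm_num),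
      ← ENNReal.ofReal_add (by positivity) (by norm_num),
      ENNReal.ofReal_le_ofReal_iff (by positivity)] at h5
    have := Real.pi_lt_d2
    linarith

lemma no_cut (a b : ℝ) (ha : 0 ≤ a) (v : E)
    (h1 : volume (A1 ∩ Reg a b v) = volume A1 / 3)
    (h2 : volume (A2 ∩ Reg a b v) = volume A2 / 3) : False := by
  unfold A1 at h1
  unfold A2 at h2
  rw [vol_rot _ (measurableSet_Iio.union measurableSet_Ico)] at h1
  rw [vol_rot _ measurableSet_Icc] at h2
  exact main_est ha (norm_nonneg v) h1 h2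

end Pool.Agent.Helper477.Circle
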