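import Mathlib
import Pool.Agent.Helper477.Bound

set_option autoImplicit false

namespace Pool.Agent.Helper477
open Finset Filter Topology

theorem totient_sum (x : ℕ) : x ^ 2 ≤ 12 * ∑ q ∈ Finset.Icc 1 x, q.totient := by
  have hIcc : Finset.Icc 1 x = Finset.Ioc 0 x := by
    ext; simp only [Finset.mem_Icc, Finset.mem_Ioc]; omega
  have h1 : ∑ q ∈ Finset.Icc 1 x, q = ∑ d ∈ Finset.Icc 1 x, d.totient * (x / d) := by
    calc ∑ q ∈ Finset.Icc 1 x, q = ∑ q ∈ Finset.Icc 1 x, ∑ d ∈ Nat.divisors q, d.totient := by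
          refine Finset.sum_congr rfl fun q _ => ?_
          rw [Nat.sum_totient]
      _ = ∑ q ∈ Finset.Icc 1 x, ∑ d ∈ Finset.Icc 1 x, if d ∣ q then d.totient else 0 := by
          refine Finset.sum_congr rfl fun q hq => ?_
          rw [← Finset.sum_filter]
          refine Finset.sum_congr ?_ fun _ _ => rfl
          ext d
          rw [Finset.mem_Icc] at hq
          rw [Nat.mem_divisors, Finset.mem_filter, Finset.mem_Icc]
          constructor
          · intro h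
            exact ⟨⟨Nat.pos_of_dvd_of_pos h.1 (by omega), (Nat.le_of_dvd (by omega) h.1).trans hq.2⟩, h.1⟩
          · intro h
            exact ⟨h.2, by omega⟩
      _ = ∑ d ∈ Finset.Icc 1 x, ∑ q ∈ Finset.Icc 1 x, if d ∣ q then d.totient else 0 :=
          Finset.sum_comm
      _ = ∑ d ∈ Finset.Icc 1 x, d.totient * (x / d) := by
          refine Finset.sum_congr rfl fun d _ => ?_
          rw [← Finset.sum_filter, Finset.sum_const, hIcc, Nat.Ioc_filter_dvd_card_eq_div,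
            smul_eq_mul, mul_comm]
  have h2 : (∑ q ∈ Finset.Icc 1 x, q) * 2 = x * (x + 1) := by
    have h3 := Finset.sum_range_id_mul_two (x + 1)
    have h4 : ∑ q ∈ Finset.range (x + 1), q = ∑ q ∈ Finset.Icc 1 x, q := by
      rw [Finset.range_eq_Ico, Finset.sum_eq_sum_Ico_succ_bot (by omega)]
      simp only [zero_add]
      refine Finset.sum_congr ?_ fun _ _ => rfl
      ext; simp only [Finset.mem_Icc, Finset.mem_Ico]; omega
    rw [h4] at h3
    rw [h3]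
    simp [mul_comm]
  have h5 : ∑ d ∈ Finset.Icc 1 x, d.totient * (x / d) ≤
      ∑ d ∈ Finset.Icc 1 x, ((if 4 * d ≤ x then x else 0) + 3 * d.totient) := by
    refine Finset.sum_le_sum fun d hd => ?_
    rw [Finset.mem_Icc] at hd
    by_cases h : 4 * d ≤ x
    · rw [if_pos h]
      calc d.totient * (x / d) ≤ d * (x / d) := Nat.mul_le_mul_right _ (Nat.totient_le d)
        _ ≤ x := Nat.mul_div_le x d
        _ ≤ x + 3 * d.totient := Nat.le_add_right _ _
    · rw [if_neg h, zero_add, mul_comm]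
      apply Nat.mul_le_mul_right
      have : x / d < 4 := by
        rw [Nat.div_lt_iff_lt_mul (by omega)]
        omega
      omega
  have h6 : ∑ d ∈ Finset.Icc 1 x, (if 4 * d ≤ x then x else 0) ≤ (x / 4) * x := by
    rw [← Finset.sum_filter, Finset.sum_const, smul_eq_mul]
    apply Nat.mul_le_mul_right
    have : (Finset.Icc 1 x).filter (fun d => 4 * d ≤ x) ⊆ Finset.Icc 1 (x / 4) := by
      intro d hd
      rw [Finset.mem_filter, Finset.mem_Icc] at hd
      rw [Finset.mem_Icc]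
      omega
    have h7 := Finset.card_le_card this
    rw [Nat.card_Icc] at h7
    omega
  rw [Finset.sum_add_distrib, ← Finset.mul_sum] at h5
  have h8 : 4 * ((x / 4) * x) ≤ x * x := by
    calc 4 * ((x / 4) * x) = (4 * (x / 4)) * x := by ring
      _ ≤ x * x := Nat.mul_le_mul_right _ (Nat.mul_div_le x 4)
  nlinarith

theorem LL_upper (m q : ℕ) (hq : 0 < q) : LL (m + 1) q ≤ q ^ m := by
  have : NeZero q := ⟨hq.ne'⟩
  have h := card_image_cls_le (n := m + 1) (q := q) (Nat.succ_pos m) (SS (m + 1) q)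
    (Finset.Subset.refl _) (fun s hs t => scale_mem t s hs)
  rw [card_SS, pow_succ, mul_comm (q.totient ^ m)] at h
  have h0 : 0 < q.totient := Nat.totient_pos.mpr hq
  exact (Nat.le_of_mul_le_mul_left h h0).trans (Nat.pow_le_pow_left (Nat.totient_le q) m)

theorem LL_lower (m q : ℕ) (hq : 0 < q) :
    q.totient ^ m ≤ ((m + 1).factorial * 2 ^ (m + 1)) * LL (m + 1) q := by
  have : NeZero q := ⟨hq.ne'⟩
  have h := card_SS_le (n := m + 1) (q := q)
  have h0 : 0 < q.totient := Nat.totient_pos.mpr hq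
  rw [card_SS] at h
  have h2 : q.totient * q.totient ^ m ≤
      q.totient * (((m + 1).factorial * 2 ^ (m + 1)) * LL (m + 1) q) := by
    calc q.totient * q.totient ^ m = q.totient ^ (m + 1) := by ring
      _ ≤ _ := h
      _ = q.totient * (((m + 1).factorial * 2 ^ (m + 1)) * LL (m + 1) q) := by
        rw [LL]; ring
  exact Nat.le_of_mul_le_mul_left h2 h0

theorem sum_LL_lower (m x : ℕ) (hx : 0 < x) :
    (x : ℝ) ^ (m + 1) ≤ (12 ^ m * ((m + 1).factorial * 2 ^ (m + 1)) : ℕ) *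
      (∑ q ∈ Finset.Icc 1 x, LL (m + 1) q : ℕ) := by
  have h1 : ∑ q ∈ Finset.Icc 1 x, q.totient ^ m ≤
      ((m + 1).factorial * 2 ^ (m + 1)) * ∑ q ∈ Finset.Icc 1 x, LL (m + 1) q := by
    rw [Finset.mul_sum]
    refine Finset.sum_le_sum fun q hq => LL_lower m q ?_
    rw [Finset.mem_Icc] at hq; omega
  have h2 : (x : ℝ) ^ (m + 1) ≤ (12 : ℝ) ^ m * ∑ q ∈ Finset.Icc 1 x, (q.totient : ℝ) ^ m := by
    rcases m with _ | k
    · simp
    · have hx' : (0 : ℝ) < x := by exact_mod_cast hx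
      have h3 := pow_sum_div_card_le_sum_pow (s := Finset.Icc 1 x) (f := fun q => (q.totient : ℝ))
        (fun i _ => Nat.cast_nonneg _) k
      rw [Nat.card_Icc, Nat.add_sub_cancel] at h3
      rw [div_le_iff₀ (by positivity)] at h3
      have h4 : (x : ℝ) ^ 2 ≤ 12 * ∑ q ∈ Finset.Icc 1 x, (q.totient : ℝ) := by
        exact_mod_cast totient_sum x
      have h5 : ((x : ℝ) ^ 2) ^ (k + 1) ≤ (12 * ∑ q ∈ Finset.Icc 1 x, (q.totient : ℝ)) ^ (k + 1) :=
        pow_le_pow_left₀ (by positivity) h4 _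
      rw [mul_pow] at h5
      have h6 : ((x : ℝ) ^ 2) ^ (k + 1) ≤ (12 : ℝ) ^ (k + 1) *
          ((∑ q ∈ Finset.Icc 1 x, (q.totient : ℝ) ^ (k + 1)) * x ^ k) :=
        h5.trans (mul_le_mul_of_nonneg_left h3 (by positivity))
      have h7 : (x : ℝ) ^ (k + 1 + 1) * x ^ k ≤ ((12 : ℝ) ^ (k + 1) *
          (∑ q ∈ Finset.Icc 1 x, (q.totient : ℝ) ^ (k + 1))) * x ^ k := by
        calc (x : ℝ) ^ (k + 1 + 1) * x ^ k = ((x : ℝ) ^ 2) ^ (k + 1) := by ring
          _ ≤ _ := h6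
          _ = _ := by ring
      exact le_of_mul_le_mul_right h7 (by positivity)
  have h3 : (∑ q ∈ Finset.Icc 1 x, (q.totient : ℝ) ^ m) ≤
      (((m + 1).factorial * 2 ^ (m + 1) : ℕ) : ℝ) * ((∑ q ∈ Finset.Icc 1 x, LL (m + 1) q : ℕ) : ℝ) := by
    exact_mod_cast h1
  calc (x : ℝ) ^ (m + 1) ≤ (12 : ℝ) ^ m * ∑ q ∈ Finset.Icc 1 x, (q.totient : ℝ) ^ m := h2
    _ ≤ (12 : ℝ) ^ m * ((((m + 1).factorial * 2 ^ (m + 1) : ℕ) : ℝ) *
        ((∑ q ∈ Finset.Icc 1 x, LL (m + 1) q : ℕ) : ℝ)) :=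
        mul_le_mul_of_nonneg_left h3 (by positivity)
    _ = _ := by push_cast; ring

open Classical in
/-- moduli without a large prime factor dividing exactly once -/
noncomputable def Exc (Z x : ℕ) : Finset ℕ :=
  (Finset.Icc 1 x).filter (fun q => ¬ ∃ p a : ℕ, p.Prime ∧ Z < p ∧ q = a * p ∧ Nat.Coprime a p)

theorem card_Exc_le (Z x : ℕ) : (Exc Z x).card ≤
    ∑ d ∈ Finset.Ioo Z (x + 1), x / d ^ 2 + (Nat.smoothNumbersUpTo x (Z + 1)).card := by
  classical
  have hsub : Exc Z x ⊆ ((Finset.Ioo Z (x + 1)).biUnion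
      (fun d => (Finset.Ioc 0 x).filter (fun q => d ^ 2 ∣ q))) ∪ Nat.smoothNumbersUpTo x (Z + 1) := by
    intro q hq
    rw [Exc, Finset.mem_filter, Finset.mem_Icc] at hq
    rw [Finset.mem_union]
    by_cases hs : q ∈ Nat.smoothNumbers (Z + 1)
    · right
      rw [Nat.mem_smoothNumbersUpTo]
      exact ⟨hq.1.2, hs⟩
    · left
      rw [Nat.mem_smoothNumbers'] at hs
      push Not at hs
      obtain ⟨p, hp, hpq, hpZ⟩ := hs
      obtain ⟨a, ha⟩ := hpq
      have hnc : ¬ Nat.Coprime a p := by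
        intro hc
        apply hq.2
        exact ⟨p, a, hp, by omega, by rw [ha, mul_comm], hc⟩
      rw [Nat.coprime_comm, hp.coprime_iff_not_dvd, not_not] at hnc
      obtain ⟨b, hb⟩ := hnc
      have hdvd : p ^ 2 ∣ q := ⟨b, by rw [ha, hb]; ring⟩
      have hle : p ≤ q := Nat.le_of_dvd (by omega) ⟨a, ha⟩
      rw [Finset.mem_biUnion]
      refine ⟨p, ?_, ?_⟩
      · rw [Finset.mem_Ioo]; omega
      · rw [Finset.mem_filter, Finset.mem_Ioc]
        exact ⟨⟨by omega, hq.1.2⟩, hdvd⟩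
  refine (Finset.card_le_card hsub).trans ((Finset.card_union_le _ _).trans ?_)
  apply Nat.add_le_add_right
  refine Finset.card_biUnion_le.trans (Finset.sum_le_sum fun d _ => ?_)
  rw [Nat.Ioc_filter_dvd_card_eq_div]

theorem card_Exc_le_real (Z x : ℕ) : ((Exc Z x).card : ℝ) ≤
    x * (2 / (Z + 1)) + 2 ^ (Nat.primesBelow (Z + 1)).card * Real.sqrt x := by
  have h1 : ((Exc Z x).card : ℝ) ≤
      ((∑ d ∈ Finset.Ioo Z (x + 1), x / d ^ 2 : ℕ) : ℝ) + ((Nat.smoothNumbersUpTo x (Z + 1)).card : ℝ) := by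
    exact_mod_cast card_Exc_le Z x
  have h2 : ((∑ d ∈ Finset.Ioo Z (x + 1), x / d ^ 2 : ℕ) : ℝ) ≤ x * (2 / (Z + 1)) := by
    push_cast
    calc ∑ d ∈ Finset.Ioo Z (x + 1), ((x / d ^ 2 : ℕ) : ℝ) ≤
        ∑ d ∈ Finset.Ioo Z (x + 1), (x : ℝ) * ((d : ℝ) ^ 2)⁻¹ := by
          refine Finset.sum_le_sum fun d _ => ?_
          have := Nat.cast_div_le (m := x) (n := d ^ 2) (α := ℝ)
          rw [← div_eq_mul_inv]
          refine this.trans ?_
          push_cast
          exact le_refl _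
      _ = x * ∑ d ∈ Finset.Ioo Z (x + 1), ((d : ℝ) ^ 2)⁻¹ := by rw [Finset.mul_sum]
      _ ≤ x * (2 / (Z + 1)) := mul_le_mul_of_nonneg_left (sum_Ioo_inv_sq_le Z (x + 1))
          (Nat.cast_nonneg _)
  have h3 : ((Nat.smoothNumbersUpTo x (Z + 1)).card : ℝ) ≤
      2 ^ (Nat.primesBelow (Z + 1)).card * Real.sqrt x := by
    have h4 : ((Nat.smoothNumbersUpTo x (Z + 1)).card : ℝ) ≤
        ((2 ^ (Nat.primesBelow (Z + 1)).card * x.sqrt : ℕ) : ℝ) := by
      exact_mod_cast Nat.smoothNumbersUpTo_card_le x (Z + 1)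
    refine h4.trans ?_
    push_cast
    exact mul_le_mul_of_nonneg_left Real.nat_sqrt_le_real_sqrt (by positivity)
  linarith

theorem sum_NU_le (m : ℕ) : ∃ C p0 : ℕ, ∀ Z x : ℕ, p0 ≤ Z → 0 < Z → 0 < x →
    ((∑ q ∈ Finset.Icc 1 x, NU (m + 1) q : ℕ) : ℝ) ≤
      (x : ℝ) ^ (m + 1) * (C / Z + 2 / (Z + 1) +
        2 ^ (Nat.primesBelow (Z + 1)).card * (Real.sqrt x)⁻¹) := by
  classical
  obtain ⟨C, p0, hC⟩ := NU_bound m
  refine ⟨C, p0, fun Z x hZ hZ0 hx => ?_⟩
  have hx' : (0 : ℝ) < x := by exact_mod_cast hx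
  have hZ' : (0 : ℝ) < Z := by exact_mod_cast hZ0
  have hsplit := Finset.sum_filter_add_sum_filter_not (Finset.Icc 1 x)
    (fun q => ¬ ∃ p a : ℕ, p.Prime ∧ Z < p ∧ q = a * p ∧ Nat.Coprime a p)
    (fun q => (NU (m + 1) q : ℝ))
  push_cast
  rw [← hsplit]
  have h1 : ∑ q ∈ (Finset.Icc 1 x).filter
      (fun q => ¬ ∃ p a : ℕ, p.Prime ∧ Z < p ∧ q = a * p ∧ Nat.Coprime a p),
      (NU (m + 1) q : ℝ) ≤ ((Exc Z x).card : ℝ) * (x : ℝ) ^ m := by
    have : ∀ q ∈ (Finset.Icc 1 x).filter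
      (fun q => ¬ ∃ p a : ℕ, p.Prime ∧ Z < p ∧ q = a * p ∧ Nat.Coprime a p),
      (NU (m + 1) q : ℝ) ≤ (x : ℝ) ^ m := by
      intro q hq
      rw [Finset.mem_filter, Finset.mem_Icc] at hq
      have h2 : NU (m + 1) q ≤ x ^ m := (NU_le_LL _ _).trans
        ((LL_upper m q (by omega)).trans (Nat.pow_le_pow_left hq.1.2 m))
      exact_mod_cast h2
    have h3 := Finset.sum_le_card_nsmul _ _ _ this
    rw [nsmul_eq_mul] at h3
    unfold Exc
    convert h3
  have h2 : ∑ q ∈ (Finset.Icc 1 x).filter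
      (fun q => ¬ ¬ ∃ p a : ℕ, p.Prime ∧ Z < p ∧ q = a * p ∧ Nat.Coprime a p),
      (NU (m + 1) q : ℝ) ≤ (x : ℝ) * (C * (x : ℝ) ^ m / Z) := by
    have : ∀ q ∈ (Finset.Icc 1 x).filter
      (fun q => ¬ ¬ ∃ p a : ℕ, p.Prime ∧ Z < p ∧ q = a * p ∧ Nat.Coprime a p),
      (NU (m + 1) q : ℝ) ≤ C * (x : ℝ) ^ m / Z := by
      intro q hq
      rw [Finset.mem_filter, Finset.mem_Icc, not_not] at hq
      obtain ⟨hq1, p, a, hp, hpZ, hqa, hcop⟩ := hq
      have ha : 0 < a := by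
        rcases Nat.eq_zero_or_pos a with h | h
        · rw [h, zero_mul] at hqa; omega
        · exact h
      have h3 := hC p hp (by omega) q a ha hqa hcop
      have h4 : NU (m + 1) q * Z ≤ C * x ^ m := by
        calc NU (m + 1) q * Z ≤ NU (m + 1) q * (p - 1) := Nat.mul_le_mul_left _ (by omega)
          _ ≤ C * q ^ m := h3
          _ ≤ C * x ^ m := Nat.mul_le_mul_left _ (Nat.pow_le_pow_left hq1.2 m)
      rw [le_div_iff₀ hZ']
      exact_mod_cast h4
    have h3 := Finset.sum_le_card_nsmul _ _ _ this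
    rw [nsmul_eq_mul] at h3
    refine h3.trans (mul_le_mul_of_nonneg_right ?_ (by positivity))
    have h4 := Finset.card_filter_le (Finset.Icc 1 x)
      (fun q => ¬ ¬ ∃ p a : ℕ, p.Prime ∧ Z < p ∧ q = a * p ∧ Nat.Coprime a p)
    rw [Nat.card_Icc, Nat.add_sub_cancel] at h4
    exact_mod_cast h4
  have h3 := card_Exc_le_real Z x
  have hs : Real.sqrt x * Real.sqrt x = x := Real.mul_self_sqrt hx'.le
  have hs0 : 0 < Real.sqrt x := Real.sqrt_pos.mpr hx'
  have h4 : ((Exc Z x).card : ℝ) * (x : ℝ) ^ m ≤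
      (x * (2 / (Z + 1)) + 2 ^ (Nat.primesBelow (Z + 1)).card * Real.sqrt x) * (x : ℝ) ^ m :=
    mul_le_mul_of_nonneg_right h3 (by positivity)
  have h5 : Real.sqrt x = x * (Real.sqrt x)⁻¹ := by
    field_simp
    rw [sq]; exact hs
  calc _ ≤ (x * (2 / (Z + 1)) + 2 ^ (Nat.primesBelow (Z + 1)).card * Real.sqrt x) * (x : ℝ) ^ m +
        (x : ℝ) * (C * (x : ℝ) ^ m / Z) := add_le_add (h1.trans h4) h2
    _ = (x * (2 / (Z + 1)) + 2 ^ (Nat.primesBelow (Z + 1)).card * (x * (Real.sqrt x)⁻¹)) * (x : ℝ) ^ m +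
        (x : ℝ) * (C * (x : ℝ) ^ m / Z) := by rw [← h5]
    _ = _ := by ring

theorem density_zero (m : ℕ) : Tendsto (fun x : ℕ =>
    ((∑ q ∈ Finset.Icc 1 x, NU (m + 1) q : ℕ) : ℝ) / ((∑ q ∈ Finset.Icc 1 x, LL (m + 1) q : ℕ) : ℝ))
    atTop (𝓝 0) := by
  obtain ⟨C, p0, hC⟩ := sum_NU_le m
  set K : ℝ := ((12 ^ m * ((m + 1).factorial * 2 ^ (m + 1)) : ℕ) : ℝ) with hK
  have hKpos : 0 < K := by
    rw [hK]
    exact_mod_cast Nat.mul_pos (by positivity) (Nat.mul_pos (Nat.factorial_pos _) (by positivity))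
  rw [Metric.tendsto_atTop]
  intro ε hε
  -- choose Z
  obtain ⟨Z, hZ⟩ := exists_nat_gt (K * (C + 2) / (ε / 2))
  set Z' := max Z (max p0 1) with hZ'
  have hZ'0 : 0 < Z' := by omega
  have hZ'p : p0 ≤ Z' := by omega
  have hZ'r : (0 : ℝ) < Z' := by exact_mod_cast hZ'0
  have hZbig : K * (C / Z' + 2 / (Z' + 1)) < ε / 2 := by
    have h1 : K * (C + 2) / (ε / 2) < Z' := lt_of_lt_of_le hZ (by exact_mod_cast le_max_left _ _)
    rw [div_lt_iff₀ (by positivity)] at h1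
    have h2 : (2 : ℝ) / (Z' + 1) ≤ 2 / Z' := by
      apply div_le_div_of_nonneg_left (by norm_num) hZ'r (by linarith)
    have h3 : K * (C / Z' + 2 / (Z' + 1)) ≤ K * ((C + 2) / Z') := by
      apply mul_le_mul_of_nonneg_left _ hKpos.le
      rw [add_div]
      linarith
    refine lt_of_le_of_lt h3 ?_
    rw [← mul_div_assoc, div_lt_iff₀ hZ'r]
    linarith
  -- choose x
  have hlim : Tendsto (fun x : ℕ => K * (2 ^ (Nat.primesBelow (Z' + 1)).card * (Real.sqrt x)⁻¹))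
      atTop (𝓝 0) := by
    have h1 : Tendsto (fun x : ℕ => Real.sqrt (x : ℝ)) atTop atTop :=
      Real.tendsto_sqrt_atTop.comp tendsto_natCast_atTop_atTop
    have h2 := h1.inv_tendsto_atTop
    have h3 := (h2.const_mul ((2 : ℝ) ^ (Nat.primesBelow (Z' + 1)).card)).const_mul K
    simpa using h3
  rw [Metric.tendsto_atTop] at hlim
  obtain ⟨N, hN⟩ := hlim (ε / 2) (by positivity)
  refine ⟨max N 1, fun x hx => ?_⟩
  have hxN : N ≤ x := (le_max_left _ _).trans hx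
  have hx0 : 0 < x := lt_of_lt_of_le one_pos ((le_max_right N 1).trans hx)
  have hx' : (0 : ℝ) < x := by exact_mod_cast hx0
  have h1 := hC Z' x hZ'p hZ'0 hx0
  have h2 := sum_LL_lower m x hx0
  rw [← hK] at h2
  have h3 := hN x hxN
  rw [Real.dist_eq, sub_zero] at h3
  have h3' := (abs_lt.mp h3).2
  set A : ℝ := ((∑ q ∈ Finset.Icc 1 x, NU (m + 1) q : ℕ) : ℝ) with hA
  set L : ℝ := ((∑ q ∈ Finset.Icc 1 x, LL (m + 1) q : ℕ) : ℝ) with hL
  have hA0 : 0 ≤ A := by rw [hA]; exact Nat.cast_nonneg _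
  have hxpow : (0 : ℝ) < (x : ℝ) ^ (m + 1) := by positivity
  have hLpos : 0 < L := by
    by_contra hcon
    push Not at hcon
    have : K * L ≤ 0 := mul_nonpos_of_nonneg_of_nonpos hKpos.le hcon
    linarith
  rw [Real.dist_eq, sub_zero, abs_of_nonneg (div_nonneg hA0 hLpos.le), div_lt_iff₀ hLpos]
  set D : ℝ := C / Z' + 2 / (Z' + 1) + 2 ^ (Nat.primesBelow (Z' + 1)).card * (Real.sqrt x)⁻¹ with hD
  have hD0 : 0 ≤ D := by positivity
  calc A ≤ (x : ℝ) ^ (m + 1) * D := h1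
    _ ≤ (K * L) * D := mul_le_mul_of_nonneg_right h2 hD0
    _ = (K * D) * L := by ring
    _ < ε * L := by
        apply mul_lt_mul_of_pos_right _ hLpos
        have : K * D = K * (C / Z' + 2 / (Z' + 1)) +
            K * (2 ^ (Nat.primesBelow (Z' + 1)).card * (Real.sqrt x)⁻¹) := by rw [hD]; ring
        rw [this]
        linarith

end Pool.Agent.Helper477
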